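import Mathlib
import Pool.Agent.MP_c74c64_nt.H6.Local
import Pool.Agent.MP_48b1c3_nt.H54.Mertens

attribute [-instance] AddQuantale.instAddLeftMono IdemSemiring.toCanonicallyOrderedAdd
  IdemSemiring.toMulLeftMono NumberField.to_charZero RKHS.instFunLike
  DistribMulActionSemiHomClass.toAddMonoidHomClass SemilinearMapClass.toAddHomClass
  Fintype.decidableForallFintype IsOrderedMonoid.toMulLeftMono AddQuantale.instAddRightMono
  LinearOrderedCommMonoidWithZero.toPosMulStrictMono instCoeTOfCoeDep NormMulClass.toNoZeroDivisors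
  Quantale.instMulLeftMono instCoeOTCOfCoeOut covariant_swap_mul_of_covariant_mul NormedField.toField
  Quantale.instMulRightMono instCoeHTCOfCoeHeadOfCoeOTC CompletePartialOrder.toPartialOrder
  instCoeHTCTOfCoeTailOfCoeHTC NormedDivisionRing.toDivisionRing RCLike.charZero_rclike
  instCoeTCOfCoe Invertible.toNeZero

-- part MP_c74c64_nt.H6.Count
section

/-!
Counting residue classes in boxes: periodic sums, a variance bound and a rigidity bound.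
-/

namespace Pool.Agent.MP_c74c64_nt.H6

open Finset

lemma per0 (M : ℕ) [NeZero M] (g : ZMod M → ℝ) (a : ℤ) :
    ∑ x ∈ Ico a (a + M), g x = ∑ t, g t := by
  have inj : Set.InjOn (Int.cast : ℤ → ZMod M) (Ico a (a + M) : Finset ℤ) := fun x hx y hy e => by
    simp only [coe_Ico, Set.mem_Ico] at hx hy
    have := Int.eq_zero_of_abs_lt_dvd ((ZMod.intCast_eq_intCast_iff_dvd_sub _ _ _).1 e)
      (abs_lt.2 ⟨by omega, by omega⟩)
    omega
  have e : image (Int.cast : ℤ → ZMod M) (Ico a (a + M)) = univ :=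
    eq_univ_of_card _ (by rw [card_image_of_injOn inj]; simp)
  rw [← e, sum_image inj]

lemma per1 (M : ℕ) [NeZero M] (g : ZMod M → ℝ) (hg : ∀ t, |g t| ≤ 1) (n : ℕ) (a : ℤ) :
    |∑ x ∈ Ico a (a + n), g x - n * ((∑ t, g t) / M)| ≤ 2 * M := by
  have M0 : (0 : ℝ) < M := by exact_mod_cast NeZero.pos M
  induction n using Nat.strong_induction_on generalizing a with
  | _ n ih =>
  rcases lt_or_ge n M with h | h
  · have h' : (n : ℝ) ≤ M := by exact_mod_cast h.le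
    have b1 : |∑ x ∈ Ico a (a + n), g x| ≤ n := (abs_sum_le_sum_abs _ _).trans (by
      simpa only [Int.card_Ico, add_sub_cancel_left, Int.toNat_natCast, nsmul_eq_mul, mul_one] using sum_le_card_nsmul (Ico a (a + n)) _ 1 fun x _ => hg x)
    have b2 : |∑ t, g t| ≤ M := (abs_sum_le_sum_abs _ _).trans (by
      simpa only [card_univ, ZMod.card, nsmul_eq_mul, mul_one] using sum_le_card_nsmul univ _ 1 fun x _ => hg x)
    have b3 : |n * ((∑ t, g t) / M)| ≤ n := by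
      rw [abs_mul, Nat.abs_cast, abs_div, Nat.abs_cast]
      exact mul_le_of_le_one_right n.cast_nonneg ((div_le_one M0).2 b2)
    linarith only [abs_sub (∑ x ∈ Ico a (a + n), g x) (n * ((∑ t, g t) / M)), h', b1, b3]
  · obtain ⟨k, rfl⟩ := Nat.exists_eq_add_of_le h
    have := ih k (by have := NeZero.pos M; omega) (a + M)
    rw [← Ico_union_Ico_eq_Ico (b := a + M) (by omega) (by push_cast; omega),
      sum_union (Ico_disjoint_Ico_consecutive _ _ _), per0]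
    convert this using 2
    push_cast
    rw [add_assoc]
    field_simp
    ring

/-- A box of integer points. -/
noncomputable def Box (x₂ x₃ x₄ : ℤ) (n₂ n₃ n₄ : ℕ) : Finset (ℤ × ℤ × ℤ) :=
  Ico x₂ (x₂ + n₂) ×ˢ Ico x₃ (x₃ + n₃) ×ˢ Ico x₄ (x₄ + n₄)

/-- Reduction of a triple. -/
def red (M : ℕ) (s : ℤ × ℤ × ℤ) : ZMod M × ZMod M × ZMod M := (s.1, s.2.1, s.2.2)

variable {x₂ x₃ x₄ : ℤ} {n₂ n₃ n₄ : ℕ} {L : ℝ}

lemma card_Box : (#(Box x₂ x₃ x₄ n₂ n₃ n₄) : ℝ) = n₂ * n₃ * n₄ := by simp only [Box, card_product, Int.card_Ico, add_sub_cancel_left, Int.toNat_natCast, Nat.cast_mul, mul_assoc]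

lemma avg_le (M : ℕ) [NeZero M] (g : ZMod M → ℝ) (hg : ∀ t, |g t| ≤ 1) : |(∑ t, g t) / M| ≤ 1 := by
  have M0 : (0 : ℝ) < M := by exact_mod_cast NeZero.pos M
  rw [abs_div, Nat.abs_cast, div_le_one M0]
  exact (abs_sum_le_sum_abs _ _).trans (by simpa only [card_univ, ZMod.card, nsmul_eq_mul, mul_one] using sum_le_card_nsmul univ _ 1 fun x _ => hg x)

lemma sum_err {ι : Type*} (S : Finset ι) (f g : ι → ℝ) (c B : ℝ) (h : ∀ i, |f i - c * g i| ≤ B) :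
    |∑ i ∈ S, f i - c * ∑ i ∈ S, g i| ≤ #S * B := by
  rw [mul_sum, ← sum_sub_distrib]
  exact (abs_sum_le_sum_abs _ _).trans (by simpa only [nsmul_eq_mul] using sum_le_card_nsmul S _ B fun i _ => h i)

lemma per3 (M : ℕ) [NeZero M] (g : ZMod M × ZMod M × ZMod M → ℝ) (hg : ∀ t, |g t| ≤ 1)
    (h0 : ∑ t, g t = 0) (h₂ : L ≤ n₂) (h₃ : L ≤ n₃) (h₄ : L ≤ n₄) :
    L * |∑ s ∈ Box x₂ x₃ x₄ n₂ n₃ n₄, g (red M s)| ≤ 6 * M * (n₂ * n₃ * n₄) := by
  let g1 : ZMod M → ZMod M → ℝ := fun u v => (∑ w, g (u, v, w)) / M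
  let g2 : ZMod M → ℝ := fun u => (∑ v, g1 u v) / M
  have b1 : ∀ u v, |g1 u v| ≤ 1 := fun u v => avg_le M _ fun _ => hg _
  have b2 : ∀ u, |g2 u| ≤ 1 := fun u => avg_le M _ (b1 u)
  have z : ∑ u, g2 u = 0 := by
    simp only [g2, g1, ← sum_div]
    rw [Fintype.sum_prod_type] at h0
    simp only [Fintype.sum_prod_type] at h0
    simp only [h0, zero_div]
  have e3 := per1 M g2 b2 n₂ x₂
  have e2 := sum_err (Ico x₂ (x₂ + n₂)) (fun x => ∑ y ∈ Ico x₃ (x₃ + n₃), g1 x y)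
    (fun x => g2 x) n₃ _ fun x => per1 M (g1 x) (b1 x) n₃ x₃
  have e1 := sum_err (Ico x₂ (x₂ + n₂))
    (fun x => ∑ y ∈ Ico x₃ (x₃ + n₃), ∑ w ∈ Ico x₄ (x₄ + n₄), g (x, y, w))
    (fun x => ∑ y ∈ Ico x₃ (x₃ + n₃), g1 x y) n₄ _ fun x =>
      sum_err (Ico x₃ (x₃ + n₃)) _ (fun y => g1 x y) n₄ _ fun y =>
        per1 M (fun w => g (x, y, w)) (fun _ => hg _) n₄ x₄
  simp only [Box, sum_product, red]
  simp only [z, zero_div, mul_zero, sub_zero, Int.card_Ico, add_sub_cancel_left,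
    Int.toNat_natCast] at e1 e2 e3
  generalize (∑ x ∈ Ico x₂ (x₂ + n₂), ∑ y ∈ Ico x₃ (x₃ + n₃), ∑ w ∈ Ico x₄ (x₄ + n₄),
    g (x, y, w)) = A, (∑ x ∈ Ico x₂ (x₂ + n₂), ∑ y ∈ Ico x₃ (x₃ + n₃), g1 x y) = B,
    (∑ x ∈ Ico x₂ (x₂ + n₂), g2 x) = D at *
  have k : |A| ≤ 2 * M * (n₂ * n₃ + n₂ * n₄ + n₃ * n₄) := by
    have e : A = A - n₄ * B + n₄ * (B - n₃ * D) + n₄ * n₃ * D := by ring
    have t1 := abs_add_three (A - n₄ * B) (n₄ * (B - n₃ * D)) (n₄ * n₃ * D)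
    rw [← e, abs_mul, abs_mul, abs_mul, Nat.abs_cast, Nat.abs_cast] at t1
    have t2 := mul_le_mul_of_nonneg_left e2 (n₄.cast_nonneg (α := ℝ))
    have t3 := mul_le_mul_of_nonneg_left e3 (by positivity : (0 : ℝ) ≤ n₄ * n₃)
    linarith only [e1, t1, t2, t3]
  rcases le_total L 0 with l | l
  · exact (mul_nonpos_of_nonpos_of_nonneg l (abs_nonneg _)).trans (by positivity)
  have t1 := mul_le_mul_of_nonneg_right h₂ (by positivity : (0 : ℝ) ≤ 2 * M * (n₃ * n₄))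
  have t2 := mul_le_mul_of_nonneg_right h₃ (by positivity : (0 : ℝ) ≤ 2 * M * (n₂ * n₄))
  have t3 := mul_le_mul_of_nonneg_right h₄ (by positivity : (0 : ℝ) ≤ 2 * M * (n₂ * n₃))
  linarith only [mul_le_mul_of_nonneg_left k l, t1, t2, t3]

lemma per3_mul {m n : ℕ} [NeZero m] [NeZero n] (hc : m.Coprime n)
    (f : ZMod m × ZMod m × ZMod m → ℝ) (g : ZMod n × ZMod n × ZMod n → ℝ) (hf : ∀ t, |f t| ≤ 1)
    (hg : ∀ t, |g t| ≤ 1) (h0 : ∑ t, f t = 0) (h₂ : L ≤ n₂) (h₃ : L ≤ n₃) (h₄ : L ≤ n₄) :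
    L * |∑ s ∈ Box x₂ x₃ x₄ n₂ n₃ n₄, f (red m s) * g (red n s)| ≤
      6 * (m * n) * (n₂ * n₃ * n₄) := by
  let e := ZMod.chineseRemainder hc
  let E : ZMod (m * n) × ZMod (m * n) × ZMod (m * n) ≃
      (ZMod m × ZMod m × ZMod m) × ZMod n × ZMod n × ZMod n :=
    (e.toEquiv.prodCongr ((e.toEquiv.prodCongr e.toEquiv).trans
      (Equiv.prodProdProdComm _ _ _ _))).trans (Equiv.prodProdProdComm _ _ _ _)
  have hE : ∀ s, E (red (m * n) s) = (red m s, red n s) := fun s => by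
    change (((e _).1, (e _).1, (e _).1), (e _).2, (e _).2, (e _).2) = _
    simp [red]
  have := per3 (x₂ := x₂) (x₃ := x₃) (x₄ := x₄) (m * n) (fun t => f (E t).1 * g (E t).2)
    (fun t => by rw [abs_mul]; exact mul_le_one₀ (hf _) (abs_nonneg _) (hg _))
    (by rw [E.sum_comp fun t => f t.1 * g t.2, Fintype.sum_prod_type, ← sum_mul_sum, h0, zero_mul])
    h₂ h₃ h₄
  simpa only [hE, Nat.cast_mul] using this

lemma variance (P : Finset ℕ) (hP : ∀ p ∈ P, p.Prime) {Y : ℝ} (hY : ∀ p ∈ P, (p : ℝ) ≤ Y)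
    (hc : (#P : ℝ) ≤ Y) (hL : Y ^ 6 ≤ L) (L0 : 0 < L)
    (f : ∀ p : ℕ, ZMod (p ^ 2) × ZMod (p ^ 2) × ZMod (p ^ 2) → ℝ) (μ : ℕ → ℝ)
    (hf : ∀ p t, 0 ≤ f p t ∧ f p t ≤ 1) (hμ : ∀ p ∈ P, 0 ≤ μ p ∧ μ p ≤ 1)
    (h0 : ∀ p ∈ P, ∀ [NeZero (p ^ 2)], ∑ t, (f p t - μ p) = 0)
    (h₂ : L ≤ n₂) (h₃ : L ≤ n₃) (h₄ : L ≤ n₄) :
    ∑ s ∈ Box x₂ x₃ x₄ n₂ n₃ n₄, (∑ p ∈ P, (f p (red _ s) - μ p)) ^ 2 ≤
      (2 * ∑ p ∈ P, μ p + 6) * (n₂ * n₃ * n₄) := by
  have Y0 : 0 ≤ Y := le_trans (Nat.cast_nonneg _) hc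
  have V0 : (0 : ℝ) ≤ n₂ * n₃ * n₄ := by positivity
  have b : ∀ p ∈ P, ∀ t, |f p t - μ p| ≤ 1 := fun p hp t =>
    abs_le.2 ⟨by linarith [(hf p t).1, (hμ p hp).2], by linarith only [(hf p t).2, (hμ p hp).1]⟩
  have k : ∀ p ∈ P, ∀ q ∈ P, L * ∑ s ∈ Box x₂ x₃ x₄ n₂ n₃ n₄,
      (f p (red _ s) - μ p) * (f q (red _ s) - μ q) ≤
      (if p = q then L * (2 * μ p) * (n₂ * n₃ * n₄) else 0) + 6 * Y ^ 4 * (n₂ * n₃ * n₄) := by
    intro p hp q hq
    have : NeZero (p ^ 2) := ⟨pow_ne_zero _ (hP p hp).ne_zero⟩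
    have : NeZero (q ^ 2) := ⟨pow_ne_zero _ (hP q hq).ne_zero⟩
    have p1 : (1 : ℝ) ≤ p := by exact_mod_cast (hP p hp).one_le
    have q1 : (1 : ℝ) ≤ q := by exact_mod_cast (hP q hq).one_le
    have y : (p : ℝ) ^ 2 * q ^ 2 ≤ Y ^ 4 := by
      calc (p : ℝ) ^ 2 * q ^ 2 ≤ Y ^ 2 * Y ^ 2 := by gcongr; exacts [hY p hp, hY q hq]
        _ = _ := by ring
    split_ifs with e
    · subst e
      have t := per3 (x₂ := x₂) (x₃ := x₃) (x₄ := x₄) _ _ (b p hp) (h0 p hp) h₂ h₃ h₄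
      have t2 : ∑ s ∈ Box x₂ x₃ x₄ n₂ n₃ n₄, (f p (red _ s) - μ p) * (f p (red _ s) - μ p) ≤
          ∑ s ∈ Box x₂ x₃ x₄ n₂ n₃ n₄, (f p (red _ s) - μ p + 2 * μ p) :=
        sum_le_sum fun s _ => by nlinarith only [hf p (red _ s), hμ p hp]
      rw [sum_add_distrib, sum_const, nsmul_eq_mul, card_Box] at t2
      have t3 := mul_le_mul_of_nonneg_left (le_abs_self
        (∑ s ∈ Box x₂ x₃ x₄ n₂ n₃ n₄, (f p (red _ s) - μ p))) L0.le
      have t4 : (p : ℝ) ^ 2 ≤ Y ^ 4 := le_trans (le_mul_of_one_le_right (by positivity)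
        (one_le_pow₀ p1)) y
      push_cast at t
      linarith only [mul_le_mul_of_nonneg_left t2 L0.le, mul_le_mul_of_nonneg_right t4 V0, t3, t]
    · have t := per3_mul (x₂ := x₂) (x₃ := x₃) (x₄ := x₄)
        (Nat.Coprime.pow 2 2 ((Nat.coprime_primes (hP p hp) (hP q hq)).2 e)) _ _ (b p hp) (b q hq)
        (h0 p hp) h₂ h₃ h₄
      have t3 := mul_le_mul_of_nonneg_left (le_abs_self (∑ s ∈ Box x₂ x₃ x₄ n₂ n₃ n₄,
        (f p (red _ s) - μ p) * (f q (red _ s) - μ q))) L0.le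
      push_cast at t
      linarith only [mul_le_mul_of_nonneg_right y V0, t3, t]
  refine le_of_mul_le_mul_left ?_ L0
  simp only [sq, sum_mul_sum]
  rw [sum_comm, mul_sum]
  have k2 : ∀ p ∈ P, L * ∑ s ∈ Box x₂ x₃ x₄ n₂ n₃ n₄, ∑ q ∈ P,
      (f p (red _ s) - μ p) * (f q (red _ s) - μ q) ≤
      L * (2 * μ p) * (n₂ * n₃ * n₄) + #P * (6 * Y ^ 4 * (n₂ * n₃ * n₄)) := fun p hp => by
    rw [sum_comm, mul_sum]
    refine (sum_le_sum (k p hp)).trans ?_
    rw [sum_add_distrib, sum_ite_eq, if_pos hp, sum_const, nsmul_eq_mul]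
  refine (sum_le_sum k2).trans ?_
  rw [sum_add_distrib, sum_const, nsmul_eq_mul, ← sum_mul, ← mul_sum, ← mul_sum]
  have : (#P : ℝ) * (#P * Y ^ 4) ≤ L := by
    calc (#P : ℝ) * (#P * Y ^ 4) ≤ Y * (Y * Y ^ 4) := by gcongr
      _ = Y ^ 6 := by ring
      _ ≤ L := hL
  linarith only [mul_le_mul_of_nonneg_right this V0]

lemma rigid {α β : Type*} (S : Finset α) (T : Finset β) (π : α → β) (c : α → ℤ) (a : ℤ) (n : ℕ)
    {p : ℕ} (hp : 0 < p) (h1 : ∀ x ∈ S, π x ∈ T ∧ c x ∈ Ico a (a + n))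
    (h2 : ∀ x y, π x = π y → c x = c y → x = y)
    (h3 : ∀ x ∈ S, ∀ y ∈ S, π x = π y → (p : ℤ) ∣ c y - c x → (p : ℤ) ^ 2 ∣ c y - c x) :
    (#S : ℝ) ≤ #T * (n / p + p) := by
  have p0 : (0 : ℤ) < p := by exact_mod_cast hp
  have q0 : (0 : ℤ) < (p : ℤ) ^ 2 := by positivity
  have := card_le_card_of_injOn (s := S) (t := T ×ˢ Ico (0 : ℤ) p ×ˢ Ico (0 : ℤ) ((n / p ^ 2 + 1 : ℕ)))
    (fun x => (π x, c x % p, (c x - a) / (p : ℤ) ^ 2)) (fun x hx => by
      obtain ⟨t, u⟩ := h1 x hx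
      simp only [mem_Ico] at u
      simp only [coe_product, Set.mem_prod, mem_coe, mem_Ico]
      refine ⟨t, ⟨Int.emod_nonneg _ p0.ne', Int.emod_lt_of_pos _ p0⟩,
        Int.ediv_nonneg (by omega) q0.le, ?_⟩
      push_cast
      exact Int.lt_add_one_iff.2 (Int.ediv_le_ediv q0 (by omega))) (fun x hx y hy e => by
      simp only [Prod.mk.injEq] at e
      obtain ⟨k, hk⟩ := h3 x hx y hy e.1 (Int.ModEq.dvd e.2.1)
      have e' : c y - a = c x - a + (p : ℤ) ^ 2 * k := by linear_combination hk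
      have e2 := e.2.2
      rw [e', Int.add_mul_ediv_left _ _ q0.ne'] at e2
      obtain rfl : k = 0 := by omega
      exact h2 x y e.1 (by omega))
  simp only [card_product, Int.card_Ico, sub_zero, Int.toNat_natCast] at this
  refine (Nat.cast_le.2 this).trans ?_
  push_cast
  have r0 : (0 : ℝ) < p := by exact_mod_cast hp
  have : ((n / p ^ 2 : ℕ) : ℝ) ≤ n / (p : ℝ) ^ 2 := by exact_mod_cast Nat.cast_div_le (α := ℝ)
  gcongr
  calc (p : ℝ) * ((n / p ^ 2 : ℕ) + 1) ≤ p * (n / (p : ℝ) ^ 2 + 1) := by gcongr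
    _ = n / p + p := by field_simp

lemma fib {G : Type*} [AddCommGroup G] [Fintype G] {p : ℕ} [NeZero p] (f : G →+ ZMod p)
    (hf : Function.Surjective f) (c : ZMod p) : p * #{v | f v = c} = Fintype.card G := by
  classical
  have := card_eq_sum_card_fiberwise (f := f) (s := univ) (t := univ) (by simp)
  rw [sum_congr rfl fun d _ => AddMonoidHom.card_fiber_eq_of_mem_range f (hf d) (hf c)] at this
  simpa only [sum_const, card_univ, ZMod.card, smul_eq_mul] using this.symm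

end Pool.Agent.MP_c74c64_nt.H6

end

-- part MP_c74c64_nt.H6.Mean
section

/-!
Mean density of the exceptional classes, and their frequency in short boxes.
-/

namespace Pool.Agent.MP_c74c64_nt.H6

open Finset

open Classical in
/-- Indicator of the exceptional classes. -/
noncomputable def ind (a₁ : ℤ) (p : ℕ) (t : ZMod (p ^ 2) × ZMod (p ^ 2) × ZMod (p ^ 2)) : ℝ :=
  if Bad p a₁ t.1 t.2.1 t.2.2 then 1 else 0

lemma ind_mem (a₁ : ℤ) (p : ℕ) (t) : 0 ≤ ind a₁ p t ∧ ind a₁ p t ≤ 1 := by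
  unfold ind; split_ifs <;> simp

variable {p : ℕ} [Fact p.Prime]

lemma sing_card (hp : 7 ≤ p) (a₁ a₂ a₃ : ZMod (p ^ 2)) :
    #{a₄ | ((curve a₁ a₂ a₃ a₄).map (rh p)).Δ = 0} ≤ 3 * p := by
  classical
  have h2 : (2 : ZMod p) ≠ 0 := two_ne (by omega)
  simp only [curve_map]
  generalize rh p a₁ = a₁, rh p a₂ = a₂, rh p a₃ = a₃
  let β := a₁ ^ 2 + 4 * a₂
  let k := a₁ * a₃
  let Q : Cubic (ZMod p) := ⟨-2 ^ 6, β ^ 2 - 96 * k, β ^ 2 * k - 48 * k ^ 2 + 18 * β * a₃ ^ 2,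
    -β ^ 2 * a₂ * a₃ ^ 2 - 8 * k ^ 3 - 27 * a₃ ^ 4 + 9 * β * a₃ ^ 2 * k⟩
  have f : ∀ c, #{v | rh p v = c} = p := fun c =>
    Nat.eq_of_mul_eq_mul_left (n := p) (by omega)
      ((fib (rh p).toAddMonoidHom rh_surj c).trans (by rw [ZMod.card, sq]))
  refine (card_le_card (t := Q.roots.toFinset.biUnion fun c => {v | rh p v = c}) fun x hx => ?_).trans
    (card_biUnion_le.trans ?_)
  · simp only [mem_biUnion, mem_filter, mem_univ, true_and, Multiset.mem_toFinset, exists_eq_right']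
      at hx ⊢
    rw [Cubic.mem_roots_iff (Cubic.ne_zero_of_a_ne_zero (neg_ne_zero.2 (pow_ne_zero _ h2))), ← hx,
      WeierstrassCurve.Δ, curve_b₂, curve_b₄, curve_b₆, curve_b₈]
    ring
  · simp only [f, sum_const, smul_eq_mul]
    exact Nat.mul_le_mul_right _ Cubic.card_roots_le

lemma mean (hp : 7 ≤ p) (a₁ : ℤ) :
    ∃ μ : ℝ, 1 / p - 3 / p ^ 2 ≤ μ ∧ μ ≤ 1 / p ∧ ∑ t, (ind a₁ p t - μ) = 0 := by
  classical
  have p0 : (0 : ℝ) < p := by exact_mod_cast (by omega : 0 < p)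
  have cG : Fintype.card (ZMod (p ^ 2) × ZMod (p ^ 2) × ZMod (p ^ 2)) = p ^ 6 := by
    simp only [Fintype.card_prod, ZMod.card]; ring
  let D : ZMod (p ^ 2) × ZMod (p ^ 2) × ZMod (p ^ 2) → Prop := fun t =>
    ((curve (a₁ : ZMod (p ^ 2)) t.1 t.2.1 t.2.2).map (rh p)).Δ = 0
  have k : ∀ t, p * ∑ v, ind a₁ p (t + pp p • v) = if D t then 0 else (p : ℝ) ^ 6 := fun t => by
    split_ifs with h
    · refine mul_eq_zero_of_right _ (sum_eq_zero fun v _ => if_neg fun b => b.1 ?_)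
      simpa only [D, curve_map, Prod.fst_add, Prod.snd_add, Prod.smul_fst, Prod.smul_snd, smul_eq_mul,
        map_add, map_mul, rh_p, zero_mul, add_zero] using h
    · obtain ⟨l₂, l₃, l₄, c, h1, h2⟩ := local_structure hp h
      let f : ZMod (p ^ 2) × ZMod (p ^ 2) × ZMod (p ^ 2) →+ ZMod p := AddMonoidHom.mk'
        (fun v => l₂ * rh p v.1 + l₃ * rh p v.2.1 + l₄ * rh p v.2.2) fun v w => by
          simp only [Prod.fst_add, Prod.snd_add, map_add]; ring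
      have s : Function.Surjective f := fun d => by
        rcases h1 with l | l | l
        · obtain ⟨x, hx⟩ := rh_surj (l₂⁻¹ * d)
          exact ⟨(x, 0, 0), by simp only [f, AddMonoidHom.mk'_apply, hx, ne_eq, l, not_false_eq_true, mul_inv_cancel_left₀, map_zero, mul_zero, add_zero]⟩
        · obtain ⟨x, hx⟩ := rh_surj (l₃⁻¹ * d)
          exact ⟨(0, x, 0), by simp only [f, AddMonoidHom.mk'_apply, map_zero, mul_zero, hx, ne_eq, l, not_false_eq_true, mul_inv_cancel_left₀, zero_add, add_zero]⟩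
        · obtain ⟨x, hx⟩ := rh_surj (l₄⁻¹ * d)
          exact ⟨(0, 0, x), by simp only [f, AddMonoidHom.mk'_apply, map_zero, mul_zero, add_zero, hx, ne_eq, l, not_false_eq_true, mul_inv_cancel_left₀, zero_add]⟩
      have := fib f s c
      rw [cG] at this
      have e : ∀ v, ind a₁ p (t + pp p • v) = if f v = c then 1 else 0 := fun v =>
        if_congr (h2 v.1 v.2.1 v.2.2) rfl rfl
      simp only [e, sum_boole]
      exact_mod_cast this
  have e : p * ((p : ℝ) ^ 6 * ∑ t, ind a₁ p t) = (p ^ 6 - #{t | D t}) * p ^ 6 := by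
    have := sum_congr rfl fun t (_ : t ∈ univ) => k t
    have s : ∀ v, ∑ t, ind a₁ p (t + pp p • v) = ∑ t, ind a₁ p t := fun v =>
      Equiv.sum_comp (Equiv.addRight (pp p • v)) (ind a₁ p)
    rw [← mul_sum, sum_comm, sum_congr rfl fun v _ => s v, sum_const, card_univ, cG, sum_ite,
      sum_const_zero, zero_add, sum_const] at this
    have c := card_filter_add_card_filter_not (s := univ) D
    rw [card_univ, cG] at c
    rw [sub_eq_of_eq_add' (show (#{t | D t} : ℝ) + #{t | ¬D t} = p ^ 6 by exact_mod_cast c).symm]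
    simpa only [nsmul_eq_mul, Nat.cast_pow] using this
  have b : #{t | D t} ≤ p ^ 2 * (p ^ 2 * (3 * p)) := by
    rw [card_filter, Fintype.sum_prod_type]
    refine (sum_le_card_nsmul _ _ (p ^ 2 * (3 * p)) fun x _ => ?_).trans (by simp)
    rw [Fintype.sum_prod_type]
    refine (sum_le_card_nsmul _ _ (3 * p) fun y _ => ?_).trans (by simp)
    rw [← card_filter]
    exact sing_card hp _ x y
  have b' : (#{t | D t} : ℝ) ≤ p ^ 2 * (p ^ 2 * (3 * p)) := by exact_mod_cast b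
  have e' : ∑ t, ind a₁ p t = (p ^ 6 - #{t | D t}) / p := by
    rw [eq_div_iff p0.ne']
    exact mul_left_cancel₀ (pow_ne_zero 6 p0.ne') (by linear_combination e)
  refine ⟨(p ^ 6 - #{t | D t}) / p ^ 7, ?_, ?_, ?_⟩
  · rw [le_div_iff₀ (by positivity)]
    have : (1 / p - 3 / p ^ 2) * (p : ℝ) ^ 7 = p ^ 6 - p ^ 2 * (p ^ 2 * (3 * p)) := by field_simp
    linarith only [b', this]
  · rw [div_le_iff₀ (by positivity)]
    have : 1 / p * (p : ℝ) ^ 7 = p ^ 6 := by field_simp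
    linarith only [this]
  · rw [sum_sub_distrib, e', sum_const, card_univ, cG, nsmul_eq_mul]
    push_cast
    field_simp
    ring

lemma bad_rigid (hp : 7 ≤ p) {a₁ : ZMod (p ^ 2)} {a₂ a₃ a₄ : ℤ} (h : Bad p a₁ a₂ a₃ a₄) :
    (∀ b : ℤ, Bad p a₁ b a₃ a₄ → (p : ℤ) ∣ b - a₂ → (p : ℤ) ^ 2 ∣ b - a₂) ∨
    (∀ b : ℤ, Bad p a₁ a₂ b a₄ → (p : ℤ) ∣ b - a₃ → (p : ℤ) ^ 2 ∣ b - a₃) ∨
    ∀ b : ℤ, Bad p a₁ a₂ a₃ b → (p : ℤ) ∣ b - a₄ → (p : ℤ) ^ 2 ∣ b - a₄ := by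
  obtain ⟨l₂, l₃, l₄, c, h1, h2⟩ := local_structure hp h.1
  have c0 := (h2 0 0 0).1 (by simpa using h)
  have k : ∀ {l : ZMod p} {a b k : ℤ}, l ≠ 0 → b - a = p * k → l * k = 0 → (p : ℤ) ^ 2 ∣ b - a :=
    fun l e z => by
      rw [e, sq]
      exact mul_dvd_mul_left _ ((ZMod.intCast_zmod_eq_zero_iff_dvd _ p).1
        ((mul_eq_zero.1 z).resolve_left l))
  have m : ∀ {a b k : ℤ}, b - a = p * k → (b : ZMod (p ^ 2)) = a + pp p * k := fun e => by
    rw [sub_eq_iff_eq_add'.1 e]; push_cast; rfl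
  refine h1.imp (fun l b hb ⟨j, e⟩ => k l e ?_)
    (Or.imp (fun l b hb ⟨j, e⟩ => k l e ?_) fun l b hb ⟨j, e⟩ => k l e ?_)
  · simpa only [mul_eq_zero, map_intCast, ZMod.castHom_apply, ZMod.cast_zero, mul_zero, add_zero, ← c0] using (h2 j 0 0).1 (by simpa [← m e] using hb)
  · simpa only [mul_eq_zero, ZMod.castHom_apply, ZMod.cast_zero, mul_zero, map_intCast, zero_add, add_zero, ← c0] using (h2 0 j 0).1 (by simpa [← m e] using hb)
  · simpa only [mul_eq_zero, ZMod.castHom_apply, ZMod.cast_zero, mul_zero, add_zero, map_intCast, zero_add, ← c0] using (h2 0 0 j).1 (by simpa [← m e] using hb)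

lemma tail (hp : 7 ≤ p) (a₁ x₂ x₃ x₄ : ℤ) {n₂ n₃ n₄ : ℕ} {L : ℝ} (L0 : 0 < L)
    (h₂ : L ≤ n₂) (h₃ : L ≤ n₃) (h₄ : L ≤ n₄) :
    ∑ s ∈ Box x₂ x₃ x₄ n₂ n₃ n₄, ind a₁ p (red _ s) ≤ 3 * (n₂ * n₃ * n₄) * (1 / p + p / L) := by
  classical
  have p0 : (0 : ℝ) < p := by exact_mod_cast (by omega : 0 < p)
  have k : ∀ a b c : ℕ, L ≤ c → ((a * b : ℕ) : ℝ) * (c / p + p) ≤ a * b * c * (1 / p + p / L) :=
    fun a b c h => by
      have : (p : ℝ) ≤ c * (p / L) := by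
        rw [mul_div_assoc', le_div_iff₀ L0, mul_comm]; gcongr
      push_cast
      rw [mul_assoc (a * b : ℝ), mul_add (c : ℝ), mul_one_div]
      gcongr
  let B : ℤ → ℤ → ℤ → Prop := fun x y z => Bad p a₁ x y z
  have r₂ := rigid {s ∈ Box x₂ x₃ x₄ n₂ n₃ n₄ | B s.1 s.2.1 s.2.2 ∧
      ∀ b : ℤ, B b s.2.1 s.2.2 → (p : ℤ) ∣ b - s.1 → (p : ℤ) ^ 2 ∣ b - s.1}
    (Ico x₃ (x₃ + n₃) ×ˢ Ico x₄ (x₄ + n₄)) (·.2) (·.1) x₂ n₂ (p := p) (by omega)
    (fun s h => (mem_product.1 (mem_filter.1 h).1).symm) (fun _ _ a b => Prod.ext b a)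
    fun s h t h' e => (mem_filter.1 h).2.2 _ (e ▸ (mem_filter.1 h').2.1)
  have r₃ := rigid {s ∈ Box x₂ x₃ x₄ n₂ n₃ n₄ | B s.1 s.2.1 s.2.2 ∧
      ∀ b : ℤ, B s.1 b s.2.2 → (p : ℤ) ∣ b - s.2.1 → (p : ℤ) ^ 2 ∣ b - s.2.1}
    (Ico x₂ (x₂ + n₂) ×ˢ Ico x₄ (x₄ + n₄)) (fun s => (s.1, s.2.2)) (·.2.1) x₃ n₃ (p := p) (by omega)
    (fun s h => by
      have := (mem_filter.1 h).1
      simp only [Box, mem_product] at this ⊢
      tauto) (fun _ _ a b => by simp only [Prod.ext_iff] at a ⊢; tauto)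
    fun s h t h' e => (mem_filter.1 h).2.2 _ (by
      rw [(Prod.mk.inj e).1, (Prod.mk.inj e).2]; exact (mem_filter.1 h').2.1)
  have r₄ := rigid {s ∈ Box x₂ x₃ x₄ n₂ n₃ n₄ | B s.1 s.2.1 s.2.2 ∧
      ∀ b : ℤ, B s.1 s.2.1 b → (p : ℤ) ∣ b - s.2.2 → (p : ℤ) ^ 2 ∣ b - s.2.2}
    (Ico x₂ (x₂ + n₂) ×ˢ Ico x₃ (x₃ + n₃)) (fun s => (s.1, s.2.1)) (·.2.2) x₄ n₄ (p := p) (by omega)
    (fun s h => by
      have := (mem_filter.1 h).1
      simp only [Box, mem_product] at this ⊢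
      tauto) (fun _ _ a b => by simp only [Prod.ext_iff] at a ⊢; tauto)
    fun s h t h' e => (mem_filter.1 h).2.2 _ (by
      rw [(Prod.mk.inj e).1, (Prod.mk.inj e).2]; exact (mem_filter.1 h').2.1)
  simp only [card_product, Int.card_Ico, add_sub_cancel_left, Int.toNat_natCast] at r₂ r₃ r₄
  have := add_le_add (r₂.trans (k _ _ _ h₂)) (add_le_add (r₃.trans (k _ _ _ h₃)) (r₄.trans (k _ _ _ h₄)))
  refine le_trans ?_ (this.trans_eq (by ring))
  unfold ind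
  rw [sum_boole]
  norm_cast
  refine le_trans (card_le_card fun s h => ?_)
    ((card_union_le _ _).trans (Nat.add_le_add_left (card_union_le _ _) _))
  simp only [mem_union, mem_filter] at h ⊢
  have := bad_rigid hp h.2
  tauto

end Pool.Agent.MP_c74c64_nt.H6

end

-- part MP_c74c64_nt.H6.Main
section

/-!
The number of exceptional primes up to `z`, for most curves of a box, uniformly in `z`.
-/

namespace Pool.Agent.MP_c74c64_nt.H6

open Finset Real Pool.Agent.MP_48b1c3_nt.H54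

lemma markov {α : Type*} (S : Finset α) (g : α → ℝ) (h0 : ∀ s, 0 ≤ g s) {t B : ℝ} (ht : 0 < t)
    (h : ∑ s ∈ S, g s ≤ B * t) : (#{s ∈ S | t < g s} : ℝ) ≤ B := by
  refine le_of_mul_le_mul_right (le_trans ?_ h) ht
  refine le_trans ?_ (sum_le_sum_of_subset_of_nonneg (filter_subset (fun s => t < g s) S)
    fun s _ _ => h0 s)
  simpa only [nsmul_eq_mul] using card_nsmul_le_sum _ g t fun s hs => (mem_filter.1 hs).2.le

lemma PI_split {a b c : ℝ} (h : a ≤ b) (h' : b ≤ c) (f : ℕ → ℝ) :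
    ∑ p ∈ PI a c, f p = ∑ p ∈ PI a b, f p + ∑ p ∈ PI b c, f p := by
  rw [← sum_union (disjoint_left.2 fun p u v => by
    linarith [(mem_PI.1 u).2.1, (mem_PI.1 v).1])]
  congr 1
  ext p
  simp only [mem_union, mem_PI]
  refine ⟨fun u => (le_or_gt (p : ℝ) b).imp (fun v => ⟨u.1, v, u.2.2⟩) fun v => ⟨v, u.2⟩, ?_⟩
  rintro (u | u)
  exacts [⟨u.1, u.2.1.trans h', u.2.2⟩, ⟨h.trans_lt u.1, u.2⟩]

lemma PI_mono {a b c d : ℝ} (h : c ≤ a) (h' : b ≤ d) {f : ℕ → ℝ} (h0 : ∀ p, 0 ≤ f p) :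
    ∑ p ∈ PI a b, f p ≤ ∑ p ∈ PI c d, f p :=
  sum_le_sum_of_subset_of_nonneg (fun _ u => mem_PI.2 ⟨h.trans_lt (mem_PI.1 u).1,
    (mem_PI.1 u).2.1.trans h', (mem_PI.1 u).2.2⟩) fun p _ _ => h0 p

lemma PI_card {a b : ℝ} (hb : 0 ≤ b) : (#(PI a b) : ℝ) ≤ b :=
  le_trans (Nat.cast_le.2 ((card_filter_le _ _).trans (by simp only [Nat.card_Ioc, tsub_le_iff_right, le_add_iff_nonneg_right, zero_le]))) (Nat.floor_le hb)

lemma six {f : ℕ → ℝ} (h : ∀ p, f p ≤ 1) : ∑ p ∈ PI 0 6, f p ≤ 6 :=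
  (sum_le_card_nsmul _ _ 1 fun p _ => h p).trans (by simpa only [nsmul_eq_mul, mul_one, Nat.cast_le_ofNat, Nat.ofNat_nonneg, forall_const] using PI_card (a := 0) (b := 6))

lemma cheb (x : ℝ) (hx : 0 ≤ x) : ∑ p ∈ PI 0 x, log p / √p ≤ 6 * √x := by
  obtain ⟨n, hn⟩ := pow_unbounded_of_one_lt x (show (1 : ℝ) < 4 by norm_num)
  induction n generalizing x with
  | zero =>
    rw [sum_eq_zero fun p u => ?_]
    · positivity
    have := mem_PI.1 u
    have : (1 : ℝ) < p := by exact_mod_cast this.2.2.one_lt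
    linarith
  | succ n ih =>
    have e : √x = 2 * √(x / 4) := by
      rw [sqrt_div' _ (by norm_num), show (4 : ℝ) = 2 ^ 2 by norm_num, sqrt_sq (by norm_num)]; ring
    rcases hx.eq_or_lt with rfl | x0
    · simp [PI]
    have s0 : 0 < √(x / 4) := by positivity
    have b : ∑ p ∈ PI (x / 4) x, log p / √p ≤ ∑ p ∈ PI (x / 4) x, log p / √(x / 4) :=
      sum_le_sum fun p u => by gcongr; exact (mem_PI.1 u).1.le
    have c : ∑ p ∈ PI (x / 4) x, log p ≤ log 4 * x :=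
      (PI_mono (c := 0) (by positivity) le_rfl fun p => log_natCast_nonneg p).trans
        (by simpa only [PI, Nat.floor_zero, Chebyshev.theta] using Chebyshev.theta_le_log4_mul_x hx)
    have l : log 4 ≤ 3 / 2 := by
      rw [show (4 : ℝ) = 2 ^ 2 by norm_num, log_pow]; push_cast; linarith only [log_two_lt_d9]
    rw [← sum_div] at b
    have d : (∑ p ∈ PI (x / 4) x, log p) / √(x / 4) ≤ 6 * √(x / 4) := by
      rw [div_le_iff₀ s0, mul_assoc, mul_self_sqrt (by positivity)]; nlinarith only [hx, c, l]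
    rw [PI_split (b := x / 4) (by positivity) (by linarith only [x0]), e]
    linarith only [ih (x / 4) (by positivity) (by rw [pow_succ] at hn; linarith only [hn]), b, d]

lemma seven {a b : ℝ} (ha : 6 ≤ a) {p : ℕ} (h : p ∈ PI a b) : 7 ≤ p := by
  have : (6 : ℕ) < p := by exact_mod_cast ha.trans_lt (mem_PI.1 h).1
  omega

lemma means : ∃ K : ℝ, 0 < K ∧ (∀ y L : ℝ, 2 ≤ y → y ≤ L →
      ∑ p ∈ PI y L, (1 : ℝ) / p ≤ log (log L) - log (log y) + K) ∧
    ∀ a₁ : ℤ, ∃ μ : ℕ → ℝ, (∀ y, ∀ p ∈ PI 6 y, (0 ≤ μ p ∧ μ p ≤ 1) ∧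
      ∀ [NeZero (p ^ 2)], ∑ t, (ind a₁ p t - μ p) = 0) ∧
      ∀ y, 6 ≤ y → |∑ p ∈ PI 6 y, μ p - log (log y)| ≤ K := by
  obtain ⟨C, C0, hC⟩ := mertens2
  refine ⟨2 * C + 12, by positivity, fun y L h h' => ?_, fun a₁ => ?_⟩
  · linarith [PI_split (a := 0) (by linarith) h' fun p => (1 : ℝ) / p, abs_le.1 (hC y h),
      abs_le.1 (hC L (h.trans h'))]
  have : ∀ p : ℕ, ∃ μ : ℝ, p.Prime → 7 ≤ p → 1 / p - 3 / p ^ 2 ≤ μ ∧ μ ≤ 1 / p ∧
      ∀ [NeZero (p ^ 2)], ∑ t, (ind a₁ p t - μ) = 0 := fun p => by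
    by_cases h : p.Prime ∧ 7 ≤ p
    · have : Fact p.Prime := ⟨h.1⟩
      obtain ⟨μ, a, b, c⟩ := mean h.2 a₁
      exact ⟨μ, fun _ _ => ⟨a, b, c⟩⟩
    · exact ⟨0, fun a b => absurd ⟨a, b⟩ h⟩
  choose μ hμ using this
  have hμ' := fun y p (u : p ∈ PI 6 y) => hμ p (mem_PI.1 u).2.2 (seven le_rfl u)
  refine ⟨μ, fun y p u => ⟨?_, (hμ' y p u).2.2⟩, fun y h => ?_⟩
  · have p7 : (7 : ℝ) ≤ p := by exact_mod_cast seven le_rfl u
    refine ⟨le_trans ?_ (hμ' y p u).1, (hμ' y p u).2.1.trans (by rw [div_le_one] <;> linarith)⟩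
    rw [sub_nonneg, div_le_div_iff₀ (by positivity) (by positivity)]
    nlinarith only [p7]
  have a1 := sum_le_sum fun p u => (hμ' y p u).1
  have a2 := sum_le_sum fun p u => (hμ' y p u).2.1
  have a3 := PI_split (a := 0) (b := 6) (by norm_num) h fun p => (1 : ℝ) / p
  have a4 := six (f := fun p => (1 : ℝ) / p) fun p => by simpa only [one_div] using Nat.cast_inv_le_one p
  have a5 : 0 ≤ ∑ p ∈ PI 0 6, (1 : ℝ) / p := sum_nonneg fun _ _ => by positivity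
  have a6 : ∑ p ∈ PI 6 y, (3 : ℝ) / p ^ 2 ≤ 3 * 2 := by
    simp only [div_eq_mul_inv, ← mul_sum]
    gcongr
    refine le_trans (sum_le_sum_of_subset_of_nonneg (fun p u => ?_) fun _ _ _ => by positivity)
      ((sum_Ioo_inv_sq_le 0 (⌊y⌋₊ + 1)).trans_eq (by simp))
    have := mem_Ioc.1 (mem_filter.1 u).1
    exact mem_Ioo.2 ⟨by omega, by omega⟩
  rw [sum_sub_distrib] at a1
  have := abs_le.1 (hC y (by linarith only [h]))
  exact abs_le.2 ⟨by linarith, by linarith⟩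

open Classical in
lemma count {a₁ a₂ a₃ a₄ : ℤ} {P} (h : Admissible (curve a₁ a₂ a₃ a₄) P) {z : ℝ} (hz : 6 ≤ z) :
    ∃ e : ℝ, 0 ≤ e ∧ e ≤ 6 ∧ (Set.ncard {p : ℕ | (p : ℝ) ≤ z ∧ Exceptional (curve a₁ a₂ a₃ a₄) P p} : ℝ) =
      e + ∑ p ∈ PI 6 z, ind a₁ p (red _ (a₂, a₃, a₄)) := by
  let f : ℕ → ℝ := fun p => if Exceptional (curve a₁ a₂ a₃ a₄) P p then 1 else 0
  refine ⟨∑ p ∈ PI 0 6, f p, sum_nonneg fun p _ => by simp only [f]; split_ifs <;> simp,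
    six fun p => by simp only [f]; split_ifs <;> simp, ?_⟩
  rw [← sum_congr rfl fun p u => show f p = ind a₁ p (red _ (a₂, a₃, a₄)) from
    have : Fact p.Prime := ⟨(mem_PI.1 u).2.2⟩
    if_congr (link (by have := seven le_rfl u; omega) h) rfl rfl,
    ← PI_split (by norm_num) hz, sum_boole, ← Set.ncard_coe_finset]
  congr 2
  ext p
  simp only [Set.mem_ofPred_eq, coe_filter, mem_PI]
  exact ⟨fun u => ⟨⟨by exact_mod_cast u.2.1.pos, u.1, u.2.1⟩, u.2⟩, fun u => ⟨u.1.2.1, u.2⟩⟩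

lemma ll_mono {x y : ℝ} (hx : 1 < x) (h : x ≤ y) : log (log x) ≤ log (log y) :=
  log_le_log (log_pos hx) (log_le_log (by linarith) h)

lemma le_of_ll {x t : ℝ} (hx : 1 < x) (h : t ≤ log (log x)) : exp (exp t) ≤ x := by
  rwa [← le_log_iff_exp_le (by linarith), ← le_log_iff_exp_le (log_pos hx)]

open Classical in
theorem almost_all {ε : ℝ} (hε : 0 < ε) : ∃ C z₀ : ℝ, 6 ≤ z₀ ∧ ∀ (a₁ x₂ x₃ x₄ : ℤ) (n₂ n₃ n₄ : ℕ)
    (L : ℝ), L ≤ n₂ → L ≤ n₃ → L ≤ n₄ →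
    (#{s ∈ Box x₂ x₃ x₄ n₂ n₃ n₄ | ∃ z e : ℝ, z₀ ≤ z ∧ z ≤ L ∧ 0 ≤ e ∧ e ≤ 6 ∧
      ε * log (log z) + C * (z / log z * √(z / L)) <
        |e + ∑ p ∈ PI 6 z, ind a₁ p (red _ s) - log (log z)|} : ℝ) ≤ ε * (n₂ * n₃ * n₄) := by
  obtain ⟨K, K0, K1, K2⟩ := means
  obtain ⟨η, rfl⟩ : ∃ η, ε = 2 * η := ⟨ε / 2, by ring⟩
  have η0 : 0 < η := by linarith
  obtain ⟨C, C0, hC⟩ : ∃ C, 0 < C ∧ η * C = 3 * (K + 8) := ⟨3 * (K + 8) / η, by positivity, by field_simp⟩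
  obtain ⟨k, hk⟩ := exists_nat_ge ((2 * K + 8) * 2 / η ^ 3 + (11 + 3 * η + K + C) / η + 2)
  have k1 : (2 * K + 8) * 2 / η ^ 3 ≤ k + 1 := by
    linarith [show 0 ≤ (11 + 3 * η + K + C) / η by positivity]
  have k2 : (11 + 3 * η + K + C) / η + 2 ≤ k := by
    linarith [show 0 ≤ (2 * K + 8) * 2 / η ^ 3 by positivity]
  have k3 : (2 : ℝ) ≤ k := by linarith only [show 0 ≤ (11 + 3 * η + K + C) / η by positivity, k2]
  refine ⟨C, exp (exp ((k + 1) ^ 2)) + 7 ^ 6, by linarith only [exp_pos (exp ((k + 1) ^ 2))],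
    fun a₁ x₂ x₃ x₄ n₂ n₃ n₄ L h₂ h₃ h₄ => ?_⟩
  have V0 : (0 : ℝ) ≤ n₂ * n₃ * n₄ := by positivity
  by_cases hL : 7 ^ 6 ≤ L
  swap
  · rw [filter_false_of_mem fun s _ ⟨z, e, a, b, _⟩ => hL (by linarith only [exp_pos (exp ((k + 1) ^ 2)), hL, a, b])]
    simp only [card_empty, Nat.cast_zero]
    positivity
  obtain ⟨Y, Y0, rfl⟩ : ∃ Y, 0 ≤ Y ∧ L = Y ^ 6 :=
    ⟨L ^ ((6 : ℕ)⁻¹ : ℝ), by positivity, (rpow_inv_natCast_pow (by positivity) (by norm_num)).symm⟩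
  have Y7 : 7 ≤ Y := le_of_pow_le_pow_left₀ (by norm_num) Y0 hL
  have L0 : 0 < Y ^ 6 := by positivity
  have YL : Y ≤ Y ^ 6 := le_self_pow₀ (by linarith only [Y7]) (by norm_num)
  have lY : log (log (Y ^ 6)) ≤ log (log Y) + 2 := by
    rw [log_pow, log_mul (by norm_num) (log_pos (by linarith only [Y7])).ne', add_comm]
    gcongr
    rw [log_le_iff_le_exp (by norm_num), show (2 : ℝ) = 1 + 1 by norm_num, exp_add]
    push_cast
    nlinarith only [exp_one_gt_d9]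
  obtain ⟨μ, μ1, μ2⟩ := K2 a₁
  obtain ⟨J, hJ⟩ := exists_nat_gt (log (log (Y ^ 6)) + 1)
  let y : ℕ → ℝ := fun j => min (exp (exp (j ^ 2))) Y
  have y6 : ∀ j : ℕ, k < j → 6 ≤ y j := fun j h => by
    have : (k : ℝ) < j := by exact_mod_cast h
    exact le_min (by nlinarith only [add_one_le_exp (exp (j ^ 2)), add_one_le_exp ((j : ℝ) ^ 2), k3, this])
      (by linarith only [Y7])
  have yu : ∀ j : ℕ, k < j → log (log (y j)) ≤ j ^ 2 := fun j h => by
    simpa only [log_exp] using ll_mono (by linarith only [y6 j h]) (min_le_left (exp (exp (j ^ 2))) Y)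
  let D : ℕ → ℤ × ℤ × ℤ → ℝ := fun j s => ∑ p ∈ PI 6 (y j), (ind a₁ p (red _ s) - μ p)
  let h : ℝ → ℝ := fun x => x / log x * √(x / Y ^ 6)
  have h0 : ∀ p : ℕ, 0 ≤ h p := fun p => by have := log_natCast_nonneg p; positivity
  have mG := markov (Box x₂ x₃ x₄ n₂ n₃ n₄) (fun s => ∑ j ∈ Ioo k J, D j s ^ 2 / j ^ 4)
    (fun s => by positivity) (t := η ^ 2) (B := η * (n₂ * n₃ * n₄)) (by positivity) (by
      rw [sum_comm]
      refine (sum_le_sum (g := fun j : ℕ => (2 * K + 8) * (n₂ * n₃ * n₄) * ((j : ℝ) ^ 2)⁻¹)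
        fun j u => ?_).trans ?_
      · have kj := (mem_Ioo.1 u).1
        have j1 : (1 : ℝ) ≤ j := by exact_mod_cast (by omega : 1 ≤ j)
        have v := variance (x₂ := x₂) (x₃ := x₃) (x₄ := x₄) (PI 6 (y j))
          (fun p u => (mem_PI.1 u).2.2) (fun p u => (mem_PI.1 u).2.1.trans (min_le_right _ _))
          ((PI_card (by linarith only [y6 j kj])).trans (min_le_right _ _)) le_rfl L0 (ind a₁) μ
          (ind_mem a₁) (fun p u => (μ1 _ p u).1) (fun p u => (μ1 _ p u).2) h₂ h₃ h₄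
        rw [← sum_div, div_le_iff₀ (by positivity)]
        refine v.trans ?_
        have : 2 * ∑ p ∈ PI 6 (y j), μ p + 6 ≤ (2 * K + 8) * j ^ 2 := by
          linarith only [(abs_le.1 (μ2 _ (y6 j kj))).2, yu j kj, one_le_pow₀ (n := 2) j1, mul_le_mul_of_nonneg_left (one_le_pow₀ (n := 2) j1) K0.le]
        calc _ ≤ (2 * K + 8) * j ^ 2 * (n₂ * n₃ * n₄ : ℝ) := by gcongr
          _ = _ := by field_simp
      · rw [← mul_sum]
        calc _ ≤ (2 * K + 8) * (n₂ * n₃ * n₄) * (2 / (k + 1) : ℝ) := by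
              gcongr; exact sum_Ioo_inv_sq_le k J
          _ = (2 * K + 8) * 2 / η ^ 3 / (k + 1) * (η * (n₂ * n₃ * n₄) * η ^ 2) := by field_simp
          _ ≤ _ := mul_le_of_le_one_left (by positivity) ((div_le_one (by positivity)).2 k1))
  have mW := markov (Box x₂ x₃ x₄ n₂ n₃ n₄)
    (fun s => ∑ p ∈ PI Y (Y ^ 6), ind a₁ p (red _ s) / (1 + h p))
    (fun s => sum_nonneg fun p _ => div_nonneg (ind_mem _ _ _).1 (by linarith only [h0 p]))
    (B := η * (n₂ * n₃ * n₄)) C0 (by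
      rw [sum_comm]
      refine (sum_le_sum (g := fun p : ℕ => 3 * (n₂ * n₃ * n₄) * (1 / p + log p / √p / √(Y ^ 6)))
        fun p u => ?_).trans ?_
      · have : Fact p.Prime := ⟨(mem_PI.1 u).2.2⟩
        have p7 := seven (by linarith only [Y7]) u
        have p1 : (1 : ℝ) < p := by exact_mod_cast (by omega : 1 < p)
        have := log_pos p1
        have := h0 p
        rw [← sum_div, div_le_iff₀ (by positivity), mul_assoc]
        refine (tail p7 a₁ x₂ x₃ x₄ L0 h₂ h₃ h₄).trans (mul_le_mul_of_nonneg_left ?_ (by positivity))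
        have e : log p / √p / √(Y ^ 6) * h p = p / Y ^ 6 := by
          simp only [h]
          rw [sqrt_div' _ L0.le]
          conv_rhs => rw [← mul_self_sqrt L0.le]
          field_simp
        have : 0 ≤ log p / √p / √(Y ^ 6) := by positivity
        have : 0 ≤ 1 / p * h p := by positivity
        linarith
      · rw [← mul_sum, sum_add_distrib, ← sum_div]
        have a := K1 Y _ (by linarith only [Y7]) YL
        have b : (∑ p ∈ PI Y (Y ^ 6), log p / √p) / √(Y ^ 6) ≤ 6 := by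
          rw [div_le_iff₀ (by positivity)]
          exact (PI_mono Y0 le_rfl fun p => by have := log_natCast_nonneg p; positivity).trans
            (cheb _ L0.le)
        calc _ ≤ 3 * (n₂ * n₃ * n₄) * (K + 8) := mul_le_mul_of_nonneg_left (by linarith only [lY, a, b]) (by positivity)
          _ = _ := by linear_combination -(n₂ * n₃ * n₄ : ℝ) * hC)
  refine le_trans ?_ ((add_le_add mG mW).trans_eq (by ring))
  rw [← Nat.cast_add, Nat.cast_le]
  refine le_trans (card_le_card fun s u => ?_) (card_union_le _ _)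
  simp only [mem_union, mem_filter] at u ⊢
  obtain ⟨u, z, e, z1, z2, e0, e6, b⟩ := u
  by_contra c
  simp only [u, true_and, not_or, not_lt] at c
  have z0 := exp_pos (exp ((k + 1) ^ 2))
  have z7 : 7 ≤ z := by linarith only [z1, z0]
  have uz : ((k : ℝ) + 1) ^ 2 ≤ log (log z) := by
    simpa using ll_mono (x := exp (exp ((k + 1) ^ 2))) (one_lt_exp_iff.2 (exp_pos _)) (y := z)
      (by linarith only [z1])
  have uL := ll_mono (by linarith only [z1, z0]) z2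
  obtain ⟨j, j1, j2⟩ : ∃ j : ℕ, (j : ℝ) ^ 2 ≤ log (log z) ∧ log (log z) < (j + 1) ^ 2 :=
    ⟨⌊√(log (log z))⌋₊, (le_sqrt (by positivity) ((sq_nonneg _).trans uz)).1 (Nat.floor_le (sqrt_nonneg _)),
      (sqrt_lt' (by positivity)).1 (Nat.lt_floor_add_one _)⟩
  have kj : (k : ℝ) < j := by
    have := lt_of_pow_lt_pow_left₀ 2 (by positivity) (uz.trans_lt j2)
    linarith only [this]
  have kj' : k < j := by exact_mod_cast kj
  have jJ : j + 1 < J := by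
    have : (j : ℝ) + 1 < J := by linarith only [le_self_pow₀ (show (1 : ℝ) ≤ j by linarith only [k3, kj]) two_ne_zero, hJ, uL, j1]
    exact_mod_cast this
  have d : ∀ i : ℕ, k < i → i < J → |∑ p ∈ PI 6 (y i), ind a₁ p (red _ s) - ∑ p ∈ PI 6 (y i), μ p| ≤
      η * i ^ 2 := fun i a a' => by
    have i0 : (0 : ℝ) < i := by exact_mod_cast (by omega : 0 < i)
    have := (single_le_sum (f := fun j : ℕ => D j s ^ 2 / j ^ 4) (fun _ _ => by positivity)
      (mem_Ioo.2 ⟨a, a'⟩)).trans c.1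
    rw [div_le_iff₀ (by positivity)] at this
    rw [← sum_sub_distrib]
    exact abs_le_of_sq_le_sq (this.trans_eq (by ring)) (by positivity)
  have i0 := fun p => (ind_mem a₁ p (red _ s)).1
  have lz := log_pos (show 1 < z by linarith only [z1, z0])
  have hz : 0 ≤ h z := by positivity
  have t1 : ∑ p ∈ PI Y z, ind a₁ p (red _ s) ≤ C * (1 + h z) := by
    refine le_trans ?_ (mul_le_mul_of_nonneg_right ((PI_mono le_rfl z2 fun p =>
      div_nonneg (i0 p) (by linarith only [h0 p])).trans c.2) (by linarith only [hz]))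
    rw [sum_mul]
    refine sum_le_sum fun p u => ?_
    have p7 : (7 : ℝ) ≤ p := by exact_mod_cast seven (by linarith only [Y7]) u
    have pz := (mem_PI.1 u).2.1
    have := h0 p
    rw [div_mul_eq_mul_div, le_div_iff₀ (by positivity)]
    refine mul_le_mul_of_nonneg_left (add_le_add le_rfl ?_) (i0 p)
    have a := log_div_self_antitoneOn (a := p) (b := z)
      (show exp 1 ≤ p by linarith only [exp_one_lt_d9, p7]) (show exp 1 ≤ z by linarith only [exp_one_lt_d9, z1, z0]) pz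
    refine mul_le_mul ?_ (by gcongr) (sqrt_nonneg _) (by positivity)
    rw [← inv_div, ← inv_div (log z)]
    exact inv_anti₀ (by positivity) a
  have t2 : ∑ p ∈ PI 6 z, ind a₁ p (red _ s) ≤ ∑ p ∈ PI 6 (y (j + 1)), ind a₁ p (red _ s) +
      ∑ p ∈ PI Y z, ind a₁ p (red _ s) := by
    have : z ≤ exp (exp (((j + 1 : ℕ) : ℝ) ^ 2)) := by
      rw [← log_le_iff_le_exp (by linarith only [z1, z0]), ← log_le_iff_le_exp lz]
      push_cast
      exact j2.le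
    rcases le_total z Y with a | a
    · exact le_add_of_le_of_nonneg (PI_mono le_rfl (le_min this a) i0) (sum_nonneg fun p _ => i0 p)
    · rw [show y (j + 1) = Y from min_eq_right (a.trans this), PI_split (by linarith only [Y7]) a]
  have t3 := PI_mono (a := 6) (b := y j) le_rfl
    ((min_le_left _ _).trans (le_of_ll (by linarith only [z1, z0]) j1)) i0
  have t4 : (j : ℝ) ^ 2 - 2 ≤ log (log (y j)) := by
    rcases min_choice (exp (exp (j ^ 2))) Y with a | a <;> simp only [y, a, log_exp] <;> linarith only [lY, uL, j1]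
  have d1 := abs_le.1 (d j kj' (by omega))
  have d2 := abs_le.1 (d (j + 1) (by omega) jJ)
  have m1 := abs_le.1 (μ2 _ (y6 j kj'))
  have m2 := abs_le.1 (μ2 _ (y6 (j + 1) (by omega)))
  have m3 := yu (j + 1) (by omega)
  have q : (11 + 3 * η + K + C) * j ≤ η * log (log z) := by
    have : 11 + 3 * η + K + C ≤ j * η := (div_le_iff₀ η0).1 (by linarith only [k2, kj])
    linarith only [mul_le_mul_of_nonneg_right this j.cast_nonneg, mul_le_mul_of_nonneg_left j1 η0.le]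
  push_cast at d2 m3
  have q1 := mul_le_mul_of_nonneg_left j1 η0.le
  have q2 := mul_le_mul_of_nonneg_left (show (1 : ℝ) ≤ j by linarith only [k3, kj]) η0.le
  have q3 := mul_le_mul_of_nonneg_left (show (1 : ℝ) ≤ j by linarith only [k3, kj]) K0.le
  have q4 := mul_le_mul_of_nonneg_left (show (1 : ℝ) ≤ j by linarith only [k3, kj]) C0.le
  have q5 := mul_nonneg C0.le hz
  exact b.not_ge (abs_le.2 ⟨by simp only [h] at q5; linarith only [η0, C0, k3, e0, j2, kj, t3, t4, d1, m1, q, q1, q2, q3, q4, q5], by simp only [h] at t1; linarith only [k3, e6, j1, kj, t1, t2, m2, q, d2, m3, q1, q2, q3, q4]⟩)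

end Pool.Agent.MP_c74c64_nt.H6

end
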