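import Mathlib

-- part MP_c74c64_nt.Basic
section

/-!
The curve in the coordinates `(x, ψ)` with `ψ = 2y + a₁x + a₃`, `ψ² = f(x)`; the addition law as a
polynomial relation, and first order deformations of points.
-/

namespace Pool.Agent.MP_c74c64_nt

open WeierstrassCurve WeierstrassCurve.Affine

section ring
variable {R S : Type*} [CommRing R] [CommRing S]

def ff (b2 b4 b6 x : R) : R := 4 * x ^ 3 + b2 * x ^ 2 + 2 * b4 * x + b6

def fd (b2 b4 x : R) : R := 12 * x ^ 2 + 2 * b2 * x + 2 * b4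

structure Add3 (b2 b4 x1 s1 x2 s2 x3 s3 m : R) : Prop where
  h1 : m * (x2 - x1) = s2 - s1
  h2 : m * (s1 + s2) = 4 * (x1 ^ 2 + x1 * x2 + x2 ^ 2) + b2 * (x1 + x2) + 2 * b4
  h3 : 4 * (x1 + x2 + x3) = m ^ 2 - b2
  h4 : s3 = -s1 - m * (x3 - x1)

lemma map_ff (φ : R →+* S) (b2 b4 b6 x : R) :
    φ (ff b2 b4 b6 x) = ff (φ b2) (φ b4) (φ b6) (φ x) := by
  simp [ff, map_ofNat]

lemma map_fd (φ : R →+* S) (b2 b4 x : R) : φ (fd b2 b4 x) = fd (φ b2) (φ b4) (φ x) := by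
  simp [fd, map_ofNat]

lemma Add3.map {b2 b4 x1 s1 x2 s2 x3 s3 m : R} (h : Add3 b2 b4 x1 s1 x2 s2 x3 s3 m)
    (φ : R →+* S) :
    Add3 (φ b2) (φ b4) (φ x1) (φ s1) (φ x2) (φ s2) (φ x3) (φ s3) (φ m) := by
  refine ⟨?_, ?_, ?_, ?_⟩
  · simpa using congrArg φ h.h1
  · simpa [map_ofNat] using congrArg φ h.h2
  · simpa [map_ofNat] using congrArg φ h.h3
  · simpa using congrArg φ h.h4

lemma Add3.of_inj {b2 b4 x1 s1 x2 s2 x3 s3 m : R} (φ : R →+* S) (hφ : Function.Injective φ)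
    (h : Add3 (φ b2) (φ b4) (φ x1) (φ s1) (φ x2) (φ s2) (φ x3) (φ s3) (φ m)) :
    Add3 b2 b4 x1 s1 x2 s2 x3 s3 m := by
  refine ⟨hφ ?_, hφ ?_, hφ ?_, hφ ?_⟩
  · simpa using h.h1
  · simpa [map_ofNat] using h.h2
  · simpa [map_ofNat] using h.h3
  · simpa using h.h4

lemma Add3.symm {b2 b4 x1 s1 x2 s2 x3 s3 m : R} (h : Add3 b2 b4 x1 s1 x2 s2 x3 s3 m) :
    Add3 b2 b4 x2 s2 x1 s1 x3 s3 m := by
  refine ⟨?_, ?_, ?_, ?_⟩
  · linear_combination -h.h1
  · linear_combination h.h2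
  · linear_combination h.h3
  · linear_combination h.h4 - h.h1

lemma Add3.d1 {b2 b4 x1 s1 x2 s2 x3 s3 m : R} (h : Add3 b2 b4 x1 s1 x2 s2 x3 s3 m) :
    fd b2 b4 x1 = 2 * m * s1 + 4 * (x1 - x2) * (x1 - x3) := by
  unfold fd
  linear_combination (-1) * h.h2 - m * h.h1 + (x1 - x2) * h.h3

lemma Add3.d2 {b2 b4 x1 s1 x2 s2 x3 s3 m : R} (h : Add3 b2 b4 x1 s1 x2 s2 x3 s3 m) :
    fd b2 b4 x2 = 2 * m * s2 + 4 * (x2 - x1) * (x2 - x3) := h.symm.d1

lemma Add3.d3 {b2 b4 x1 s1 x2 s2 x3 s3 m : R} (h : Add3 b2 b4 x1 s1 x2 s2 x3 s3 m) :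
    fd b2 b4 x3 = -2 * m * s3 + 4 * (x3 - x1) * (x3 - x2) := by
  have := h.d1
  unfold fd at *
  linear_combination this + 2 * m * h.h4 + 2 * (x3 - x1) * h.h3

/-- `(x', s')` is the first order deformation of `(x, s)` in the direction `t`. -/
structure Def (b2 b4 π x' s' x s t : R) : Prop where
  hx : x' = x + 2 * π * t * s
  hs : s' = s + π * t * fd b2 b4 x

lemma Def.refl (b2 b4 π x s : R) : Def b2 b4 π x s x s 0 := ⟨by ring, by ring⟩

lemma Def.neg {b2 b4 π x' s' x s t : R} (h : Def b2 b4 π x' s' x s t) :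
    Def b2 b4 π x' (-s') x (-s) (-t) :=
  ⟨by linear_combination h.hx, by linear_combination -h.hs⟩

lemma Def.trans {b2 b4 π x'' s'' x' s' x s t t' : R} (hπ : π ^ 2 = 0)
    (h : Def b2 b4 π x'' s'' x' s' t) (h' : Def b2 b4 π x' s' x s t') :
    Def b2 b4 π x'' s'' x s (t + t') := by
  obtain ⟨rfl, rfl⟩ := h'
  obtain ⟨rfl, rfl⟩ := h
  refine ⟨?_, ?_⟩
  · linear_combination (2 * t * t' * fd b2 b4 x) * hπ
  · unfold fd
    linear_combination (t * t' * s * (48 * x + 48 * π * t' * s + 4 * b2)) * hπ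

lemma Def.unique {b2 b4 π x' s' x s t t' : R} (h2 : IsUnit (2 : R)) (hs : IsUnit s)
    (h : Def b2 b4 π x' s' x s t) (h' : Def b2 b4 π x' s' x s t') : π * t = π * t' := by
  apply (h2.mul hs).mul_left_cancel
  linear_combination h'.hx - h.hx

lemma Def.congr {b2 b4 π x' s' x s t t' : R} (h : Def b2 b4 π x' s' x s t) (ht : π * t = π * t') :
    Def b2 b4 π x' s' x s t' :=
  ⟨by linear_combination h.hx + 2 * s * ht, by linear_combination h.hs + fd b2 b4 x * ht⟩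

lemma Def.exists {b2 b4 b6 π x' s' x s u v : R} (hπ : π ^ 2 = 0) (h2 : IsUnit (2 : R))
    (hs : IsUnit s) (hx : x' = x + π * u) (hv : s' = s + π * v) (e : s ^ 2 = ff b2 b4 b6 x)
    (e' : s' ^ 2 = ff b2 b4 b6 x') : ∃ t, Def b2 b4 π x' s' x s t := by
  obtain ⟨w, hw⟩ := (h2.mul hs).exists_right_inv
  refine ⟨u * w, ?_, ?_⟩
  · linear_combination hx - π * u * hw
  · subst hx hv
    unfold ff at *
    unfold fd
    linear_combination w * (e' - e) - π * v * hw +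
      w * (u ^ 2 * (12 * x + 4 * π * u + b2) - v ^ 2) * hπ

lemma Def.add {b2 b4 π x1 s1 x2 s2 x3 s3 m x1' s1' x2' s2' x3' s3' m' t1 t2 : R} (hπ : π ^ 2 = 0)
    (h2 : IsUnit (2 : R)) (h : Add3 b2 b4 x1 s1 x2 s2 x3 s3 m)
    (h' : Add3 b2 b4 x1' s1' x2' s2' x3' s3' m') (d1 : Def b2 b4 π x1' s1' x1 s1 t1)
    (d2 : Def b2 b4 π x2' s2' x2 s2 t2) (hu : IsUnit (x2 - x1) ∨ IsUnit (s1 + s2)) :
    Def b2 b4 π x3' s3' x3 s3 (t1 + t2) := by
  have e1 := h.d1
  have e2 := h.d2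
  have e3 := h.d3
  obtain ⟨rfl, rfl⟩ := d1
  obtain ⟨rfl, rfl⟩ := d2
  have hm : m' = m + π * (4 * t2 * (x2 - x3) + 4 * t1 * (x1 - x3)) := by
    set δ := 4 * t2 * (x2 - x3) + 4 * t1 * (x1 - x3) with hδ
    rcases hu with hu | hu
    · have a : (m' - (m + π * δ)) * ((x2 - x1) + π * (2 * t2 * s2 - 2 * t1 * s1)) = 0 := by
        rw [hδ]
        linear_combination h'.h1 - h.h1 + π * t2 * e2 - π * t1 * e1 -
          (4 * t2 * (x2 - x3) + 4 * t1 * (x1 - x3)) * (2 * t2 * s2 - 2 * t1 * s1) * hπ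
      apply (hu.mul hu).mul_left_cancel
      linear_combination ((x2 - x1) - π * (2 * t2 * s2 - 2 * t1 * s1)) * a +
        (m' - (m + π * δ)) * (2 * t2 * s2 - 2 * t1 * s1) ^ 2 * hπ
    · have a : (m' - (m + π * δ)) * ((s1 + s2) + π * (t1 * fd b2 b4 x1 + t2 * fd b2 b4 x2))
          = 0 := by
        rw [hδ]
        have k1 := h.h1
        have k3 := h.h3
        linear_combination h'.h2 - h.h2 - π * m * t2 * e2 - π * m * t1 * e1 +
          2 * π * (t1 * s1 + t2 * s2) * k3 + 4 * π * (t1 * (x1 - x3) - t2 * (x2 - x3)) * k1 +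
          (16 * t1 ^ 2 * s1 ^ 2 + 16 * t1 * t2 * s1 * s2 + 16 * t2 ^ 2 * s2 ^ 2 -
            (4 * t2 * (x2 - x3) + 4 * t1 * (x1 - x3)) *
              (t1 * fd b2 b4 x1 + t2 * fd b2 b4 x2)) * hπ
      apply (hu.mul hu).mul_left_cancel
      linear_combination ((s1 + s2) - π * (t1 * fd b2 b4 x1 + t2 * fd b2 b4 x2)) * a +
        (m' - (m + π * δ)) * (t1 * fd b2 b4 x1 + t2 * fd b2 b4 x2) ^ 2 * hπ
  have hx : x3' = x3 + 2 * π * (t1 + t2) * s3 := by
    apply (h2.mul h2).mul_left_cancel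
    have k := h'.h3
    rw [hm] at k
    linear_combination k - h.h3 - 8 * π * (t1 + t2) * h.h4 + 8 * π * t2 * h.h1 +
      (4 * t2 * (x2 - x3) + 4 * t1 * (x1 - x3)) ^ 2 * hπ
  refine ⟨hx, ?_⟩
  have k := h'.h4
  rw [hm, hx] at k
  linear_combination k - h.h4 - π * t1 * e1 - π * (t1 + t2) * e3 -
    (4 * t2 * (x2 - x3) + 4 * t1 * (x1 - x3)) * (2 * (t1 + t2) * s3 - 2 * t1 * s1) * hπ

end ring

section field
variable {K : Type*} [Field K] [DecidableEq K] {W : WeierstrassCurve K}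

/-- The point `A` is affine with abscissa `x` and `2y + a₁x + a₃ = s`. -/
def Pt (W : WeierstrassCurve K) (A : W.toAffine.Point) (x s : K) : Prop :=
  ∃ (y : K) (h : W.toAffine.Nonsingular x y), A = .some x y h ∧ s = 2 * y + W.a₁ * x + W.a₃

omit [DecidableEq K] in
lemma Pt.eqn {A : W.toAffine.Point} {x s : K} (h : Pt W A x s) :
    s ^ 2 = ff W.b₂ W.b₄ W.b₆ x := by
  obtain ⟨y, hy, -, rfl⟩ := h
  have := (equation_iff _ _).1 hy.1
  simp only [ff, b₂, b₄, b₆]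
  linear_combination 4 * this

omit [DecidableEq K] in
lemma Pt.ne_zero {A : W.toAffine.Point} {x s : K} (h : Pt W A x s) : A ≠ 0 := by
  obtain ⟨y, hy, rfl, -⟩ := h
  exact Point.some_ne_zero hy

omit [DecidableEq K] in
lemma Pt.of_ne_zero {A : W.toAffine.Point} (h : A ≠ 0) : ∃ x s, Pt W A x s := by
  rcases A with _ | ⟨x, y, hy⟩
  · exact absurd rfl h
  · exact ⟨x, _, y, hy, rfl, rfl⟩

omit [DecidableEq K] in
lemma Pt.neg {A : W.toAffine.Point} {x s : K} (h : Pt W A x s) : Pt W (-A) x (-s) := by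
  obtain ⟨y, hy, rfl, rfl⟩ := h
  exact ⟨_, _, Point.neg_some hy, by simp only [negY]; ring⟩

omit [DecidableEq K] in
lemma Pt.inj {A : W.toAffine.Point} {x s x' s' : K} (h : Pt W A x s) (h' : Pt W A x' s') :
    x = x' ∧ s = s' := by
  obtain ⟨y, hy, rfl, rfl⟩ := h
  obtain ⟨y', hy', e, rfl⟩ := h'
  obtain ⟨rfl, rfl⟩ := Point.some.inj e
  exact ⟨rfl, rfl⟩

omit [DecidableEq K] in
lemma Pt.ext (h2 : (2 : K) ≠ 0) {A B : W.toAffine.Point} {x s : K} (h : Pt W A x s)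
    (h' : Pt W B x s) : A = B := by
  obtain ⟨y, hy, rfl, rfl⟩ := h
  obtain ⟨y', hy', rfl, e⟩ := h'
  have : y = y' := mul_left_cancel₀ h2 (by linear_combination e)
  subst this
  rfl

omit [DecidableEq K] in
lemma Pt.mk (h2 : (2 : K) ≠ 0) (hΔ : W.Δ ≠ 0) {x s : K} (h : s ^ 2 = ff W.b₂ W.b₄ W.b₆ x) :
    ∃ A, Pt W A x s := by
  refine ⟨.some x ((s - W.a₁ * x - W.a₃) / 2) ?_, _, _, rfl, by field_simp; ring⟩
  rw [← equation_iff_nonsingular_of_Δ_ne_zero hΔ, equation_iff]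
  simp only [ff, b₂, b₄, b₆] at h
  field_simp
  linear_combination h

lemma Pt.add_eq_zero (h2 : (2 : K) ≠ 0) {A B : W.toAffine.Point} {x s s' : K} (h : Pt W A x s)
    (h' : Pt W B x s') (hs : s + s' = 0) : A + B = 0 := by
  have : s' = -s := by linear_combination hs
  subst this
  rw [Pt.ext h2 h' h.neg, add_neg_cancel]

lemma Pt.add (h2 : (2 : K) ≠ 0) {A B : W.toAffine.Point} {x1 s1 x2 s2 : K} (h : Pt W A x1 s1)
    (h' : Pt W B x2 s2) (hne : ¬ (x1 = x2 ∧ s1 + s2 = 0)) :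
    ∃ x3 s3 m, Add3 W.b₂ W.b₄ x1 s1 x2 s2 x3 s3 m ∧ Pt W (A + B) x3 s3 := by
  have q1 := h.eqn
  have q2 := h'.eqn
  obtain ⟨y1, hy1, rfl, rfl⟩ := h
  obtain ⟨y2, hy2, rfl, rfl⟩ := h'
  have hxy : ¬ (x1 = x2 ∧ y1 = W.toAffine.negY x2 y2) := by
    rintro ⟨rfl, e⟩
    exact hne ⟨rfl, by rw [e]; simp only [negY]; ring⟩
  refine ⟨_, _, 2 * W.toAffine.slope x1 x2 y1 y2 + W.a₁, ?_, _, _, Point.add_some hxy, rfl⟩
  have k1 : (2 * W.toAffine.slope x1 x2 y1 y2 + W.a₁) * (x2 - x1) =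
      2 * y2 + W.a₁ * x2 + W.a₃ - (2 * y1 + W.a₁ * x1 + W.a₃) := by
    by_cases hx : x1 = x2
    · have hy : y1 ≠ W.toAffine.negY x2 y2 := fun e => hxy ⟨hx, e⟩
      obtain rfl := Y_eq_of_Y_ne hy1.1 hy2.1 hx hy
      subst hx
      ring
    · rw [slope_of_X_ne hx]
      have := sub_ne_zero.2 hx
      field_simp
      ring
  refine ⟨k1, ?_, ?_, ?_⟩
  · by_cases hx : x1 = x2
    · have hy : y1 ≠ W.toAffine.negY x2 y2 := fun e => hxy ⟨hx, e⟩
      obtain rfl := Y_eq_of_Y_ne hy1.1 hy2.1 hx hy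
      subst hx
      rw [slope_of_Y_ne rfl hy]
      have e : y1 - W.toAffine.negY x1 y1 = 2 * y1 + W.a₁ * x1 + W.a₃ := by
        simp only [negY]; ring
      have := sub_ne_zero.2 hy
      rw [e] at this ⊢
      simp only [b₂, b₄]
      have k := div_mul_cancel₀ (3 * x1 ^ 2 + 2 * W.a₂ * x1 + W.a₄ - W.a₁ * y1) this
      linear_combination 4 * k
    · apply mul_left_cancel₀ (sub_ne_zero.2 (Ne.symm hx))
      unfold ff at q1 q2
      linear_combination (2 * y1 + W.a₁ * x1 + W.a₃ + (2 * y2 + W.a₁ * x2 + W.a₃)) * k1 + q2 - q1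
  · simp only [addX, b₂]; ring
  · simp only [addY, negY, negAddY]; ring

omit [DecidableEq K] in
lemma Add3.unique (h2 : (2 : K) ≠ 0) {b2 b4 x1 s1 x2 s2 x3 s3 m x3' s3' m' : K}
    (h : Add3 b2 b4 x1 s1 x2 s2 x3 s3 m) (h' : Add3 b2 b4 x1 s1 x2 s2 x3' s3' m')
    (hne : ¬ (x1 = x2 ∧ s1 + s2 = 0)) : m = m' ∧ x3 = x3' ∧ s3 = s3' := by
  have hm : m = m' := by
    by_cases hx : x1 = x2
    · exact mul_right_cancel₀ (fun e => hne ⟨hx, e⟩) (h.h2.trans h'.h2.symm)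
    · exact mul_right_cancel₀ (sub_ne_zero.2 (Ne.symm hx)) (h.h1.trans h'.h1.symm)
  subst hm
  have hx : x3 = x3' := mul_left_cancel₀ (mul_ne_zero h2 h2) (by linear_combination h.h3 - h'.h3)
  subst hx
  exact ⟨rfl, rfl, h.h4.trans h'.h4.symm⟩

lemma Pt.ne_of_add_ne (h2 : (2 : K) ≠ 0) {A B : W.toAffine.Point} {x1 s1 x2 s2 : K}
    (h : Pt W A x1 s1) (h' : Pt W B x2 s2) (hne : A + B ≠ 0) : ¬ (x1 = x2 ∧ s1 + s2 = 0) := by
  rintro ⟨rfl, e⟩
  exact hne (Pt.add_eq_zero h2 h h' e)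

lemma Pt.add' (h2 : (2 : K) ≠ 0) {A B : W.toAffine.Point} {x1 s1 x2 s2 x3 s3 m : K}
    (h : Pt W A x1 s1) (h' : Pt W B x2 s2) (hne : A + B ≠ 0)
    (ha : Add3 W.b₂ W.b₄ x1 s1 x2 s2 x3 s3 m) : Pt W (A + B) x3 s3 := by
  have hn := Pt.ne_of_add_ne h2 h h' hne
  obtain ⟨x, s, m', a, hp⟩ := Pt.add h2 h h' hn
  obtain ⟨-, rfl, rfl⟩ := Add3.unique h2 a ha hn
  exact hp

end field

end Pool.Agent.MP_c74c64_nt

end

-- part MP_c74c64_nt.Den
section

/-!
Numerators and denominators of `x(A + P)`, `x(A - P)` and `x(2P)` for a rational point `P` with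
everywhere nonsingular reduction.
-/

namespace Pool.Agent.MP_c74c64_nt

open WeierstrassCurve WeierstrassCurve.Affine

section ring
variable {R : Type*} [CommRing R]

def U1 (a D a' D' : R) : R := (a * D' - a' * D) ^ 2
def U2 (b2 b4 b6 a D a' D' : R) : R :=
  2 * a * a' * (a * D' + a' * D) + b2 * a * a' * D * D' + b4 * (a * D' + a' * D) * D * D' +
    b6 * D ^ 2 * D' ^ 2
def U3 (b4 b6 b8 a D a' D' : R) : R :=
  a ^ 2 * a' ^ 2 - b4 * a * a' * D * D' - b6 * (a * D' + a' * D) * D * D' - b8 * D ^ 2 * D' ^ 2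
def fh (b2 b4 b6 a D : R) : R := 4 * a ^ 3 * D + b2 * a ^ 2 * D ^ 2 + 2 * b4 * a * D ^ 3 + b6 * D ^ 4
def ph (b4 b6 b8 a D : R) : R := a ^ 4 - b4 * a ^ 2 * D ^ 2 - 2 * b6 * a * D ^ 3 - b8 * D ^ 4

end ring

lemma triple_field {K : Type*} [Field K] [CharZero K] {b2 b4 b6 b8 x1 s1 x2 s2 x3 s3 m x4 s4 m' : K}
    (hb : 4 * b8 = b2 * b6 - b4 ^ 2) (h : Add3 b2 b4 x1 s1 x2 s2 x3 s3 m)
    (h' : Add3 b2 b4 x1 s1 x2 (-s2) x4 s4 m') (q1 : s1 ^ 2 = ff b2 b4 b6 x1)
    (q2 : s2 ^ 2 = ff b2 b4 b6 x2) :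
    U1 x1 1 x2 1 * (x3 + x4) = U2 b2 b4 b6 x1 1 x2 1 ∧
      U1 x1 1 x2 1 * (x3 * x4) = U3 b4 b6 b8 x1 1 x2 1 := by
  have k : (x2 - x1) ^ 2 * (m ^ 2 + m' ^ 2) = 2 * ff b2 b4 b6 x1 + 2 * ff b2 b4 b6 x2 := by
    linear_combination (m * (x2 - x1) + (s2 - s1)) * h.h1 + (m' * (x2 - x1) + (-s2 - s1)) * h'.h1 +
      2 * q1 + 2 * q2
  have k2 : m * m' * (x2 - x1) =
      -(4 * (x1 ^ 2 + x1 * x2 + x2 ^ 2) + b2 * (x1 + x2) + 2 * b4) := by
    linear_combination m * h'.h1 - h.h2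
  have e3 : x3 = (m ^ 2 - b2) / 4 - x1 - x2 := by linear_combination h.h3 / 4
  have e4 : x4 = (m' ^ 2 - b2) / 4 - x1 - x2 := by linear_combination h'.h3 / 4
  unfold ff at k
  unfold U1 U2 U3
  rw [e3, e4]
  constructor
  · linear_combination k / 4
  · linear_combination (m * m' * (x2 - x1) -
      (4 * (x1 ^ 2 + x1 * x2 + x2 ^ 2) + b2 * (x1 + x2) + 2 * b4)) / 16 * k2 -
      (b2 + 4 * (x1 + x2)) / 16 * k + hb / 4

lemma dup_field {K : Type*} [Field K] [CharZero K] {b2 b4 b6 b8 x s x3 s3 m : K}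
    (hb : 4 * b8 = b2 * b6 - b4 ^ 2) (h : Add3 b2 b4 x s x s x3 s3 m)
    (q : s ^ 2 = ff b2 b4 b6 x) : fh b2 b4 b6 x 1 * x3 = ph b4 b6 b8 x 1 := by
  have e3 : x3 = (m ^ 2 - b2) / 4 - x - x := by linear_combination h.h3 / 4
  have k := h.h2
  unfold ff at q
  unfold fh ph
  rw [e3]
  linear_combination (m * (s + s) + (4 * (x ^ 2 + x * x + x ^ 2) + b2 * (x + x) + 2 * b4)) / 16 * k
    - m ^ 2 / 4 * q + hb / 4

lemma dvd_of_prim {u1 u2 u3 v1 v2 v3 : ℤ}
    (hv : ∀ l : ℕ, l.Prime → ¬ ((l : ℤ) ∣ v1 ∧ (l : ℤ) ∣ v2 ∧ (l : ℤ) ∣ v3))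
    (h2 : u1 * v2 = u2 * v1) (h3 : u1 * v3 = u3 * v1) : v1 ∣ u1 := by
  have g : Int.gcd (Int.gcd v1 v2 : ℤ) v3 = 1 := by
    by_contra g
    obtain ⟨l, hl, hd⟩ := Nat.exists_prime_and_dvd g
    have hd' : (l : ℤ) ∣ (Int.gcd (Int.gcd v1 v2 : ℤ) v3 : ℤ) := Int.natCast_dvd_natCast.2 hd
    exact hv l hl ⟨(hd'.trans (Int.gcd_dvd_left _ _)).trans (Int.gcd_dvd_left _ _),
      (hd'.trans (Int.gcd_dvd_left _ _)).trans (Int.gcd_dvd_right _ _),
      hd'.trans (Int.gcd_dvd_right _ _)⟩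
  have a := Int.gcd_eq_gcd_ab (Int.gcd v1 v2 : ℤ) v3
  have b := Int.gcd_eq_gcd_ab v1 v2
  rw [g] at a
  push_cast at a
  generalize Int.gcdA (Int.gcd v1 v2 : ℤ) v3 = r at a
  generalize Int.gcdB (Int.gcd v1 v2 : ℤ) v3 = t at a
  rw [b] at a
  exact ⟨u1 * Int.gcdA v1 v2 * r + u2 * Int.gcdB v1 v2 * r + u3 * t, by
    linear_combination u1 * a + Int.gcdB v1 v2 * r * h2 + t * h3⟩

lemma eq_of_prim {u1 u2 u3 v1 v2 v3 : ℤ}
    (hu : ∀ l : ℕ, l.Prime → ¬ ((l : ℤ) ∣ u1 ∧ (l : ℤ) ∣ u2 ∧ (l : ℤ) ∣ u3))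
    (hv : ∀ l : ℕ, l.Prime → ¬ ((l : ℤ) ∣ v1 ∧ (l : ℤ) ∣ v2 ∧ (l : ℤ) ∣ v3))
    (pu : 0 < u1) (pv : 0 < v1) (h2 : u1 * v2 = u2 * v1) (h3 : u1 * v3 = u3 * v1) :
    v1 = u1 ∧ v2 = u2 ∧ v3 = u3 := by
  have e : v1 = u1 := Int.dvd_antisymm pv.le pu.le (dvd_of_prim hv h2 h3)
    (dvd_of_prim (u2 := v2) (u3 := v3) hu (by linear_combination -h2) (by linear_combination -h3))
  subst e
  exact ⟨rfl, mul_left_cancel₀ pu.ne' (by linear_combination h2),
    mul_left_cancel₀ pu.ne' (by linear_combination h3)⟩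

lemma not_dvd_both (x : ℚ) {l : ℕ} (hl : l.Prime) (h1 : (l : ℤ) ∣ x.num) (h2 : (l : ℤ) ∣ (x.den : ℤ)) :
    False := by
  have := Nat.dvd_gcd (Int.natCast_dvd.1 h1) (Int.natCast_dvd_natCast.1 h2)
  rw [x.reduced] at this
  exact hl.one_lt.ne' (Nat.dvd_one.1 this)

/-- Arithmetic form of everywhere nonsingular reduction. -/
def Good (W : WeierstrassCurve ℤ) (x : ℚ) : Prop :=
  ∀ l : ℕ, l.Prime → ¬ (l : ℤ) ∣ (x.den : ℤ) →
    ¬ ((l : ℤ) ∣ fh W.b₂ W.b₄ W.b₆ x.num x.den ∧ (l : ℤ) ∣ ph W.b₄ W.b₆ W.b₈ x.num x.den)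

abbrev WQ (W : WeierstrassCurve ℤ) : WeierstrassCurve ℚ := W.map (Int.castRingHom ℚ)

lemma num_eq (x : ℚ) : (x.num : ℚ) = x * x.den := by rw [Rat.mul_den_eq_num]

lemma triple_int {W : WeierstrassCurve ℤ} {A B : (WQ W).toAffine.Point}
    {x1 s1 x2 s2 x3 s3 x4 s4 : ℚ} (h1 : Pt (WQ W) A x1 s1) (h2 : Pt (WQ W) B x2 s2)
    (h3 : Pt (WQ W) (A + B) x3 s3) (h4 : Pt (WQ W) (A - B) x4 s4) (hx : x1 ≠ x2)
    (hg : Good W x2) :
    (x3.den : ℤ) * x4.den = U1 x1.num x1.den x2.num x2.den ∧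
      x3.num * x4.den + x4.num * x3.den = U2 W.b₂ W.b₄ W.b₆ x1.num x1.den x2.num x2.den ∧
      x3.num * x4.num = U3 W.b₄ W.b₆ W.b₈ x1.num x1.den x2.num x2.den := by
  obtain ⟨y3, t3, m, a, p3⟩ := Pt.add two_ne_zero h1 h2 (fun h => hx h.1)
  obtain ⟨y4, t4, m', a', p4⟩ := Pt.add two_ne_zero h1 h2.neg (fun h => hx h.1)
  rw [← sub_eq_add_neg] at p4
  obtain ⟨rfl, -⟩ := p3.inj h3
  obtain ⟨rfl, -⟩ := p4.inj h4
  obtain ⟨e2, e3⟩ := triple_field (WQ W).b_relation a a' h1.eqn h2.eqn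
  simp only [map_b₂, map_b₄, map_b₆, map_b₈, eq_intCast] at e2 e3
  apply eq_of_prim
  · rintro l hl ⟨d1, d2, d3⟩
    have : Fact l.Prime := ⟨hl⟩
    have n1 := not_dvd_both x1 hl
    have n2 := not_dvd_both x2 hl
    have g := hg l hl
    simp only [← ZMod.intCast_zmod_eq_zero_iff_dvd] at d1 d2 d3 n1 n2 g
    simp only [U1, U2, U3, fh, ph] at d1 d2 d3 g
    push_cast at d1 d2 d3 n1 n2 g
    generalize (x1.num : ZMod l) = a1 at *
    generalize (x2.num : ZMod l) = a2 at *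
    generalize (x1.den : ZMod l) = D1 at *
    generalize (x2.den : ZMod l) = D2 at *
    have d1' : a1 * D2 = a2 * D1 := sub_eq_zero.1 (pow_eq_zero_iff two_ne_zero |>.1 d1)
    by_cases z : D2 = 0
    · subst z
      have a2n : a2 ≠ 0 := fun e => n2 e rfl
      have : D1 = 0 := by simpa [a2n] using d1'.symm
      subst this
      have a1n : a1 ≠ 0 := fun e => n1 e rfl
      simp [a1n, a2n] at d3
    · have D1n : D1 ≠ 0 := by
        rintro rfl
        exact n1 (by simpa [z] using d1') rfl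
      have e : a1 = a2 * D1 / D2 := by field_simp; exact d1'
      subst e
      apply g z
      constructor
      · apply mul_left_cancel₀ (pow_ne_zero 2 D1n)
        field_simp at d2
        linear_combination D2 * d2
      · apply mul_left_cancel₀ (pow_ne_zero 2 D1n)
        field_simp at d3
        linear_combination d3
  · rintro l hl ⟨d1, d2, d3⟩
    have hl' : Prime (l : ℤ) := Nat.prime_iff_prime_int.1 hl
    have n3 := not_dvd_both y3 hl
    have n4 := not_dvd_both y4 hl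
    rcases hl'.dvd_or_dvd d1 with d | d
    · have a4 := (hl'.dvd_or_dvd d3).resolve_left fun e => n3 e d
      have := (dvd_add_left (dvd_mul_of_dvd_left a4 _)).1 d2
      rcases hl'.dvd_or_dvd this with e | e
      · exact n3 e d
      · exact n4 a4 e
    · have a3 := (hl'.dvd_or_dvd d3).resolve_right fun e => n4 e d
      have := (dvd_add_right (dvd_mul_of_dvd_left a3 _)).1 d2
      rcases hl'.dvd_or_dvd this with e | e
      · exact n4 e d
      · exact n3 a3 e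
  · unfold U1
    apply sq_pos_of_ne_zero
    intro e
    apply hx
    rw [Rat.eq_iff_mul_eq_mul]
    linear_combination e
  · positivity
  · apply Int.cast_injective (α := ℚ)
    simp only [U1, U2] at e2 ⊢
    push_cast
    simp only [num_eq]
    linear_combination ((x1.den : ℚ) ^ 2 * (x2.den : ℚ) ^ 2 * y3.den * y4.den) * e2
  · apply Int.cast_injective (α := ℚ)
    simp only [U1, U3] at e3 ⊢
    push_cast
    simp only [num_eq]
    linear_combination ((x1.den : ℚ) ^ 2 * (x2.den : ℚ) ^ 2 * y3.den * y4.den) * e3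

lemma dup_int {W : WeierstrassCurve ℤ} {A : (WQ W).toAffine.Point} {x s x3 s3 : ℚ}
    (h : Pt (WQ W) A x s) (h3 : Pt (WQ W) (A + A) x3 s3) (hg : Good W x) :
    (x3.den : ℤ) = fh W.b₂ W.b₄ W.b₆ x.num x.den ∧ x3.num = ph W.b₄ W.b₆ W.b₈ x.num x.den := by
  have hn := Pt.ne_of_add_ne two_ne_zero h h h3.ne_zero
  obtain ⟨y3, t3, m, a, p3⟩ := Pt.add two_ne_zero h h hn
  obtain ⟨rfl, -⟩ := p3.inj h3
  have e := dup_field (WQ W).b_relation a h.eqn
  have q := h.eqn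
  simp only [map_b₂, map_b₄, map_b₆, map_b₈, eq_intCast] at e q
  have s0 : s ≠ 0 := by rintro rfl; simp at hn
  have := eq_of_prim (u1 := fh W.b₂ W.b₄ W.b₆ x.num x.den) (u2 := ph W.b₄ W.b₆ W.b₈ x.num x.den)
    (u3 := 0) (v1 := y3.den) (v2 := y3.num) (v3 := 0) ?_ ?_ ?_ ?_ ?_ (by simp)
  · exact ⟨this.1, this.2.1⟩
  · rintro l hl ⟨d1, d2, -⟩
    by_cases z : (l : ℤ) ∣ x.den
    · have hl' : Prime (l : ℤ) := Nat.prime_iff_prime_int.1 hl
      obtain ⟨k, hk⟩ := z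
      refine not_dvd_both x hl (hl'.dvd_of_dvd_pow (n := 4) ?_) ⟨k, hk⟩
      have : x.num ^ 4 = ph W.b₄ W.b₆ W.b₈ x.num x.den + l * (k * (W.b₄ * x.num ^ 2 * x.den +
          2 * W.b₆ * x.num * x.den ^ 2 + W.b₈ * x.den ^ 3)) := by
        unfold ph
        linear_combination (W.b₄ * x.num ^ 2 * x.den +
          2 * W.b₆ * x.num * x.den ^ 2 + W.b₈ * x.den ^ 3) * hk
      rw [this]
      exact dvd_add d2 (dvd_mul_right _ _)
    · exact hg l hl z ⟨d1, d2⟩
  · rintro l hl ⟨d1, d2, -⟩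
    exact not_dvd_both y3 hl d2 d1
  · have : ((fh W.b₂ W.b₄ W.b₆ x.num x.den : ℤ) : ℚ) = s ^ 2 * (x.den : ℚ) ^ 4 := by
      rw [q]
      simp only [fh, ff]
      push_cast
      simp only [num_eq]
      ring
    have p : (0 : ℚ) < s ^ 2 * (x.den : ℚ) ^ 4 := by positivity
    rw [← this] at p
    exact_mod_cast p
  · positivity
  · apply Int.cast_injective (α := ℚ)
    simp only [fh, ph] at e ⊢
    push_cast
    simp only [num_eq]
    linear_combination ((x.den : ℚ) ^ 4 * y3.den) * e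

end Pool.Agent.MP_c74c64_nt

end

-- part MP_c74c64_nt.Mil
section

/-!
The affine coordinate ring `F[X][ω]/(ω² - f)` with its invariant derivation, in characteristic `p`.
-/

namespace Pool.Agent.MP_c74c64_nt

open Polynomial
open QuadraticAlgebra hiding C_mul C_neg C_add C_pow C_sub

variable {F : Type*} [Field F]

abbrev CR (f : F[X]) := QuadraticAlgebra F[X] f 0

noncomputable def io (f : F[X]) : F[X] →+* CR f := algebraMap F[X] (CR f)

noncomputable def DD {f : F[X]} (h : CR f) : CR f :=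
  ⟨2 * f * derivative h.im + derivative f * h.im, 2 * derivative h.re⟩

noncomputable def ev (f : F[X]) (x s : F) (hs : s ^ 2 = f.eval x) : CR f →+* F where
  toFun h := h.re.eval x + h.im.eval x * s
  map_one' := by simp
  map_zero' := by simp
  map_add' a b := by simp; ring
  map_mul' a b := by
    simp
    linear_combination (-(a.im.eval x * b.im.eval x)) * hs

variable {f : F[X]}

@[simp] lemma io_re (r : F[X]) : (io f r).re = r := rfl
@[simp] lemma io_im (r : F[X]) : (io f r).im = 0 := rfl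

lemma ev_apply (x s : F) (hs : s ^ 2 = f.eval x) (h : CR f) :
    ev f x s hs h = h.re.eval x + h.im.eval x * s := rfl

lemma ev_io (x s : F) (hs : s ^ 2 = f.eval x) (r : F[X]) : ev f x s hs (io f r) = r.eval x := by
  simp [ev_apply]

lemma ev_omega (x s : F) (hs : s ^ 2 = f.eval x) : ev f x s hs ω = s := by
  simp [ev_apply]

lemma neg_sq_eq {x s : F} (hs : s ^ 2 = f.eval x) : (-s) ^ 2 = f.eval x := by rw [neg_sq, hs]

lemma ev_star (x s : F) (hs : s ^ 2 = f.eval x) (h : CR f) :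
    ev f x s hs (star h) = ev f x (-s) (neg_sq_eq hs) h := by
  simp [ev_apply]

lemma star_io (r : F[X]) : star (io f r) = io f r := by ext <;> simp

lemma star_omega : star (ω : CR f) = -ω := by ext <;> simp

lemma omega_sq : (ω : CR f) ^ 2 = io f f := by
  rw [sq, omega_mul_omega_eq_mk]; rfl

lemma mul_star_eq (h : CR f) : h * star h = io f (norm h) :=
  (algebraMap_norm_eq_mul_star h).symm

lemma norm_io (r : F[X]) : norm (io f r) = r ^ 2 := norm_algebraMap r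

lemma ev_mul_ev (x s : F) (hs : s ^ 2 = f.eval x) (h : CR f) :
    ev f x s hs h * ev f x (-s) (neg_sq_eq hs) h = (norm h).eval x := by
  rw [← ev_star x s hs, ← map_mul, mul_star_eq, ev_io]

lemma io_cancel {r : F[X]} (hr : r ≠ 0) {a b : CR f} (h : io f r * a = io f r * b) : a = b := by
  ext : 1
  · have := congrArg QuadraticAlgebra.re h
    simpa [hr] using this
  · have := congrArg QuadraticAlgebra.im h
    simpa [hr] using this

lemma io_inj {a b : F[X]} (h : io f a = io f b) : a = b := congrArg QuadraticAlgebra.re h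

lemma DD_mul (a b : CR f) : DD (a * b) = a * DD b + b * DD a := by
  ext : 1 <;> simp [DD] <;> ring

lemma DD_add (a b : CR f) : DD (a + b) = DD a + DD b := by
  ext : 1 <;> simp [DD] <;> ring

lemma DD_sub (a b : CR f) : DD (a - b) = DD a - DD b := by
  ext : 1 <;> simp [DD] <;> ring

lemma DD_io (r : F[X]) : DD (io f r) = 2 * io f (derivative r) * ω := by
  ext : 1 <;> simp [DD]

lemma DD_omega : DD (ω : CR f) = io f (derivative f) := by
  ext : 1 <;> simp [DD]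

lemma DD_star (a : CR f) : DD (star a) = -star (DD a) := by
  ext : 1 <;> simp [DD]
  ring

lemma DD_one : DD (1 : CR f) = 0 := by
  ext : 1 <;> simp [DD]

lemma DD_pow_succ (a : CR f) (n : ℕ) : DD (a ^ (n + 1)) = (n + 1 : CR f) * a ^ n * DD a := by
  induction n with
  | zero => simp
  | succ n ih => rw [pow_succ, DD_mul, ih]; push_cast; ring

lemma natCast_p (p : ℕ) [CharP F p] : (p : CR f) = 0 := by
  rw [← map_natCast (io f), ← C_eq_natCast, CharP.cast_eq_zero, map_zero, map_zero]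

lemma DD_pow_p (p : ℕ) [CharP F p] (hp : p ≠ 0) (a : CR f) : DD (a ^ p) = 0 := by
  obtain ⟨n, rfl⟩ := Nat.exists_eq_succ_of_ne_zero hp
  have := natCast_p (f := f) (n + 1)
  push_cast at this
  rw [DD_pow_succ, this]; simp

lemma dvd_of_ev (h2 : (2 : F) ≠ 0) {x s : F} (hs : s ^ 2 = f.eval x) (hs0 : s ≠ 0) {G : CR f}
    (e1 : ev f x s hs G = 0) (e2 : ev f x (-s) (neg_sq_eq hs) G = 0) :
    ∃ G', G = io f (X - C x) * G' := by
  rw [ev_apply] at e1 e2
  have a : G.re.eval x = 0 := mul_left_cancel₀ h2 (by linear_combination e1 + e2)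
  have b : G.im.eval x = 0 := mul_left_cancel₀ (mul_ne_zero h2 hs0) (by linear_combination e1 - e2)
  obtain ⟨u, hu⟩ := dvd_iff_isRoot.2 a
  obtain ⟨v, hv⟩ := dvd_iff_isRoot.2 b
  exact ⟨⟨u, v⟩, by ext : 1 <;> simp [hu, hv]⟩

/-- An eigenfunction of the derivation vanishing at `±T` is divisible by `(X - x_T)^p`. -/
lemma step (p : ℕ) [Fact p.Prime] [CharP F p] (h2 : (2 : F) ≠ 0) {x s : F} (hs : s ^ 2 = f.eval x)
    (hs0 : s ≠ 0) {G e : CR f} (hD : DD G = e * G)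
    (e1 : ev f x s hs G = 0) (e2 : ev f x (-s) (neg_sq_eq hs) G = 0) :
    ∃ G', G = io f ((X - C x) ^ p) * G' ∧ DD G' = e * G' := by
  have hp : p.Prime := Fact.out
  have hw : (X - C x : F[X]) ≠ 0 := X_sub_C_ne_zero x
  have key : ∀ j, j + 1 ≤ p → ∃ G', G = io f (X - C x) ^ (j + 1) * G' := by
    intro j
    induction j with
    | zero => intro _; simpa using dvd_of_ev h2 hs hs0 e1 e2
    | succ j ih =>
      intro hj
      obtain ⟨G', rfl⟩ := ih (by omega)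
      rw [DD_mul, DD_pow_succ, DD_io] at hD
      have k : (j + 1 : CR f) * 2 * ω * G' = io f (X - C x) * (e * G' - DD G') := by
        apply io_cancel (pow_ne_zero j hw)
        rw [map_pow]
        simp only [derivative_sub, derivative_X, derivative_C, sub_zero, map_one] at hD
        linear_combination hD
      have hj0 : (j + 1 : F) ≠ 0 := by
        have : ¬ (p ∣ j + 1) := Nat.not_dvd_of_pos_of_lt (by omega) (by omega)
        rw [← CharP.cast_eq_zero_iff F p] at this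
        simpa using this
      have z : ∀ (t : F) (ht : t ^ 2 = f.eval x), t ≠ 0 → ev f x t ht G' = 0 := by
        intro t ht t0
        have := congrArg (ev f x t ht) k
        simp only [map_mul, map_add, map_natCast, map_one, map_ofNat, ev_omega, ev_io, eval_sub,
          eval_X, eval_C, sub_self, zero_mul] at this
        simpa [hj0, h2, t0] using this
      obtain ⟨G'', rfl⟩ := dvd_of_ev h2 hs hs0 (z s hs hs0) (z (-s) _ (neg_ne_zero.2 hs0))
      exact ⟨G'', by ring⟩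
  obtain ⟨G', hG⟩ := key (p - 1) (by have := hp.pos; omega)
  rw [show p - 1 + 1 = p by have := hp.pos; omega] at hG
  refine ⟨G', by rw [hG, map_pow], ?_⟩
  rw [hG, DD_mul, DD_pow_p p hp.ne_zero] at hD
  apply io_cancel (pow_ne_zero p hw)
  rw [map_pow]
  linear_combination hD

lemma norm_eq (h : CR f) : norm h = h.re ^ 2 - f * h.im ^ 2 := by
  rw [norm_def]; ring

lemma deg_norm (hf : f.natDegree = 3) (h : CR f) :
    2 * h.re.natDegree ≤ (norm h).natDegree ∧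
      (h.im ≠ 0 → 3 + 2 * h.im.natDegree ≤ (norm h).natDegree) := by
  rw [norm_eq]
  by_cases hb : h.im = 0
  · simp [hb, natDegree_pow]
  have hf0 : f ≠ 0 := by rintro rfl; simp at hf
  have d1 : (h.re ^ 2).natDegree = 2 * h.re.natDegree := natDegree_pow _ _
  have d2 : (f * h.im ^ 2).natDegree = 3 + 2 * h.im.natDegree := by
    rw [natDegree_mul hf0 (pow_ne_zero 2 hb), natDegree_pow, hf]
  rcases lt_or_gt_of_ne (show (h.re ^ 2).natDegree ≠ (f * h.im ^ 2).natDegree by omega) with l | l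
  · rw [natDegree_sub_eq_right_of_natDegree_lt l]; omega
  · rw [natDegree_sub_eq_left_of_natDegree_lt l]; omega

/-- A function with divisor `p(T) - p(O)` whose logarithmic derivative is the constant `e`. -/
def Mil (p : ℕ) (f : F[X]) (x s e : F) : Prop :=
  ∃ (hs : s ^ 2 = f.eval x) (h : CR f) (c : F), c ≠ 0 ∧ DD h = io f (C e) * h ∧
    norm h = C c * (X - C x) ^ p ∧ ev f x s hs h = 0

lemma const_of_norm (hf : f.natDegree = 3) {G : CR f} {c e : F} (hc : c ≠ 0) (hN : norm G = C c)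
    (hD : DD G = io f (C e) * G) : e = 0 := by
  obtain ⟨a, b⟩ := deg_norm hf G
  rw [hN, natDegree_C] at a b
  have hb : G.im = 0 := by by_contra hb; have := b hb; omega
  have ha : G.re ≠ 0 := by
    intro ha
    rw [norm_eq, ha, hb] at hN
    exact hc (C_eq_zero.1 (by simpa using hN.symm))
  have := congrArg QuadraticAlgebra.re hD
  simp [DD, hb, ha] at this
  exact this

lemma Mil.unique (p : ℕ) [Fact p.Prime] [CharP F p] (h2 : (2 : F) ≠ 0) (hf : f.natDegree = 3)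
    {x s e e' : F} (hs0 : s ≠ 0) (m : Mil p f x s e) (m' : Mil p f x s e') : e = e' := by
  obtain ⟨hs, h, c, hc, hD, hN, hz⟩ := m
  obtain ⟨hs', h', c', hc', hD', hN', hz'⟩ := m'
  have hw : ((X - C x) ^ p : F[X]) ≠ 0 := pow_ne_zero _ (X_sub_C_ne_zero x)
  have k : DD (h * star h') = io f (C (e - e')) * (h * star h') := by
    rw [DD_mul, DD_star, hD, hD', star_mul', star_io, map_sub, map_sub]; ring
  obtain ⟨G, hG, hDG⟩ := step p h2 hs hs0 k (by rw [map_mul, hz, zero_mul])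
    (by rw [map_mul, ev_star]; simp only [neg_neg]; rw [hz', mul_zero])
  have hN2 : norm G = C (c * c') := by
    have := congrArg QuadraticAlgebra.norm hG
    rw [map_mul, map_mul, QuadraticAlgebra.norm_star, hN, hN', norm_io] at this
    apply mul_left_cancel₀ (pow_ne_zero 2 hw)
    rw [C_mul]
    linear_combination -this
  exact sub_eq_zero.1 (const_of_norm hf (mul_ne_zero hc hc') hN2 hDG)

section cubic
variable {b2 b4 b6 : F}

noncomputable def fP (b2 b4 b6 : F) : F[X] := ff (C b2) (C b4) (C b6) X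

lemma fP_eval (x : F) : (fP b2 b4 b6).eval x = ff b2 b4 b6 x := by
  simp [fP, ff]

lemma fP_deriv : derivative (fP b2 b4 b6) = fd (C b2) (C b4) X := by
  simp [fP, ff, fd, map_ofNat]; ring

lemma fP_deg (h2 : (2 : F) ≠ 0) : (fP b2 b4 b6).natDegree = 3 := by
  have h4 : (4 : F) ≠ 0 := by rw [show (4 : F) = 2 * 2 by norm_num]; exact mul_ne_zero h2 h2
  unfold fP ff
  compute_degree!

lemma Add3.poly {x1 s1 x2 s2 x3 s3 m : F} (h : Add3 b2 b4 x1 s1 x2 s2 x3 s3 m)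
    (hs : s1 ^ 2 = ff b2 b4 b6 x1) :
    fP b2 b4 b6 = (C m * (X - C x1) + C s1) ^ 2 + 4 * ((X - C x1) * (X - C x2) * (X - C x3)) := by
  have a := h.map C
  have a1 := a.d1
  have a3 := a.h3
  have b := congrArg C hs
  rw [map_pow, map_ff] at b
  unfold fP
  unfold ff fd at *
  linear_combination -b + (X - C x1) * a1 + (X - C x1) ^ 2 * a3

/-- The line through two points. -/
noncomputable def ell (f : F[X]) (x s m : F) : CR f := ω - io f (C m * (X - C x) + C s)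

lemma ev_ell {f : F[X]} (x s m x' s' : F) (hs : s' ^ 2 = f.eval x') :
    ev f x' s' hs (ell f x s m) = s' - (m * (x' - x) + s) := by
  simp [ell, ev_omega, ev_io]

lemma norm_ell {x1 s1 x2 s2 x3 s3 m : F} (h : Add3 b2 b4 x1 s1 x2 s2 x3 s3 m)
    (hs : s1 ^ 2 = ff b2 b4 b6 x1) :
    norm (ell (fP b2 b4 b6) x1 s1 m) = -4 * ((X - C x1) * (X - C x2) * (X - C x3)) := by
  rw [norm_eq]
  have := h.poly hs
  simp only [ell, re_sub, im_sub, omega_re, omega_im, io_re, io_im]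
  linear_combination -this

lemma Add3.eqn3 {x1 s1 x2 s2 x3 s3 m : F}
    (h : Add3 b2 b4 x1 s1 x2 s2 x3 s3 m) (hs : s1 ^ 2 = ff b2 b4 b6 x1) :
    s3 ^ 2 = (fP b2 b4 b6).eval x3 := by
  rw [h.poly hs, h.h4]
  simp
  ring

lemma Mil.add (p : ℕ) [Fact p.Prime] [CharP F p] (h2 : (2 : F) ≠ 0) {x1 s1 x2 s2 x3 s3 m e1 e2 : F}
    (h : Add3 b2 b4 x1 s1 x2 s2 x3 s3 m) (n1 : s1 ≠ 0) (n2 : s2 ≠ 0) (n3 : s3 ≠ 0)
    {f : F[X]} (hf : f = fP b2 b4 b6) (m1 : Mil p f x1 s1 e1) (m2 : Mil p f x2 s2 e2) :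
    Mil p f x3 s3 (e1 + e2) := by
  have hp : p.Prime := Fact.out
  obtain ⟨q1, g1, c1, hc1, hD1, hN1, hz1⟩ := m1
  obtain ⟨q2, g2, c2, hc2, hD2, hN2, hz2⟩ := m2
  have q1' : s1 ^ 2 = ff b2 b4 b6 x1 := by rw [q1, hf, fP_eval]
  have q3 : s3 ^ 2 = f.eval x3 := hf ▸ h.eqn3 q1'
  obtain ⟨l, hl⟩ : ∃ l, l = ell f x1 s1 m := ⟨_, rfl⟩
  have hNl : norm l = -4 * ((X - C x1) * (X - C x2) * (X - C x3)) := by
    subst hf; rw [hl]; exact norm_ell h q1'
  have h4 : (-4 : F) ≠ 0 := by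
    rw [show (-4 : F) = -(2 * 2) by norm_num]; exact neg_ne_zero.2 (mul_ne_zero h2 h2)
  have w1 : ((X - C x1) ^ p : F[X]) ≠ 0 := pow_ne_zero _ (X_sub_C_ne_zero x1)
  have w2 : ((X - C x2) ^ p : F[X]) ≠ 0 := pow_ne_zero _ (X_sub_C_ne_zero x2)
  obtain ⟨G1, hG1, hDG1⟩ := step p h2 q1 n1 (G := g1 * star l ^ p) (e := io f (C e1))
    (by rw [DD_mul, DD_pow_p p hp.ne_zero, hD1]; ring) (by rw [map_mul, hz1, zero_mul])
    (by rw [map_mul, map_pow, ev_star, hl, ev_ell]; simp [hp.ne_zero])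
  have N1 : norm G1 = C (c1 * (-4) ^ p) * (X - C x2) ^ p * (X - C x3) ^ p := by
    have := congrArg QuadraticAlgebra.norm hG1
    rw [map_mul, map_mul, map_pow, QuadraticAlgebra.norm_star, hN1, hNl, norm_io] at this
    apply mul_left_cancel₀ (pow_ne_zero 2 w1)
    rw [← this, C_mul, C_pow, C_neg, show C (4 : F) = 4 from rfl]
    simp only [mul_pow]
    ring
  have S1 : G1 * star g1 = io f (C c1) * star l ^ p := by
    apply io_cancel w1
    have := mul_star_eq g1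
    rw [hN1, map_mul] at this
    linear_combination (-star g1) * hG1 + star l ^ p * this
  have Z1 : ev f x2 (-s2) (neg_sq_eq q2) G1 = 0 := by
    have a := ev_mul_ev x2 s2 q2 G1
    rw [N1] at a
    have b := congrArg (ev f x2 s2 q2) S1
    rw [map_mul, map_mul, map_pow, ev_io, ev_star x2 s2 q2 l, hl, ev_ell, eval_C] at b
    have c : -s2 - (m * (x2 - x1) + s1) ≠ 0 := by
      rw [show -s2 - (m * (x2 - x1) + s1) = -(2 * s2) by linear_combination -h.h1]
      exact neg_ne_zero.2 (mul_ne_zero h2 n2)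
    have d : ev f x2 s2 q2 G1 ≠ 0 := by
      intro d
      rw [d, zero_mul] at b
      exact mul_ne_zero hc1 (pow_ne_zero p c) b.symm
    simpa [d, hp.ne_zero] using a
  obtain ⟨G2, hG2, hDG2⟩ := step p h2 q2 n2 (G := g2 * G1) (e := io f (C (e1 + e2)))
    (by rw [DD_mul, hDG1, hD2, map_add, map_add]; ring) (by rw [map_mul, hz2, zero_mul])
    (by rw [map_mul, Z1, mul_zero])
  have N2 : norm G2 = C (c2 * (c1 * (-4) ^ p)) * (X - C x3) ^ p := by
    have := congrArg QuadraticAlgebra.norm hG2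
    rw [map_mul, map_mul, hN2, N1, norm_io] at this
    apply mul_left_cancel₀ (pow_ne_zero 2 w2)
    rw [← this, C_mul (a := c2)]
    ring
  have S2 : G2 * star g2 = io f (C c2) * G1 := by
    apply io_cancel w2
    have := mul_star_eq g2
    rw [hN2, map_mul] at this
    linear_combination (-star g2) * hG2 + G1 * this
  refine ⟨q3, G2, _, mul_ne_zero hc2 (mul_ne_zero hc1 (pow_ne_zero p h4)), hDG2, N2, ?_⟩
  have a := ev_mul_ev x3 s3 q3 G2
  rw [N2] at a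
  have S3 : G2 * star g2 * star g1 = io f (C c2) * io f (C c1) * star l ^ p := by
    rw [S2, mul_assoc, S1, mul_assoc]
  have b := congrArg (ev f x3 (-s3) (neg_sq_eq q3)) S3
  rw [map_mul, map_mul, map_mul, map_mul, map_pow, ev_io, ev_io, ev_star x3 (-s3) _ l, hl, ev_ell,
    eval_C, eval_C] at b
  have c : - -s3 - (m * (x3 - x1) + s1) ≠ 0 := by
    rw [show - -s3 - (m * (x3 - x1) + s1) = 2 * s3 by linear_combination -h.h4]
    exact mul_ne_zero h2 n3
  have d : ev f x3 (-s3) (neg_sq_eq q3) G2 ≠ 0 := by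
    intro d
    rw [d, zero_mul, zero_mul] at b
    exact mul_ne_zero (mul_ne_zero hc2 hc1) (pow_ne_zero p c) b.symm
  simpa [d, hp.ne_zero] using a

lemma DD_ell {x1 s1 x2 s2 x3 s3 m : F} (h : Add3 b2 b4 x1 s1 x2 s2 x3 s3 m)
    (hs : s1 ^ 2 = ff b2 b4 b6 x1) {f : F[X]} (hf : f = fP b2 b4 b6) :
    io f (X - C x1) * io f (X - C x2) * io f (X - C x3) * DD (ell f x1 s1 m) =
      ell f x1 s1 m * ((ω + io f (C s1)) * io f (X - C x2) * io f (X - C x3) +
        (ω + io f (C s2)) * io f (X - C x1) * io f (X - C x3) +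
        (ω - io f (C s3)) * io f (X - C x1) * io f (X - C x2) +
        io f (C m) * (io f (X - C x1) * io f (X - C x2) * io f (X - C x3))) := by
  have e := h.poly hs
  rw [← hf] at e
  have e' := congrArg derivative e
  have a := h.map ((io f).comp C)
  have a1 := a.h1
  have a4 := a.h4
  have o := omega_sq (f := f)
  have e1 := congrArg (io f) e
  have e2 := congrArg (io f) e'
  rw [ell, DD_sub, DD_omega, DD_io, e2]
  rw [e1] at o
  simp only [RingHom.comp_apply] at a1 a4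
  simp only [derivative_add, derivative_mul, derivative_sub, derivative_X, derivative_C,
    derivative_sq, derivative_ofNat, map_add, map_mul, map_sub, map_pow, map_ofNat, map_zero,
    map_one] at o ⊢
  rw [a4, show io f (C s2) = io f (C s1) + io f (C m) * (io f (C x2) - io f (C x1)) by
    linear_combination -a1]
  linear_combination (-((io f X - io f (C x2)) * (io f X - io f (C x3)) +
    (io f X - io f (C x1)) * (io f X - io f (C x3)) +
    (io f X - io f (C x1)) * (io f X - io f (C x2)))) * o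

lemma miller (h2 : (2 : F) ≠ 0) {f : F[X]} (hf : f = fP b2 b4 b6) (x s m : ℕ → F) (n : ℕ)
    (hq : ∀ j, 1 ≤ j → j ≤ n + 1 → s j ^ 2 = f.eval (x j))
    (h0 : ∀ j, 1 ≤ j → j ≤ n + 1 → s j ≠ 0)
    (ha : ∀ j, 1 ≤ j → j ≤ n → Add3 b2 b4 (x 1) (s 1) (x j) (s j) (x (j + 1)) (s (j + 1)) (m j)) :
    ∃ (g : CR f) (c : F), c ≠ 0 ∧ norm g = C c * (X - C (x 1)) ^ (n + 1) * (X - C (x (n + 1))) ∧
      ev f (x (n + 1)) (-s (n + 1)) (neg_sq_eq (hq _ (by omega) le_rfl)) g = 0 ∧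
      io f (X - C (x 1)) * io f (X - C (x (n + 1))) * DD g =
        g * ((n + 1 : CR f) * (ω + io f (C (s 1))) * io f (X - C (x (n + 1))) +
          (ω - io f (C (s (n + 1)))) * io f (X - C (x 1)) +
          io f (C (∑ j ∈ Finset.range n, m (j + 1))) *
            (io f (X - C (x 1)) * io f (X - C (x (n + 1))))) := by
  induction n with
  | zero =>
    refine ⟨io f (X - C (x 1)), 1, one_ne_zero, ?_, ?_, ?_⟩
    · rw [norm_io]; simp [sq]
    · rw [ev_io]; simp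
    · rw [DD_io]; simp; ring
  | succ n ih =>
    obtain ⟨g, c, hc, hN, hz, hD⟩ := ih (fun j a b => hq j a (by omega))
      (fun j a b => h0 j a (by omega)) (fun j a b => ha j a (by omega))
    have a := ha (n + 1) (by omega) le_rfl
    have q1 : s 1 ^ 2 = ff b2 b4 b6 (x 1) := by rw [hq 1 le_rfl (by omega), hf, fP_eval]
    have qn := hq (n + 1) (by omega) (by omega)
    have qm := hq (n + 1 + 1) (by omega) (by omega)
    have hDl := DD_ell a q1 hf
    obtain ⟨l, hl⟩ : ∃ l, l = ell f (x 1) (s 1) (m (n + 1)) := ⟨_, rfl⟩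
    have hNl : norm l = -4 * ((X - C (x 1)) * (X - C (x (n + 1))) * (X - C (x (n + 1 + 1)))) := by
      subst hf; rw [hl]; exact norm_ell a q1
    have h4 : (-4 : F) ≠ 0 := by
      rw [show (-4 : F) = -(2 * 2) by norm_num]; exact neg_ne_zero.2 (mul_ne_zero h2 h2)
    have w : (X - C (x (n + 1)) : F[X]) ≠ 0 := X_sub_C_ne_zero _
    obtain ⟨g', hg'⟩ := dvd_of_ev h2 qn (h0 _ (by omega) (by omega)) (G := g * l)
      (by rw [map_mul, hl, ev_ell, a.h1]; simp) (by rw [map_mul, hz, zero_mul])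
    rw [← hl] at hDl
    refine ⟨g', c * (-4), mul_ne_zero hc h4, ?_, ?_, ?_⟩
    · have := congrArg QuadraticAlgebra.norm hg'
      rw [map_mul, map_mul, hN, hNl, norm_io] at this
      apply mul_left_cancel₀ (pow_ne_zero 2 w)
      rw [← this, C_mul, C_neg, show C (4 : F) = 4 from rfl]
      ring
    · have S : g' * star l = g * io f (-4 * ((X - C (x 1)) * (X - C (x (n + 1 + 1))))) := by
        apply io_cancel w
        have := mul_star_eq l
        rw [hNl] at this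
        simp only [map_mul] at this ⊢
        linear_combination (-star l) * hg' + g * this
      have b := congrArg (ev f _ _ (neg_sq_eq qm)) S
      rw [map_mul, map_mul, ev_io, ev_star, hl, ev_ell] at b
      have c : - -s (n + 1 + 1) - (m (n + 1) * (x (n + 1 + 1) - x 1) + s 1) ≠ 0 := by
        rw [show - -s (n + 1 + 1) - (m (n + 1) * (x (n + 1 + 1) - x 1) + s 1) = 2 * s (n + 1 + 1) by
          linear_combination -a.h4]
        exact mul_ne_zero h2 (h0 _ (by omega) le_rfl)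
      rw [neg_neg] at c
      simpa [c] using b
    · have d := congrArg DD hg'
      rw [DD_mul, DD_mul, DD_io] at d
      simp only [derivative_sub, derivative_X, derivative_C, sub_zero, map_one] at d
      apply io_cancel (pow_ne_zero 2 w)
      rw [map_pow, Finset.sum_range_succ, map_add C, map_add (io f)]
      push_cast
      generalize io f (X - C (x 1)) = w1 at *
      generalize io f (X - C (x (n + 1))) = w2 at *
      generalize io f (X - C (x (n + 1 + 1))) = w3 at *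
      generalize io f (C (∑ j ∈ Finset.range n, m (j + 1))) = e at *
      linear_combination (-(w2 * w1 * w3)) * d + g * hDl + w3 * l * hD +
        (2 * ω * w1 * w3 + w2 * (((n : CR f) + 1 + 1) * (ω + io f (C (s 1))) * w3 +
          (ω - io f (C (s (n + 1 + 1)))) * w1 + (e + io f (C (m (n + 1)))) * (w1 * w3))) * hg'

lemma Mil.of_chain (p : ℕ) [CharP F p] (h2 : (2 : F) ≠ 0) {f : F[X]} (hf : f = fP b2 b4 b6)
    (x s m : ℕ → F) (n : ℕ) (hn : n + 2 = p)
    (hq : ∀ j, 1 ≤ j → j ≤ n + 1 → s j ^ 2 = f.eval (x j))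
    (h0 : ∀ j, 1 ≤ j → j ≤ n + 1 → s j ≠ 0)
    (ha : ∀ j, 1 ≤ j → j ≤ n → Add3 b2 b4 (x 1) (s 1) (x j) (s j) (x (j + 1)) (s (j + 1)) (m j))
    (hx : x (n + 1) = x 1) (hs : s (n + 1) = -s 1) :
    Mil p f (x 1) (s 1) (∑ j ∈ Finset.range n, m (j + 1)) := by
  obtain ⟨g, c, hc, hN, hz, hD⟩ := miller h2 hf x s m n hq h0 ha
  refine ⟨hq 1 le_rfl (by omega), g, c, hc, ?_, ?_, ?_⟩
  · apply io_cancel (pow_ne_zero 2 (X_sub_C_ne_zero (x 1)))
    have k := natCast_p (f := f) p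
    rw [← hn] at k
    push_cast at k
    rw [hx, hs, C_neg, map_neg] at hD
    rw [map_pow]
    linear_combination hD + g * (ω + io f (C (s 1))) * io f (X - C (x 1)) * k
  · rw [hN, hx, ← hn]; ring
  · rw [ev_apply] at hz ⊢
    rw [hx, hs, neg_neg] at hz
    exact hz

lemma Mil.ne_zero (p : ℕ) [Fact p.Prime] [CharP F p] (h2 : (2 : F) ≠ 0) (hF : ∀ a : F, a ^ p = a)
    (hd : ∀ r, ff b2 b4 b6 r = 0 → fd b2 b4 r ≠ 0) {x s e : F}
    (h : Mil p (fP b2 b4 b6) x s e) : e ≠ 0 := by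
  have hp : p.Prime := Fact.out
  rintro rfl
  obtain ⟨-, g, c, hc, hD, hN, -⟩ := h
  have hf := fP_deg (b2 := b2) (b4 := b4) (b6 := b6) h2
  obtain ⟨a, -⟩ := deg_norm hf g
  rw [hN, natDegree_C_mul hc, natDegree_pow, natDegree_X_sub_C] at a
  have d : derivative g.re = 0 := by
    have := congrArg QuadraticAlgebra.im hD
    have h2' : (2 : F[X]) ≠ 0 := by
      rw [show (2 : F[X]) = C 2 from rfl]; exact C_ne_zero.2 h2
    simpa [DD, h2'] using this
  have d0 : g.re.natDegree = 0 := by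
    by_contra hne
    have k := coeff_derivative g.re (g.re.natDegree - 1)
    have e : g.re.natDegree - 1 + 1 = g.re.natDegree := by omega
    rw [d, coeff_zero, e] at k
    have k1 : g.re.coeff g.re.natDegree ≠ 0 := by
      rw [coeff_natDegree, leadingCoeff_ne_zero]; rintro h0; simp [h0] at hne
    have k2 : ((g.re.natDegree - 1 : ℕ) : F) + 1 ≠ 0 := by
      have : ¬ (p ∣ g.re.natDegree - 1 + 1) := Nat.not_dvd_of_pos_of_lt (by omega) (by omega)
      rw [← CharP.cast_eq_zero_iff F p] at this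
      simpa using this
    exact mul_ne_zero k1 k2 k.symm
  obtain ⟨a0, ha0⟩ := natDegree_eq_zero.1 d0
  rw [norm_eq, ← ha0] at hN
  have key : fP b2 b4 b6 * g.im ^ 2 = C (-c) * (X - C (x + a0 ^ 2 / c)) ^ p := by
    have k : (X - C (x + a0 ^ 2 / c)) ^ p = (X - C x) ^ p - C (a0 ^ 2 / c) := by
      rw [C_add, ← sub_sub, sub_pow_char (X - C x), ← C_pow, hF]
    have k2 : C c * C (a0 ^ 2 / c) = C a0 ^ 2 := by
      rw [← C_mul, ← C_pow]; congr 1; field_simp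
    rw [k, C_neg]
    linear_combination -hN - k2
  have dv : fP b2 b4 b6 ∣ (X - C (x + a0 ^ 2 / c)) ^ p := by
    rw [← (isUnit_C.2 (IsUnit.mk0 (-c) (neg_ne_zero.2 hc))).dvd_mul_left, ← key]
    exact dvd_mul_right _ _
  obtain ⟨i, -, hi⟩ := (dvd_prime_pow (prime_X_sub_C _) p).1 dv
  have i3 : i = 3 := by
    have := natDegree_eq_of_degree_eq (degree_eq_degree_of_associated hi)
    rw [hf, natDegree_pow, natDegree_X_sub_C] at this
    omega
  subst i3
  obtain ⟨u, hu⟩ := hi.symm.dvd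
  apply hd (x + a0 ^ 2 / c)
  · rw [← fP_eval, hu]; simp
  · have := congrArg (fun q => (derivative q).eval (x + a0 ^ 2 / c)) hu
    simp only [fP_deriv] at this
    rw [show eval (x + a0 ^ 2 / c) (fd (C b2) (C b4) X) = fd b2 b4 (x + a0 ^ 2 / c) by
      simp [fd]] at this
    rw [this]
    simp [derivative_mul, derivative_pow]

lemma Mil.rot (p : ℕ) {f : F[X]} {x s e u v x' : F} (hu : u ≠ 0)
    (hf : f.comp (C u * X + C v) = f) (hx : u * x' + v = x) (h : Mil p f x s e) :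
    Mil p f x' s (u * e) := by
  obtain ⟨hs, g, c, hc, hD, hN, hz⟩ := h
  have ev' : ∀ q : F[X], (q.comp (C u * X + C v)).eval x' = q.eval x := by
    intro q; rw [eval_comp]; simp [hx]
  have dc : ∀ q : F[X], derivative (q.comp (C u * X + C v)) =
      C u * (derivative q).comp (C u * X + C v) := by
    intro q; rw [derivative_comp]; simp
  refine ⟨by rw [hs, ← ev' f, hf], ⟨g.re.comp (C u * X + C v), g.im.comp (C u * X + C v)⟩,
    c * u ^ p, mul_ne_zero hc (pow_ne_zero p hu), ?_, ?_, ?_⟩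
  · have a := congrArg (fun q => q.re.comp (C u * X + C v)) hD
    have b := congrArg (fun q => q.im.comp (C u * X + C v)) hD
    have f' := dc f
    rw [hf] at f'
    simp only [DD, re_mul, im_mul, io_re, io_im, add_comp, mul_comp, C_comp, hf, zero_mul,
      mul_zero, add_zero, zero_comp, ofNat_comp, Nat.cast_ofNat] at a b
    ext : 1
    · simp only [DD, re_mul, io_re, io_im, dc, C_mul, mul_zero, zero_mul, add_zero]
      linear_combination C u * a + g.im.comp (C u * X + C v) * f'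
    · simp only [DD, im_mul, io_re, io_im, dc, C_mul, mul_zero, zero_mul, add_zero]
      linear_combination C u * b
  · have a := congrArg (fun q => q.comp (C u * X + C v)) hN
    simp only [norm_eq, sub_comp, mul_comp, pow_comp, hf, C_comp, X_comp] at a
    rw [norm_eq]
    simp only
    rw [a, ← hx, C_mul, C_add, C_mul, C_pow, mul_assoc, ← mul_pow]
    ring
  · rw [ev_apply] at hz ⊢
    simp only [ev']
    exact hz

end cubic

end Pool.Agent.MP_c74c64_nt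

end

-- part MP_c74c64_nt.Loc
section

/-!
Rational points with `p`-integral coordinates, their reductions, and chains of multiples.
-/

namespace Pool.Agent.MP_c74c64_nt

open WeierstrassCurve WeierstrassCurve.Affine PadicInt

variable {p : ℕ} [Fact p.Prime]

abbrev Wp (W : WeierstrassCurve ℤ) (p : ℕ) : WeierstrassCurve (ZMod p) :=
  W.map (Int.castRingHom (ZMod p))

noncomputable abbrev mk2 : ℤ_[p] →+* ZMod (p ^ 2) := toZModPow 2

lemma rho_eq_zero {u : ℤ_[p]} : toZMod u = 0 ↔ (p : ℤ_[p]) ∣ u := by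
  rw [← RingHom.mem_ker, ker_toZMod, maximalIdeal_eq_span_p, Ideal.mem_span_singleton]

lemma mk2_eq_zero {u : ℤ_[p]} : mk2 u = 0 ↔ (p : ℤ_[p]) ^ 2 ∣ u := by
  rw [← RingHom.mem_ker, ker_toZModPow, Ideal.mem_span_singleton]

lemma isUnit_of_rho {u : ℤ_[p]} (h : toZMod u ≠ 0) : IsUnit u := by
  by_contra hu
  apply h
  rw [← RingHom.mem_ker, ker_toZMod]
  exact hu

omit [Fact p.Prime] in
lemma pi_sq : (p : ZMod (p ^ 2)) ^ 2 = 0 := by
  rw [← Nat.cast_pow, ZMod.natCast_self]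

lemma pi_mul_eq_zero {u : ℤ_[p]} : (p : ZMod (p ^ 2)) * mk2 u = 0 ↔ toZMod u = 0 := by
  rw [rho_eq_zero, ← map_natCast (mk2 (p := p)), ← map_mul, mk2_eq_zero, sq]
  exact mul_dvd_mul_iff_left (by exact_mod_cast (Fact.out : p.Prime).ne_zero)

lemma mk2_of_rho {u v : ℤ_[p]} (h : toZMod u = toZMod v) :
    ∃ z, mk2 u = mk2 v + (p : ZMod (p ^ 2)) * z := by
  obtain ⟨z, hz⟩ := rho_eq_zero.1 (show toZMod (u - v) = 0 by rw [map_sub, h, sub_self])
  refine ⟨mk2 z, ?_⟩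
  have := congrArg mk2 hz
  rw [map_sub, map_mul, map_natCast] at this
  linear_combination this

noncomputable abbrev iq : ℤ_[p] →+* ℚ_[p] := PadicInt.Coe.ringHom

lemma coe_inj' {u v : ℤ_[p]} (h : iq u = iq v) : u = v := Subtype.ext h

lemma exists_lift {a b : ℤ_[p]} (hb : IsUnit b) {q : ℚ_[p]} (h : q * iq b = iq a) :
    ∃ m : ℤ_[p], iq m = q := by
  obtain ⟨c, hc⟩ := hb.exists_right_inv
  refine ⟨a * c, ?_⟩
  have := congrArg iq hc
  rw [map_mul, map_one] at this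
  rw [map_mul]
  linear_combination q * this - iq c * h

lemma two_ne (hp : p ≠ 2) : (2 : ZMod p) ≠ 0 := by
  intro h
  have : ((2 : ℕ) : ZMod p) = 0 := by exact_mod_cast h
  rw [ZMod.natCast_eq_zero_iff] at this
  exact hp ((Nat.prime_dvd_prime_iff_eq Fact.out Nat.prime_two).1 this)

lemma two_unit (hp : p ≠ 2) : IsUnit (2 : ℤ_[p]) :=
  isUnit_of_rho (by rw [map_ofNat]; exact two_ne hp)

lemma two_unit' (hp : p ≠ 2) : IsUnit (2 : ZMod (p ^ 2)) := by
  have := (two_unit hp).map (mk2 (p := p))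
  rwa [map_ofNat] at this

variable {W : WeierstrassCurve ℤ}

/-- `A` has `p`-integral coordinates `(x, s)` and reduces to `B`. -/
def IPt (W : WeierstrassCurve ℤ) (A : (WQ W).toAffine.Point) (B : (Wp W p).toAffine.Point)
    (x s : ℤ_[p]) : Prop :=
  (∃ xq sq : ℚ, Pt (WQ W) A xq sq ∧ iq x = xq ∧ iq s = sq) ∧
    Pt (Wp W p) B (toZMod x) (toZMod s)

lemma IPt.neg {A B} {x s : ℤ_[p]} (h : IPt W A B x s) : IPt W (-A) (-B) x (-s) := by
  obtain ⟨⟨xq, sq, a, b, c⟩, d⟩ := h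
  exact ⟨⟨xq, -sq, a.neg, b, by rw [map_neg, c, Rat.cast_neg]⟩, by rw [map_neg]; exact d.neg⟩

lemma IPt.inj {A B B'} {x s x' s' : ℤ_[p]} (h : IPt W A B x s) (h' : IPt W A B' x' s') :
    x = x' ∧ s = s' := by
  obtain ⟨⟨xq, sq, a, b, c⟩, -⟩ := h
  obtain ⟨⟨xq', sq', a', b', c'⟩, -⟩ := h'
  obtain ⟨rfl, rfl⟩ := a.inj a'
  exact ⟨coe_inj' (b.trans b'.symm), coe_inj' (c.trans c'.symm)⟩

lemma IPt.eqn {A B} {x s : ℤ_[p]} (h : IPt W A B x s) : s ^ 2 = ff (W.b₂ : ℤ_[p]) W.b₄ W.b₆ x := by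
  obtain ⟨⟨xq, sq, a, b, c⟩, -⟩ := h
  have := congrArg (Rat.cast : ℚ → ℚ_[p]) a.eqn
  apply coe_inj'
  rw [map_pow, map_ff, b, c]
  simpa [ff] using this

lemma IPt.unit_or (hp : p ≠ 2) {A B A' B'} {x1 s1 x2 s2 : ℤ_[p]} (h : IPt W A B x1 s1)
    (h' : IPt W A' B' x2 s2) (hne : B + B' ≠ 0) : IsUnit (x2 - x1) ∨ IsUnit (s1 + s2) := by
  have hn := Pt.ne_of_add_ne (two_ne hp) h.2 h'.2 hne
  by_cases e : toZMod x1 = toZMod x2
  · exact Or.inr (isUnit_of_rho (by rw [map_add]; exact fun k => hn ⟨e, k⟩))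
  · exact Or.inl (isUnit_of_rho (by rw [map_sub]; exact sub_ne_zero.2 (Ne.symm e)))

lemma IPt.add (hp : p ≠ 2) {A B A' B'} {x1 s1 x2 s2 : ℤ_[p]} (h : IPt W A B x1 s1)
    (h' : IPt W A' B' x2 s2) (hne : B + B' ≠ 0) :
    ∃ x3 s3 m, Add3 (W.b₂ : ℤ_[p]) W.b₄ x1 s1 x2 s2 x3 s3 m ∧ IPt W (A + A') (B + B') x3 s3 := by
  have hu := h.unit_or hp h' hne
  obtain ⟨⟨xq, sq, a, b, c⟩, d⟩ := h
  obtain ⟨⟨xq', sq', a', b', c'⟩, d'⟩ := h'
  have hn : ¬ (xq = xq' ∧ sq + sq' = 0) := by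
    rintro ⟨rfl, e⟩
    rcases hu with hu | hu
    · rw [coe_inj' (b.trans b'.symm), sub_self] at hu
      exact not_isUnit_zero hu
    · rw [show s1 + s2 = 0 from coe_inj' (by rw [map_add, map_zero, c, c']; exact_mod_cast e)] at hu
      exact not_isUnit_zero hu
  obtain ⟨x3, s3, m, k, q⟩ := Pt.add two_ne_zero a a' hn
  have k' := k.map (Rat.castHom ℚ_[p])
  simp only [map_b₂, map_b₄, eq_intCast, eq_ratCast, Rat.cast_intCast, ← b, ← c, ← b', ← c'] at k'
  obtain ⟨m0, hm⟩ : ∃ m0 : ℤ_[p], iq m0 = m := by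
    rcases hu with hu | hu
    · exact exists_lift (a := s2 - s1) hu (by rw [map_sub, map_sub]; exact k'.h1)
    · exact exists_lift (a := 4 * (x1 ^ 2 + x1 * x2 + x2 ^ 2) + (W.b₂ : ℤ_[p]) * (x1 + x2) +
        2 * (W.b₄ : ℤ_[p])) hu
        (by simp only [map_add, map_mul, map_pow, map_ofNat, map_intCast]; exact k'.h2)
  obtain ⟨y3, hy⟩ : ∃ y3 : ℤ_[p], iq y3 = x3 :=
    exists_lift (a := m0 ^ 2 - (W.b₂ : ℤ_[p]) - 4 * (x1 + x2)) ((two_unit hp).mul (two_unit hp))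
      (by simp only [map_add, map_sub, map_mul, map_pow, map_ofNat, map_intCast, hm]
          linear_combination k'.h3)
  have ht : iq (-s1 - m0 * (y3 - x1)) = s3 := by
    simp only [map_sub, map_mul, map_neg, hm, hy]; exact k'.h4.symm
  have k2 : Add3 (W.b₂ : ℤ_[p]) W.b₄ x1 s1 x2 s2 y3 (-s1 - m0 * (y3 - x1)) m0 := by
    apply Add3.of_inj iq (fun _ _ e => coe_inj' e)
    simp only [map_intCast, ht, hy, hm]
    exact k'
  refine ⟨y3, _, m0, k2, ⟨x3, s3, q, hy, ht⟩, Pt.add' (m := toZMod m0) (two_ne hp) d d' hne ?_⟩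
  simpa using k2.map toZMod

lemma nsmul_ne_zero_of_card {G : Type*} [AddGroup G] (hG : Nat.card G = p) {B : G} (hB : B ≠ 0)
    {j : ℕ} (h1 : 1 ≤ j) (h2 : j < p) : j • B ≠ 0 := by
  have o : addOrderOf B = p := addOrderOf_eq_prime (by rw [← hG]; exact card_nsmul_eq_zero') hB
  exact nsmul_ne_zero_of_lt_addOrderOf (by omega) (by omega)

/-- The multiples `j • A`, `1 ≤ j < p`. -/
structure Chain (W : WeierstrassCurve ℤ) (A : (WQ W).toAffine.Point) (B : (Wp W p).toAffine.Point)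
    (x s m : ℕ → ℤ_[p]) : Prop where
  pt : ∀ j, 1 ≤ j → j < p → IPt W (j • A) (j • B) (x j) (s j)
  add : ∀ j, 1 ≤ j → j + 1 < p →
    Add3 (W.b₂ : ℤ_[p]) W.b₄ (x 1) (s 1) (x j) (s j) (x (j + 1)) (s (j + 1)) (m j)
  unit : ∀ j, 1 ≤ j → j + 1 < p → IsUnit (x j - x 1) ∨ IsUnit (s 1 + s j)
  sunit : ∀ j, 1 ≤ j → j < p → toZMod (s j) ≠ 0

lemma IPt.s_ne (hp : p ≠ 2) (hG : Nat.card (Wp W p).toAffine.Point = p) {A B} {x s : ℤ_[p]}
    (h : IPt W A B x s) : toZMod s ≠ 0 := by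
  intro e
  have := (Fact.out : p.Prime).two_le
  apply nsmul_ne_zero_of_card hG h.2.ne_zero (j := 2) (by omega) (by omega)
  rw [two_nsmul]
  exact Pt.add_eq_zero (two_ne hp) h.2 h.2 (by rw [e, add_zero])

lemma exists_chain (hp : p ≠ 2) (hG : Nat.card (Wp W p).toAffine.Point = p) {A B} {x1 s1 : ℤ_[p]}
    (h : IPt W A B x1 s1) : ∃ x s m, Chain W A B x s m ∧ x 1 = x1 ∧ s 1 = s1 := by
  have hB := h.2.ne_zero
  have two := (Fact.out : p.Prime).two_le
  have ne : ∀ j, 1 ≤ j → j + 1 < p → B + j • B ≠ 0 := fun j a b => by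
    rw [← succ_nsmul']; exact nsmul_ne_zero_of_card hG hB (by omega) b
  have e1 : ∀ j, 1 ≤ j → j < p → ∃ x s : ℤ_[p], IPt W (j • A) (j • B) x s := by
    intro j h1
    induction j, h1 using Nat.le_induction with
    | base => intro _; exact ⟨x1, s1, by simpa using h⟩
    | succ j h1 ih =>
      intro h2
      obtain ⟨x, s, k⟩ := ih (by omega)
      obtain ⟨x3, s3, m, -, k'⟩ := h.add hp k (ne j h1 h2)
      exact ⟨x3, s3, by rwa [succ_nsmul', succ_nsmul']⟩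
  choose! x s hx using e1
  have k1 := hx 1 le_rfl (by omega)
  rw [one_nsmul, one_nsmul] at k1
  have e2 : ∀ j, 1 ≤ j → j + 1 < p →
      ∃ m, Add3 (W.b₂ : ℤ_[p]) W.b₄ (x 1) (s 1) (x j) (s j) (x (j + 1)) (s (j + 1)) m := by
    intro j h1 h2
    obtain ⟨x3, s3, m, a, k'⟩ := k1.add hp (hx j h1 (by omega)) (ne j h1 h2)
    rw [← succ_nsmul', ← succ_nsmul'] at k'
    obtain ⟨rfl, rfl⟩ := k'.inj (hx (j + 1) (by omega) h2)
    exact ⟨m, a⟩
  choose! m hm using e2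
  exact ⟨x, s, m, ⟨hx, hm, fun j h1 h2 => k1.unit_or hp (hx j h1 (by omega)) (ne j h1 h2),
    fun j h1 h2 => (hx j h1 h2).s_ne hp hG⟩, k1.inj h⟩

lemma Def.chain {R : Type*} [CommRing R] {b2 b4 π t : R} (hπ : π ^ 2 = 0) (h2 : IsUnit (2 : R))
    {x s m x' s' m' : ℕ → R} (n : ℕ)
    (ha : ∀ j, 1 ≤ j → j + 1 ≤ n → Add3 b2 b4 (x 1) (s 1) (x j) (s j) (x (j + 1)) (s (j + 1)) (m j))
    (ha' : ∀ j, 1 ≤ j → j + 1 ≤ n →
      Add3 b2 b4 (x' 1) (s' 1) (x' j) (s' j) (x' (j + 1)) (s' (j + 1)) (m' j))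
    (hu : ∀ j, 1 ≤ j → j + 1 ≤ n → IsUnit (x j - x 1) ∨ IsUnit (s 1 + s j))
    (hd : Def b2 b4 π (x' 1) (s' 1) (x 1) (s 1) t) :
    ∀ j, 1 ≤ j → j ≤ n → Def b2 b4 π (x' j) (s' j) (x j) (s j) (j * t) := by
  intro j h1
  induction j, h1 using Nat.le_induction with
  | base => intro _; simpa using hd
  | succ j h1 ih =>
    intro h
    have := Def.add hπ h2 (ha j h1 h) (ha' j h1 h) hd (ih (by omega)) (hu j h1 h)
    exact this.congr (by push_cast; ring)

lemma Chain.add2 {A B} {x s m : ℕ → ℤ_[p]} (c : Chain W A B x s m) (j : ℕ) (h1 : 1 ≤ j)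
    (h2 : j + 1 < p) : Add3 (W.b₂ : ZMod (p ^ 2)) W.b₄ (mk2 (x 1)) (mk2 (s 1)) (mk2 (x j))
      (mk2 (s j)) (mk2 (x (j + 1))) (mk2 (s (j + 1))) (mk2 (m j)) := by
  simpa using (c.add j h1 h2).map mk2

lemma Chain.add1 {A B} {x s m : ℕ → ℤ_[p]} (c : Chain W A B x s m) (j : ℕ) (h1 : 1 ≤ j)
    (h2 : j + 1 < p) : Add3 (W.b₂ : ZMod p) W.b₄ (toZMod (x 1)) (toZMod (s 1)) (toZMod (x j))
      (toZMod (s j)) (toZMod (x (j + 1))) (toZMod (s (j + 1))) (toZMod (m j)) := by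
  simpa using (c.add j h1 h2).map toZMod

lemma Chain.unit2 {A B} {x s m : ℕ → ℤ_[p]} (c : Chain W A B x s m) (j : ℕ) (h1 : 1 ≤ j)
    (h2 : j + 1 < p) : IsUnit (mk2 (x j) - mk2 (x 1)) ∨ IsUnit (mk2 (s 1) + mk2 (s j)) := by
  rcases c.unit j h1 h2 with h | h
  · left; simpa using h.map mk2
  · right; simpa using h.map mk2

lemma IPt.eqn2 {A B} {x s : ℤ_[p]} (h : IPt W A B x s) :
    mk2 s ^ 2 = ff (W.b₂ : ZMod (p ^ 2)) W.b₄ W.b₆ (mk2 x) := by
  have := congrArg mk2 h.eqn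
  rwa [map_pow, map_ff, map_intCast, map_intCast, map_intCast] at this

lemma IPt.eqn1 {A B} {x s : ℤ_[p]} (h : IPt W A B x s) :
    toZMod s ^ 2 = ff (W.b₂ : ZMod p) W.b₄ W.b₆ (toZMod x) := by
  have := congrArg toZMod h.eqn
  rwa [map_pow, map_ff, map_intCast, map_intCast, map_intCast] at this

lemma IPt.def (hp : p ≠ 2) (hG : Nat.card (Wp W p).toAffine.Point = p) {A A' B}
    {x s x' s' : ℤ_[p]} (h : IPt W A B x s) (h' : IPt W A' B x' s') :
    ∃ t, Def (W.b₂ : ZMod (p ^ 2)) W.b₄ p (mk2 x') (mk2 s') (mk2 x) (mk2 s) t := by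
  obtain ⟨a, b⟩ := h'.2.inj h.2
  obtain ⟨u, hu⟩ := mk2_of_rho a
  obtain ⟨v, hv⟩ := mk2_of_rho b
  exact Def.exists pi_sq (two_unit' hp) ((isUnit_of_rho (h.s_ne hp hG)).map mk2) hu hv h.eqn2 h'.eqn2

lemma pred_nsmul {G : Type*} [AddGroup G] (hG : Nat.card G = p) (B : G) : -((p - 1) • B) = B := by
  have := (Fact.out : p.Prime).pos
  rw [neg_eq_iff_add_eq_zero, ← succ_nsmul, show p - 1 + 1 = p by omega, ← hG]
  exact card_nsmul_eq_zero'

/-- The Miller function along a chain. -/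
lemma Chain.mil (hp : p ≠ 2) (hG : Nat.card (Wp W p).toAffine.Point = p) {A B}
    {x s m : ℕ → ℤ_[p]} (c : Chain W A B x s m) :
    Mil p (fP (W.b₂ : ZMod p) W.b₄ W.b₆) (toZMod (x 1)) (toZMod (s 1))
      (toZMod (∑ j ∈ Finset.range (p - 2), m (j + 1))) := by
  have two := (Fact.out : p.Prime).two_le
  rw [map_sum]
  have k := (c.pt (p - 1) (by omega) (by omega)).neg.2
  have k1 := (c.pt 1 (by omega) (by omega)).2
  rw [pred_nsmul hG] at k
  rw [one_nsmul] at k1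
  obtain ⟨a, b⟩ := k.inj k1
  refine Mil.of_chain p (two_ne hp) rfl (fun j => toZMod (x j)) (fun j => toZMod (s j))
    (fun j => toZMod (m j)) (p - 2) (by omega) ?_ ?_ ?_ ?_ ?_
  · intro j h1 h2
    rw [fP_eval]
    exact (c.pt j h1 (by omega)).eqn1
  · intro j h1 h2
    exact c.sunit j h1 (by omega)
  · intro j h1 h2
    exact c.add1 j h1 (by omega)
  · rw [show p - 2 + 1 = p - 1 by omega]; exact a
  · rw [show p - 2 + 1 = p - 1 by omega, ← b, map_neg, neg_neg]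

lemma sep_of_disc (hp : p ≠ 2) (hΔ : (Wp W p).Δ ≠ 0) (r : ZMod p)
    (h : ff (W.b₂ : ZMod p) W.b₄ W.b₆ r = 0) : fd (W.b₂ : ZMod p) W.b₄ r ≠ 0 := by
  intro h'
  have h2 := two_ne hp
  obtain ⟨A, y, hy, -, e⟩ := Pt.mk (W := Wp W p) h2 hΔ (x := r) (s := 0) (by simpa using h.symm)
  have k : fd (Wp W p).b₂ (Wp W p).b₄ r = 0 := by simpa using h'
  rcases ((nonsingular_iff' _ _).1 hy).2 with a | a
  · apply a
    apply mul_left_cancel₀ (mul_ne_zero h2 h2)
    simp only [fd, b₂, b₄] at k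
    linear_combination -k - 2 * (Wp W p).a₁ * e
  · exact a e.symm

lemma Chain.sum_ne (hp : p ≠ 2) (hΔ : (Wp W p).Δ ≠ 0) (hG : Nat.card (Wp W p).toAffine.Point = p)
    {A B} {x s m : ℕ → ℤ_[p]} (c : Chain W A B x s m) :
    toZMod (∑ j ∈ Finset.range (p - 2), m (j + 1)) ≠ 0 :=
  Mil.ne_zero p (two_ne hp) ZMod.pow_card (sep_of_disc hp hΔ) (c.mil hp hG)

end Pool.Agent.MP_c74c64_nt

end

-- part MP_c74c64_nt.CM
section

/-!
Curves with `c₄ = 0` at an anomalous prime: `pP` lies two steps deep in the formal group.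
-/

namespace Pool.Agent.MP_c74c64_nt

open WeierstrassCurve WeierstrassCurve.Affine PadicInt Polynomial

section ring
variable {R : Type*} [CommRing R] {b2 b4 b6 w r : R}

lemma Add3.rot (hw : w ^ 2 + w + 1 = 0) (h2 : b2 = 12 * r) (h4 : 2 * b4 = 12 * r ^ 2)
    {x1 s1 x2 s2 x3 s3 m : R} (h : Add3 b2 b4 x1 s1 x2 s2 x3 s3 m) :
    Add3 b2 b4 (w * (x1 + r) - r) s1 (w * (x2 + r) - r) s2 (w * (x3 + r) - r) s3 (w ^ 2 * m) := by
  have h3 : w ^ 3 = 1 := by linear_combination (w - 1) * hw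
  subst h2
  refine ⟨?_, ?_, ?_, ?_⟩
  · linear_combination h.h1 + m * (x2 - x1) * h3
  · linear_combination w ^ 2 * h.h2 + (w ^ 2 - 1) * h4
  · linear_combination w * h.h3 - w * m ^ 2 * h3
  · linear_combination h.h4 + m * (x3 - x1) * h3

lemma Def.rot (hw : w ^ 2 + w + 1 = 0) (h2 : b2 = 12 * r) (h4 : 2 * b4 = 12 * r ^ 2)
    {π x' s' x s t : R} (h : Def b2 b4 π x' s' x s t) :
    Def b2 b4 π (w * (x' + r) - r) s' (w * (x + r) - r) s (w * t) := by
  have h3 : w ^ 3 = 1 := by linear_combination (w - 1) * hw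
  subst h2
  refine ⟨by linear_combination w * h.hx, ?_⟩
  have := h.hs
  unfold fd at *
  linear_combination this + π * t * (1 - w) * h4 - 12 * π * t * (x + r) ^ 2 * h3

lemma ff_rot (hw : w ^ 2 + w + 1 = 0) (h2 : b2 = 12 * r) (h4 : 2 * b4 = 12 * r ^ 2) (x : R) :
    ff b2 b4 b6 (w * (x + r) - r) = ff b2 b4 b6 x := by
  have h3 : w ^ 3 = 1 := by linear_combination (w - 1) * hw
  subst h2
  unfold ff
  linear_combination (w * (x + r) - r - x) * h4 + 4 * (x + r) ^ 3 * h3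

end ring

variable {p : ℕ} [Fact p.Prime] {W : WeierstrassCurve ℤ}

lemma three_ne (hp : p ≠ 3) : (3 : ZMod p) ≠ 0 := by
  intro h
  have : ((3 : ℕ) : ZMod p) = 0 := by exact_mod_cast h
  rw [ZMod.natCast_eq_zero_iff] at this
  exact hp ((Nat.prime_dvd_prime_iff_eq Fact.out Nat.prime_three).1 this)

lemma exists_r (hp : p ≠ 2) (hp3 : p ≠ 3) (hc : W.c₄ = 0) :
    ∃ r : ℤ_[p], (W.b₂ : ℤ_[p]) = 12 * r ∧ 2 * (W.b₄ : ℤ_[p]) = 12 * r ^ 2 := by
  have u : IsUnit (12 : ℤ_[p]) := isUnit_of_rho (by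
    rw [map_ofNat, show (12 : ZMod p) = 2 * 2 * 3 by norm_num]
    exact mul_ne_zero (mul_ne_zero (two_ne hp) (two_ne hp)) (three_ne hp3))
  obtain ⟨v, hv⟩ := u.exists_right_inv
  have e : (W.b₂ : ℤ_[p]) = 12 * (W.b₂ * v) := by linear_combination (-(W.b₂ : ℤ_[p])) * hv
  refine ⟨W.b₂ * v, e, u.mul_left_cancel ?_⟩
  have := congrArg (Int.cast : ℤ → ℤ_[p]) hc
  simp only [c₄] at this
  push_cast at this
  linear_combination -this + ((W.b₂ : ℤ_[p]) + 12 * (W.b₂ * v)) * e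

lemma exists_w1 (hp : p ≠ 2) (hΔ : (Wp W p).Δ ≠ 0) (hG : Nat.card (Wp W p).toAffine.Point = p)
    {r : ZMod p} (h2 : (W.b₂ : ZMod p) = 12 * r) (h4 : 2 * (W.b₄ : ZMod p) = 12 * r ^ 2) :
    ∃ w : ZMod p, w ^ 2 + w + 1 = 0 := by
  by_contra hn
  have inj : Function.Injective fun x : ZMod p => x ^ 3 := by
    intro x y h
    simp only at h
    by_cases hy : y = 0
    · subst hy; simpa using h
    · by_contra hxy
      refine hn ⟨x / y, ?_⟩
      field_simp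
      apply mul_left_cancel₀ (sub_ne_zero.2 hxy)
      linear_combination h
  have t := two_ne hp
  obtain ⟨u, hu⟩ := Finite.surjective_of_injective inj (-(W.b₆ - 4 * r ^ 3) / (2 * 2))
  simp only at hu
  field_simp at hu
  obtain ⟨A, hA⟩ := Pt.mk (W := Wp W p) t hΔ (x := u - r) (s := 0) (by
    simp only [map_b₂, map_b₄, map_b₆, eq_intCast, ff, h2]
    linear_combination -hu - (u - r) * h4)
  have := (Fact.out : p.Prime).two_le
  apply nsmul_ne_zero_of_card hG hA.ne_zero (j := 2) (by omega) (by omega)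
  rw [two_nsmul]
  exact Pt.add_eq_zero t hA hA (add_zero _)

lemma exists_w (hp3 : p ≠ 3) {w : ZMod p} (hw : w ^ 2 + w + 1 = 0) :
    ∃ v : ℤ_[p], toZMod v ^ 2 + toZMod v + 1 = 0 ∧ mk2 v ^ 2 + mk2 v + 1 = 0 := by
  have e : toZMod (w.val : ℤ_[p]) = w := by simp
  generalize (w.val : ℤ_[p]) = a at e
  subst e
  have u : IsUnit (2 * a + 1) := isUnit_of_rho (by
    intro h
    simp only [map_add, map_mul, map_ofNat, map_one] at h
    exact three_ne hp3 (by linear_combination 4 * hw - (2 * toZMod a + 1) * h))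
  obtain ⟨v, hv⟩ := u.exists_right_inv
  obtain ⟨g, hg⟩ := rho_eq_zero.1 (show toZMod (a ^ 2 + a + 1) = 0 by simpa using hw)
  have k : (a - p * g * v) ^ 2 + (a - p * g * v) + 1 = p ^ 2 * (g * v) ^ 2 := by
    linear_combination hg - p * g * hv
  refine ⟨a - p * g * v, ?_, ?_⟩
  · have := congrArg toZMod k
    simpa [(Fact.out : p.Prime).ne_zero] using this
  · have := congrArg mk2 k
    rw [map_mul, map_pow mk2 (p : ℤ_[p]), map_natCast, pi_sq, zero_mul] at this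
    simpa only [map_add, map_pow, map_one] using this

lemma exists_multiple {G : Type*} [AddGroup G] (hG : Nat.card G = p) {B B' : G} (hB : B ≠ 0)
    (hB' : B' ≠ 0) : ∃ k, 1 ≤ k ∧ k < p ∧ B' = k • B := by
  obtain ⟨n, hn⟩ := mem_multiples_of_prime_card hG hB (g' := B')
  have o : addOrderOf B = p := addOrderOf_eq_prime (by rw [← hG]; exact card_nsmul_eq_zero') hB
  have e : B' = (n % p) • B := by rw [← hn, ← o, mod_addOrderOf_nsmul]
  refine ⟨n % p, ?_, Nat.mod_lt _ (Fact.out : p.Prime).pos, e⟩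
  by_contra h0
  rw [show n % p = 0 by omega, zero_nsmul] at e
  exact hB' e

lemma cm_def (hp : p ≠ 2) (hp3 : p ≠ 3) (hc : W.c₄ = 0) (hΔ : (Wp W p).Δ ≠ 0)
    (hG : Nat.card (Wp W p).toAffine.Point = p) {A B} {x s m : ℕ → ℤ_[p]} (c : Chain W A B x s m)
    {t : ZMod (p ^ 2)} (ht : Def (W.b₂ : ZMod (p ^ 2)) W.b₄ p (mk2 (x (p - 1))) (mk2 (-s (p - 1)))
      (mk2 (x 1)) (mk2 (s 1)) t) : (p : ZMod (p ^ 2)) * t = 0 := by
  have two := (Fact.out : p.Prime).two_le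
  have t2 := two_ne hp
  obtain ⟨r, h2, h4⟩ := exists_r (W := W) hp hp3 hc
  have h21 : (W.b₂ : ZMod p) = 12 * toZMod r := by simpa [map_ofNat] using congrArg toZMod h2
  have h41 : 2 * (W.b₄ : ZMod p) = 12 * toZMod r ^ 2 := by
    simpa [map_ofNat] using congrArg toZMod h4
  have h22 : (W.b₂ : ZMod (p ^ 2)) = 12 * mk2 r := by simpa [map_ofNat] using congrArg mk2 h2
  have h42 : 2 * (W.b₄ : ZMod (p ^ 2)) = 12 * mk2 r ^ 2 := by
    simpa [map_ofNat] using congrArg mk2 h4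
  obtain ⟨w0, hw0⟩ := exists_w1 hp hΔ hG h21 h41
  obtain ⟨w, hw1, hw2⟩ := exists_w hp3 hw0
  have k1 := c.pt 1 le_rfl (by omega)
  rw [one_nsmul, one_nsmul] at k1
  obtain ⟨B', hB'⟩ := Pt.mk (W := Wp W p) t2 hΔ (x := toZMod w * (toZMod (x 1) + toZMod r) - toZMod r)
    (s := toZMod (s 1)) (by
      simp only [map_b₂, map_b₄, map_b₆, eq_intCast]
      rw [ff_rot hw1 h21 h41]; exact k1.eqn1)
  obtain ⟨k, hk1, hk2, rfl⟩ := exists_multiple hG k1.2.ne_zero hB'.ne_zero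
  obtain ⟨a1, a2⟩ := hB'.inj (c.pt k hk1 hk2).2
  -- the eigenvalue
  have M := c.mil hp hG
  have S0 := c.sum_ne hp hΔ hG
  generalize toZMod (∑ j ∈ Finset.range (p - 2), m (j + 1)) = S at M S0
  have Mj : ∀ j, 1 ≤ j → j < p →
      Mil p (fP (W.b₂ : ZMod p) W.b₄ W.b₆) (toZMod (x j)) (toZMod (s j)) (j * S) := by
    intro j h1
    induction j, h1 using Nat.le_induction with
    | base => intro _; simpa using M
    | succ j h1 ih =>
      intro h
      have := Mil.add p t2 (c.add1 j h1 h) (c.sunit 1 le_rfl (by omega)) (c.sunit j h1 (by omega))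
        (c.sunit (j + 1) (by omega) h) rfl M (ih (by omega))
      rwa [show S + j * S = ((j + 1 : ℕ) : ZMod p) * S by push_cast; ring] at this
  have w3 : toZMod w ^ 3 = 1 := by linear_combination (toZMod w - 1) * hw1
  have w0' : toZMod w ≠ 0 := by intro e; simp [e] at hw1
  have Mr := Mil.rot p (x' := toZMod (x k)) (u := toZMod w ^ 2)
    (v := toZMod w ^ 2 * toZMod r - toZMod r) (pow_ne_zero 2 w0') (by
      have e := ff_rot (R := (ZMod p)[X]) (b6 := C (W.b₆ : ZMod p)) (w := C (toZMod w ^ 2))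
        (r := C (toZMod r)) (b2 := C (W.b₂ : ZMod p)) (b4 := C (W.b₄ : ZMod p))
        (by rw [← C_pow, ← C_add, ← C_1, ← C_add, C_eq_zero]
            linear_combination hw1 + toZMod w * w3)
        (by rw [h21, C_mul]; rfl)
        (by have := congrArg C h41
            simpa only [C_mul, C_pow, map_ofNat] using this) X
      rw [fP]
      refine Eq.trans ?_ e
      simp only [ff, add_comp, mul_comp, pow_comp, C_comp, X_comp, ofNat_comp, Nat.cast_ofNat,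
        C_sub, C_mul]
      ring)
    (by rw [← a1]; linear_combination (toZMod (x 1) + toZMod r) * w3) M
  rw [a2] at Mr
  have ev := Mil.unique p t2 (fP_deg t2) (c.sunit k hk1 hk2) (Mj k hk1 hk2) Mr
  have hk : (k : ZMod p) = toZMod w ^ 2 := mul_right_cancel₀ S0 ev
  have un : IsUnit ((k : ℤ_[p]) - w) := isUnit_of_rho (by
    rw [map_sub, map_natCast, hk]
    intro e
    have : toZMod w = 1 := mul_left_cancel₀ w0' (by linear_combination e)
    rw [this] at hw1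
    exact three_ne hp3 (by linear_combination hw1))
  -- the deformations
  obtain ⟨xk, sk, mk, ck, ek1, ek2⟩ := exists_chain hp hG (c.pt k hk1 hk2)
  have k' := (c.pt (p - 1) (by omega) (by omega)).neg
  rw [pred_nsmul hG] at k'
  obtain ⟨x', s', m', c', e1, e2⟩ := exists_chain hp hG k'
  obtain ⟨t0, d0⟩ : ∃ t0, Def (W.b₂ : ZMod (p ^ 2)) W.b₄ p (mk2 w * (mk2 (x 1) + mk2 r) - mk2 r)
      (mk2 (s 1)) (mk2 (x k)) (mk2 (s k)) t0 := by
    obtain ⟨u, hu⟩ := mk2_of_rho (u := w * (x 1 + r) - r) (v := x k) (by simpa using a1)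
    obtain ⟨v, hv⟩ := mk2_of_rho a2
    refine Def.exists (b6 := (W.b₆ : ZMod (p ^ 2))) (u := u) pi_sq (two_unit' hp)
      ((isUnit_of_rho (c.sunit k hk1 hk2)).map mk2) (by simpa using hu) hv (c.pt k hk1 hk2).eqn2 ?_
    rw [ff_rot hw2 h22 h42]; exact k1.eqn2
  have d1 := (Def.chain pi_sq (two_unit' hp) (t := t0) (x := fun j => mk2 (xk j))
    (s := fun j => mk2 (sk j)) (m := fun j => mk2 (mk j))
    (x' := fun j => mk2 w * (mk2 (x j) + mk2 r) - mk2 r) (s' := fun j => mk2 (s j))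
    (m' := fun j => mk2 w ^ 2 * mk2 (m j)) (p - 1) (fun j a b => ck.add2 j a (by omega))
    (fun j a b => (c.add2 j a (by omega)).rot hw2 h22 h42) (fun j a b => ck.unit2 j a (by omega))
    (by rw [ek1, ek2]; exact d0) (p - 1) (by omega) le_rfl).neg
  have d2 := Def.chain pi_sq (two_unit' hp) (t := t) (x := fun j => mk2 (x j))
    (s := fun j => mk2 (s j)) (m := fun j => mk2 (m j))
    (x' := fun j => mk2 (x' j)) (s' := fun j => mk2 (s' j))
    (m' := fun j => mk2 (m' j)) (p - 1) (fun j a b => c.add2 j a (by omega))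
    (fun j a b => c'.add2 j a (by omega)) (fun j a b => c.unit2 j a (by omega))
    (by rw [e1, e2]; exact ht) k hk1 (by omega)
  have q1 := (ck.pt (p - 1) (by omega) (by omega)).neg
  have q2 := c'.pt k hk1 hk2
  rw [neg_nsmul, smul_comm] at q2
  obtain ⟨b1, b2⟩ := q1.inj q2
  rw [b1, ← map_neg mk2 (sk (p - 1)), b2, ← map_neg] at d1
  have d3 := ht.rot hw2 h22 h42
  have u := Def.unique (two_unit' hp) ((isUnit_of_rho (c.sunit k hk1 hk2)).map mk2)
    (d1.trans pi_sq d2) (d3.trans pi_sq d0)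
  apply (un.map mk2).mul_left_cancel
  rw [Nat.cast_sub (by omega)] at u
  rw [map_sub, map_natCast]
  linear_combination u + t0 * pi_sq (p := p)

end Pool.Agent.MP_c74c64_nt

end

-- part MP_c74c64_nt.Core
section

/-!
The Fermat quotient of the numerator of `x(pP)` at an anomalous prime.
-/

namespace Pool.Agent.MP_c74c64_nt

open WeierstrassCurve WeierstrassCurve.Affine PadicInt

lemma Add3.swap {R : Type*} [CommRing R] {b2 b4 x1 s1 x2 s2 x3 s3 m : R}
    (h : Add3 b2 b4 x1 s1 x2 s2 x3 s3 m) : Add3 b2 b4 x1 s1 x3 (-s3) x2 (-s2) m := by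
  have := h.d1
  unfold fd at this
  refine ⟨?_, ?_, ?_, ?_⟩
  · linear_combination h.h4
  · linear_combination -this - m * h.h4 - (x3 - x1) * h.h3
  · linear_combination h.h3
  · linear_combination h.h1

variable {p : ℕ} [Fact p.Prime] {W : WeierstrassCurve ℤ}

def Sm (u : ZMod (p ^ 2)) : Prop := ∃ z, u ^ (p - 1) = 1 + (p : ZMod (p ^ 2)) * z

def LL (u : ZMod (p ^ 2)) : ZMod (p ^ 2) := u ^ (p - 1) - 1

omit [Fact p.Prime] in
lemma one_add_pow' (z : ZMod (p ^ 2)) (n : ℕ) :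
    (1 + (p : ZMod (p ^ 2)) * z) ^ n = 1 + (n : ZMod (p ^ 2)) * ((p : ZMod (p ^ 2)) * z) := by
  induction n with
  | zero => simp
  | succ n ih => rw [pow_succ (1 + _), ih]; push_cast; linear_combination n * z ^ 2 * pi_sq (p := p)

lemma LL_one_add (z : ZMod (p ^ 2)) : LL (1 + (p : ZMod (p ^ 2)) * z) = -((p : ZMod (p ^ 2)) * z) := by
  rw [LL, one_add_pow', Nat.cast_sub (Fact.out : p.Prime).pos]
  linear_combination z * pi_sq (p := p)

lemma Sm.one_add (z : ZMod (p ^ 2)) : Sm (1 + (p : ZMod (p ^ 2)) * z) :=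
  ⟨-z, by have := LL_one_add z; unfold LL at this; linear_combination this⟩

omit [Fact p.Prime] in
lemma Sm.mul {u v : ZMod (p ^ 2)} (hu : Sm u) (hv : Sm v) : Sm (u * v) := by
  obtain ⟨a, ha⟩ := hu
  obtain ⟨b, hb⟩ := hv
  exact ⟨a + b, by rw [mul_pow, ha, hb]; linear_combination a * b * pi_sq (p := p)⟩

omit [Fact p.Prime] in
lemma LL_mul {u v : ZMod (p ^ 2)} (hu : Sm u) (hv : Sm v) : LL (u * v) = LL u + LL v := by
  obtain ⟨a, ha⟩ := hu
  obtain ⟨b, hb⟩ := hv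
  simp only [LL, mul_pow, ha, hb]
  linear_combination a * b * pi_sq (p := p)

omit [Fact p.Prime] in
lemma p_mul_LL {u : ZMod (p ^ 2)} (hu : Sm u) : (p : ZMod (p ^ 2)) * LL u = 0 := by
  obtain ⟨a, ha⟩ := hu
  rw [LL, ha]
  linear_combination a * pi_sq (p := p)

lemma Sm.of_rho {u : ℤ_[p]} (h : toZMod u ≠ 0) : Sm (mk2 u) := by
  obtain ⟨z, hz⟩ := mk2_of_rho (u := u ^ (p - 1)) (v := 1)
    (by rw [map_pow, map_one, ZMod.pow_card_sub_one_eq_one h])
  exact ⟨z, by simpa using hz⟩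

lemma Sm.of_int {a : ℤ} (h : ¬ (p : ℤ) ∣ a) : Sm (a : ZMod (p ^ 2)) := by
  have := Sm.of_rho (u := (a : ℤ_[p])) (by rwa [map_intCast, Ne, ZMod.intCast_zmod_eq_zero_iff_dvd])
  rwa [map_intCast] at this

lemma unit_of_int {a : ℤ} (h : ¬ (p : ℤ) ∣ a) : IsUnit (a : ZMod (p ^ 2)) := by
  have := (isUnit_of_rho (u := (a : ℤ_[p]))
    (by rwa [map_intCast, Ne, ZMod.intCast_zmod_eq_zero_iff_dvd])).map mk2
  rwa [map_intCast] at this

lemma num_den_of_iq {u : ℤ_[p]} {q : ℚ} (h : iq u = q) :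
    ((q.num : ℤ) : ℤ_[p]) = u * ((q.den : ℤ) : ℤ_[p]) ∧ ¬ (p : ℤ) ∣ (q.den : ℤ) := by
  have e : ((q.num : ℤ) : ℤ_[p]) = u * ((q.den : ℤ) : ℤ_[p]) := by
    apply coe_inj'
    rw [map_mul, map_intCast, map_intCast, h]
    exact_mod_cast num_eq q
  refine ⟨e, fun hd => not_dvd_both q Fact.out ?_ hd⟩
  have := congrArg toZMod e
  rw [map_mul, map_intCast, map_intCast, (ZMod.intCast_zmod_eq_zero_iff_dvd _ _).2 hd,
    mul_zero] at this
  exact (ZMod.intCast_zmod_eq_zero_iff_dvd _ _).1 this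

/-- The recurrences for numerators and denominators of the multiples of `P`. -/
structure Rec (W : WeierstrassCurve ℤ) (a D : ℕ → ℤ) : Prop where
  r1 : ∀ n, 1 ≤ n → D (n + 2) * D n = U1 (a (n + 1)) (D (n + 1)) (a 1) (D 1)
  r2 : ∀ n, 1 ≤ n → a (n + 2) * D n + a n * D (n + 2) =
    U2 W.b₂ W.b₄ W.b₆ (a (n + 1)) (D (n + 1)) (a 1) (D 1)
  r3 : ∀ n, 1 ≤ n → a (n + 2) * a n = U3 W.b₄ W.b₆ W.b₈ (a (n + 1)) (D (n + 1)) (a 1) (D 1)
  d2 : D 2 = fh W.b₂ W.b₄ W.b₆ (a 1) (D 1)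
  a2 : a 2 = ph W.b₄ W.b₆ W.b₈ (a 1) (D 1)

lemma rec_of_pt {P : (WQ W).toAffine.Point} {X S : ℕ → ℚ}
    (h : ∀ n, 1 ≤ n → Pt (WQ W) (n • P) (X n) (S n)) (hg : Good W (X 1)) :
    Rec W (fun n => (X n).num) (fun n => (X n).den) := by
  have h1 := h 1 le_rfl
  rw [one_nsmul] at h1
  have t : ∀ n, 1 ≤ n → _ := fun n hn => triple_int (h (n + 1) (by omega)) h1
    (x3 := X (n + 2)) (s3 := S (n + 2)) (x4 := X n) (s4 := S n)
    (by rw [← succ_nsmul]; exact h _ (by omega))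
    (by rw [succ_nsmul, add_sub_cancel_right]; exact h n hn) (by
      intro e
      have k := h (n + 1) (by omega)
      have q := k.eqn
      rw [e] at k q
      rw [← h1.eqn] at q
      rcases sq_eq_sq_iff_eq_or_eq_neg.1 q with e' | e'
      · rw [e'] at k
        have := Pt.ext two_ne_zero k h1
        rw [succ_nsmul, add_eq_right] at this
        exact (h n hn).ne_zero this
      · apply (h (n + 2) (by omega)).ne_zero
        rw [succ_nsmul]
        exact Pt.add_eq_zero two_ne_zero k h1 (by rw [e']; ring)) hg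
  have d := dup_int h1 (x3 := X 2) (s3 := S 2) (by rw [← two_nsmul]; exact h 2 (by omega)) hg
  exact ⟨fun n hn => (t n hn).1, fun n hn => (t n hn).2.1, fun n hn => (t n hn).2.2, d.1, d.2⟩

/-- The case where `P` reduces to the identity. -/
lemma core_zero {a D : ℕ → ℤ} (h : Rec W a D)
    (hc : ∀ n, 1 ≤ n → (p : ℤ) ∣ D n → ¬ (p : ℤ) ∣ a n) (h1 : (p : ℤ) ^ 2 ∣ D 1) :
    LL (a p : ZMod (p ^ 2)) = 0 ∧ (p : ℤ) ^ 4 ∣ D p := by
  have hp : p.Prime := Fact.out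
  have p0 : (p : ℤ) ^ 2 ≠ 0 := pow_ne_zero 2 (by exact_mod_cast hp.ne_zero)
  have cz : ∀ z : ℤ, (z : ZMod (p ^ 2)) = 0 ↔ (p : ℤ) ^ 2 ∣ z := fun z => by
    rw [ZMod.intCast_zmod_eq_zero_iff_dvd]; push_cast; rfl
  have nd : ∀ n, 1 ≤ n → (p : ℤ) ^ 2 ∣ D n → ¬ (p : ℤ) ∣ a n := fun n hn e =>
    hc n hn ((dvd_pow_self _ two_ne_zero).trans e)
  have dv : ∀ n, (p : ℤ) ^ 2 ∣ D (n + 1) ∧ (p : ℤ) ^ 2 ∣ D (n + 2) := by
    intro n
    induction n with
    | zero =>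
      refine ⟨h1, ?_⟩
      rw [← cz] at h1 ⊢
      rw [h.d2]; simp [fh, h1]
    | succ n ih =>
      refine ⟨ih.2, ?_⟩
      have u := unit_of_int (nd (n + 1) (by omega) ih.1)
      have := congrArg (Int.cast : ℤ → ZMod (p ^ 2)) (h.r2 (n + 1) (by omega))
      rw [← cz] at h1 ⊢
      rw [← cz, ← cz] at ih
      simp only [U2] at this
      push_cast at this
      rw [h1, ih.1, show n + 1 + 1 = n + 2 from rfl, ih.2] at this
      apply u.mul_left_cancel
      linear_combination this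
  have dv' : ∀ n, 1 ≤ n → ∃ e, D n = (p : ℤ) ^ 2 * e := fun n hn => by
    obtain ⟨k, rfl⟩ := Nat.exists_eq_add_of_le' hn
    exact (dv k).1
  choose! E hE using dv'
  have D0 : ∀ n, 1 ≤ n → (D n : ZMod (p ^ 2)) = 0 := fun n hn => (cz _).2 ⟨_, hE n hn⟩
  have un : ∀ n, 1 ≤ n → IsUnit (a n : ZMod (p ^ 2)) := fun n hn =>
    unit_of_int (nd n hn ⟨_, hE n hn⟩)
  have sm : ∀ n, 1 ≤ n → Sm (a n : ZMod (p ^ 2)) := fun n hn => Sm.of_int (nd n hn ⟨_, hE n hn⟩)
  have a3 : ∀ n, 1 ≤ n → (a (n + 2) : ZMod (p ^ 2)) * a n =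
      a (n + 1) * a (n + 1) * (a 1 * a 1) := fun n hn => by
    have := congrArg (Int.cast : ℤ → ZMod (p ^ 2)) (h.r3 n hn)
    simp only [U3] at this
    push_cast at this
    rw [D0 1 le_rfl] at this
    linear_combination this
  have a2 : (a 2 : ZMod (p ^ 2)) = a 1 * a 1 * (a 1 * a 1) := by
    rw [h.a2]; simp only [ph]; push_cast; rw [D0 1 le_rfl]; ring
  have s1 := sm 1 le_rfl
  have key : ∀ n : ℕ, (LL (a (n + 1) : ZMod (p ^ 2)) = (n + 1) ^ 2 * LL (a 1 : ZMod (p ^ 2)) ∧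
      (E (n + 1) : ZMod (p ^ 2)) * a 1 = (n + 1) ^ 2 * E 1 * a (n + 1)) ∧
      (LL (a (n + 2) : ZMod (p ^ 2)) = (n + 2) ^ 2 * LL (a 1 : ZMod (p ^ 2)) ∧
      (E (n + 2) : ZMod (p ^ 2)) * a 1 = (n + 2) ^ 2 * E 1 * a (n + 2)) := by
    intro n
    induction n with
    | zero =>
      refine ⟨by simp, ?_, ?_⟩
      · rw [zero_add, a2, LL_mul (s1.mul s1) (s1.mul s1), LL_mul s1 s1]; push_cast; ring
      · have e := h.d2
        rw [hE 2 (by omega), hE 1 le_rfl] at e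
        have e' : E 2 = 4 * a 1 ^ 3 * E 1 + (p : ℤ) ^ 2 * (W.b₂ * a 1 ^ 2 * E 1 ^ 2 +
            2 * W.b₄ * a 1 * p ^ 2 * E 1 ^ 3 + W.b₆ * p ^ 4 * E 1 ^ 4) :=
          mul_left_cancel₀ p0 (by unfold fh at e; linear_combination e)
        rw [zero_add, a2, e']
        push_cast
        rw [pi_sq]
        ring
    | succ n ih =>
      obtain ⟨⟨i1, i2⟩, i3, i4⟩ := ih
      refine ⟨⟨by push_cast; linear_combination i3, by push_cast; linear_combination i4⟩, ?_, ?_⟩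
      · have e := congrArg LL (a3 (n + 1) (by omega))
        have s2 := sm (n + 1 + 1) (by omega)
        rw [LL_mul (sm _ (by omega)) (sm _ (by omega)), LL_mul (s2.mul s2) (s1.mul s1),
          LL_mul s1 s1, LL_mul s2 s2] at e
        push_cast
        linear_combination e - i1 + 2 * i3
      · have e := h.r2 (n + 1) (by omega)
        rw [hE (n + 1) (by omega), hE (n + 1 + 2) (by omega), hE (n + 1 + 1) (by omega),
          hE 1 le_rfl] at e
        have e' : a (n + 1 + 2) * E (n + 1) + a (n + 1) * E (n + 1 + 2) =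
            2 * a (n + 2) * a 1 * (a (n + 2) * E 1 + a 1 * E (n + 2)) +
            (p : ℤ) ^ 2 * (W.b₂ * a (n + 2) * a 1 * E (n + 2) * E 1 +
              W.b₄ * (a (n + 2) * E 1 + a 1 * E (n + 2)) * p ^ 2 * E (n + 2) * E 1 +
              W.b₆ * p ^ 4 * E (n + 2) ^ 2 * E 1 ^ 2) :=
          mul_left_cancel₀ p0 (by unfold U2 at e; linear_combination e)
        have e2 := congrArg (Int.cast : ℤ → ZMod (p ^ 2)) e'
        push_cast at e2
        rw [pi_sq, zero_mul] at e2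
        have e3 := a3 (n + 1) (by omega)
        apply (un (n + 1) (by omega)).mul_left_cancel
        push_cast
        linear_combination (a 1 : ZMod (p ^ 2)) * e2 - a (n + 1 + 2) * i2 +
          2 * a (n + 2) * a 1 * a 1 * i4 - (2 * (1 + ((n : ZMod (p ^ 2)) + 2) ^ 2)) * E 1 * e3
  obtain ⟨k1, k2⟩ := (key (p - 1)).1
  have e : p - 1 + 1 = p := by have := hp.pos; omega
  have e' : ((p - 1 : ℕ) : ZMod (p ^ 2)) + 1 = p := by exact_mod_cast congrArg Nat.cast e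
  rw [e, e', pi_sq] at k1 k2
  refine ⟨by rw [k1, zero_mul], ?_⟩
  have : (E p : ZMod (p ^ 2)) = 0 := (un 1 le_rfl).mul_right_cancel (by rw [k2]; ring)
  obtain ⟨z, hz⟩ := (cz _).1 this
  exact ⟨z, by rw [hE p hp.pos, hz]; ring⟩

/-- The case where `P` does not reduce to the identity. -/
lemma core_ne (hp : p ≠ 2) (hΔ : (Wp W p).Δ ≠ 0) (hG : Nat.card (Wp W p).toAffine.Point = p)
    {A B} {x s m : ℕ → ℤ_[p]} (c : Chain W A B x s m) {a D : ℕ → ℤ} (h : Rec W a D)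
    (hc : (p : ℤ) ∣ D p → ¬ (p : ℤ) ∣ a p)
    (ha : ∀ j, 1 ≤ j → j < p → (a j : ℤ_[p]) = x j * D j ∧ ¬ (p : ℤ) ∣ D j)
    {t : ZMod (p ^ 2)} (ht : Def (W.b₂ : ZMod (p ^ 2)) W.b₄ p (mk2 (x (p - 1))) (mk2 (-s (p - 1)))
      (mk2 (x 1)) (mk2 (s 1)) t) :
    (LL (a p : ZMod (p ^ 2)) = 0 ↔ (p : ZMod (p ^ 2)) * t = 0) ∧
      ((p : ℤ) ^ 4 ∣ D p ↔ (p : ZMod (p ^ 2)) * t = 0) := by
  have hpp : p.Prime := Fact.out
  have three : 3 ≤ p := by have := hpp.two_le; omega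
  have u2 := two_unit' hp
  have su := (isUnit_of_rho (c.sunit 1 le_rfl (by omega))).map mk2
  have ha2 : ∀ j, 1 ≤ j → j < p → (a j : ZMod (p ^ 2)) = mk2 (x j) * D j := fun j h1 h2 => by
    simpa using congrArg mk2 (ha j h1 h2).1
  have sD : ∀ j, 1 ≤ j → j < p → Sm (D j : ZMod (p ^ 2)) := fun j h1 h2 => Sm.of_int (ha j h1 h2).2
  have uD : ∀ j, 1 ≤ j → j < p → IsUnit (D j : ℤ_[p]) := fun j h1 h2 => isUnit_of_rho (by
    rw [map_intCast, Ne, ZMod.intCast_zmod_eq_zero_iff_dvd]; exact (ha j h1 h2).2)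
  have r1 : ∀ n, 1 ≤ n → n + 1 < p → (D (n + 2) : ℤ_[p]) * D n =
      (D (n + 1) * D 1 * (x (n + 1) - x 1)) ^ 2 := fun n h1 h2 => by
    have := congrArg (Int.cast : ℤ → ℤ_[p]) (h.r1 n h1)
    simp only [U1] at this
    push_cast at this
    rw [(ha (n + 1) (by omega) h2).1, (ha 1 le_rfl (by omega)).1] at this
    linear_combination this
  -- the denominator of `pP`
  have rp := r1 (p - 2) (by omega) (by omega)
  rw [show p - 2 + 2 = p by omega, show p - 2 + 1 = p - 1 by omega] at rp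
  have hx := ht.hx
  have second : (p : ℤ) ^ 4 ∣ D p ↔ (p : ZMod (p ^ 2)) * t = 0 := by
    rw [← PadicInt.pow_p_dvd_int_iff, ← (uD (p - 2) (by omega) (by omega)).dvd_mul_right, rp,
      show 4 = 2 * 2 from rfl, pow_mul, IsIntegrallyClosed.pow_dvd_pow_iff two_ne_zero,
      ((uD (p - 1) (by omega) (by omega)).mul (uD 1 le_rfl (by omega))).dvd_mul_left,
      ← mk2_eq_zero, map_sub, ← (u2.mul su).mul_right_eq_zero (b := (p : ZMod (p ^ 2)) * t), hx]
    constructor <;> intro e <;> linear_combination e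
  refine ⟨?_, second⟩
  have Dp : (D p : ZMod (p ^ 2)) = 0 := by
    have := congrArg mk2 rp
    simp only [map_mul, map_pow, map_sub, map_intCast, hx] at this
    apply (unit_of_int (ha (p - 2) (by omega) (by omega)).2).mul_right_cancel
    rw [this]
    linear_combination (D (p - 1) * D 1 * 2 * t * mk2 (s 1)) ^ 2 * pi_sq (p := p)
  have sa : Sm (a p : ZMod (p ^ 2)) := Sm.of_int (hc (by
    have := (ZMod.intCast_zmod_eq_zero_iff_dvd _ _).1 Dp
    push_cast at this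
    exact (dvd_pow_self _ two_ne_zero).trans this))
  -- deformations
  have df : ∀ j, 1 ≤ j → j < p → Def (W.b₂ : ZMod (p ^ 2)) W.b₄ p (mk2 (x (p - j)))
      (-mk2 (s (p - j))) (mk2 (x j)) (mk2 (s j)) t := by
    intro j h1
    induction j, h1 using Nat.le_induction with
    | base => intro _; simpa using ht
    | succ j h1 ih =>
      intro h2
      have k := (c.add2 (p - (j + 1)) (by omega) (by omega)).swap
      rw [show p - (j + 1) + 1 = p - j by omega] at k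
      simpa using Def.add pi_sq u2 (c.add2 j h1 h2) k (Def.refl _ _ _ _ _) (ih (by omega))
        (c.unit2 j h1 h2)
  have sx : ∀ n, 1 ≤ n → n + 2 < p → Sm (mk2 (x (n + 1)) - mk2 (x 1)) := fun n h1 h2 => by
    rw [← map_sub]
    apply Sm.of_rho
    intro e
    have := congrArg toZMod (r1 n h1 (by omega))
    rw [map_pow, map_mul, map_mul, e, mul_zero, zero_pow two_ne_zero] at this
    exact (((uD _ (by omega) h2).mul (uD n h1 (by omega))).map toZMod).ne_zero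
      (by rw [map_mul]; exact this)
  have rel : ∀ n, 1 ≤ n → n + 2 < p → LL (D (n + 2) : ZMod (p ^ 2)) + LL (D n : ZMod (p ^ 2)) =
      2 * LL (D (n + 1) : ZMod (p ^ 2)) + 2 * LL (D 1 : ZMod (p ^ 2)) +
        2 * LL (mk2 (x (n + 1)) - mk2 (x 1)) := fun n h1 h2 => by
    have := congrArg mk2 (r1 n h1 (by omega))
    simp only [map_mul, map_pow, map_sub, map_intCast] at this
    have k := congrArg LL this
    have s12 := (sD (n + 1) (by omega) (by omega)).mul (sD 1 le_rfl (by omega))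
    have s3 := s12.mul (sx n h1 h2)
    rw [LL_mul (sD _ (by omega) h2) (sD n h1 (by omega)), sq (_ * _ * _), LL_mul s3 s3, LL_mul s12 (sx n h1 h2),
      LL_mul (sD (n + 1) (by omega) (by omega)) (sD 1 le_rfl (by omega))] at k
    linear_combination k
  obtain ⟨E, hE⟩ : ∃ E : ℕ → ZMod (p ^ 2),
      ∀ j, E j = LL (D (p - j) : ZMod (p ^ 2)) - LL (D j : ZMod (p ^ 2)) := ⟨_, fun _ => rfl⟩
  have F : ∀ j, 1 ≤ j → j + 1 < p → E (j + 1) - E j + 2 * (p * t) * mk2 (m j) =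
      E 2 - E 1 + 2 * (p * t) * mk2 (m 1) := by
    intro j h1
    induction j, h1 using Nat.le_induction with
    | base => intro _; rfl
    | succ j h1 ih =>
      intro h2
      rw [← ih (by omega), hE, hE, hE]
      have k1 := rel j h1 h2
      have k2 := rel (p - (j + 2)) (by omega) (by omega)
      rw [show p - (j + 2) + 2 = p - j by omega, show p - (j + 2) + 1 = p - (j + 1) by omega] at k2
      have k3 : mk2 (x (p - (j + 1))) - mk2 (x 1) = (mk2 (x (j + 1)) - mk2 (x 1)) *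
          (1 + p * (t * (mk2 (m (j + 1)) - mk2 (m j)))) := by
        linear_combination (df (j + 1) (by omega) (by omega)).hx -
          p * t * (c.add2 (j + 1) (by omega) h2).h1 + p * t * (c.add2 j h1 (by omega)).h4
      rw [k3, LL_mul (sx j h1 h2) (Sm.one_add _), LL_one_add] at k2
      linear_combination k2 - k1
  have G : ∀ j, j + 1 < p → E (j + 1) = E 1 + j * (E 2 - E 1 + 2 * (p * t) * mk2 (m 1)) -
      2 * (p * t) * mk2 (∑ i ∈ Finset.range j, m (i + 1)) := by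
    intro j
    induction j with
    | zero => intro _; simp
    | succ j ih =>
      intro h2
      rw [Finset.sum_range_succ, map_add]
      push_cast
      linear_combination ih (by omega) + F (j + 1) (by omega) h2
  have G1 := G (p - 2) (by omega)
  have uS := (isUnit_of_rho (c.sum_ne hp hΔ hG)).map mk2
  generalize mk2 (∑ i ∈ Finset.range (p - 2), m (i + 1)) = S at G1 uS
  rw [show p - 2 + 1 = p - 1 by omega, Nat.cast_sub (by omega), hE, hE, hE,
    show p - (p - 1) = 1 by omega] at G1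
  have fin : (a p : ZMod (p ^ 2)) * D (p - 2) * (D 1 * D 1) =
      D (p - 1) * D (p - 1) * D 2 * (1 + p * (2 * t * mk2 (m 1))) := by
    have e1 := congrArg (Int.cast : ℤ → ZMod (p ^ 2)) (h.r2 (p - 2) (by omega))
    have e2 := congrArg (Int.cast : ℤ → ZMod (p ^ 2)) h.d2
    rw [show p - 2 + 2 = p by omega, show p - 2 + 1 = p - 1 by omega] at e1
    simp only [U2, fh] at e1 e2
    push_cast at e1 e2
    rw [Dp, ha2 (p - 1) (by omega) (by omega), ha2 1 le_rfl (by omega), hx] at e1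
    rw [ha2 1 le_rfl (by omega)] at e2
    have e3 := (c.pt 1 le_rfl (by omega)).eqn2
    have e4 := (c.add2 1 le_rfl (by omega)).d1
    unfold ff at e3
    unfold fd at e4
    rw [e2]
    linear_combination (D 1 * D 1 : ZMod (p ^ 2)) * e1 +
      (D (p - 1) : ZMod (p ^ 2)) ^ 2 * D 1 ^ 4 * (p * t * mk2 (s 1) * e4 +
        2 * p * t * mk2 (m 1) * e3 + 8 * mk2 (x 1) * (t * mk2 (s 1)) ^ 2 * pi_sq (p := p))
  have s1 := sD 1 le_rfl (by omega)
  have s2 := sD 2 (by omega) (by omega)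
  have s3 := sD (p - 1) (by omega) (by omega)
  have s4 := sD (p - 2) (by omega) (by omega)
  have k := congrArg LL fin
  rw [LL_mul (sa.mul s4) (s1.mul s1), LL_mul sa s4, LL_mul s1 s1,
    LL_mul ((s3.mul s3).mul s2) (Sm.one_add _), LL_mul (s3.mul s3) s2, LL_mul s3 s3,
    LL_one_add] at k
  have main : LL (a p : ZMod (p ^ 2)) = S * (p * t) := by
    apply u2.mul_left_cancel
    push_cast at G1
    linear_combination 2 * k - G1 - p_mul_LL s4 + p_mul_LL s2 + p_mul_LL s3 - p_mul_LL s1 -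
      2 * t * mk2 (m 1) * pi_sq (p := p)
  rw [main, uS.mul_right_eq_zero]

end Pool.Agent.MP_c74c64_nt

end

-- part MP_c74c64_nt.Main
section

namespace Pool.Agent.MP_c74c64_nt

open WeierstrassCurve WeierstrassCurve.Affine PadicInt

lemma num_den_sq {a d : ℤ} (hd : 0 < d) (h : IsCoprime a d) :
    ((a : ℚ) / (d : ℚ) ^ 2).num = a ∧ ((((a : ℚ) / (d : ℚ) ^ 2).den : ℕ) : ℤ) = d ^ 2 := by
  have c : Nat.Coprime a.natAbs (d ^ 2).natAbs := Int.isCoprime_iff_gcd_eq_one.1 h.pow_right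
  have e : ((a : ℚ) / (d : ℚ) ^ 2) = (a : ℚ) / ((d ^ 2 : ℤ) : ℚ) := by push_cast; rfl
  rw [e]
  exact ⟨Rat.num_div_eq_of_coprime (pow_pos hd 2) c, Rat.den_div_eq_of_coprime (pow_pos hd 2) c⟩

lemma good_of_nonsingular {W : WeierstrassCurve ℤ} {a b d : ℤ} (hd : 0 < d) (h : IsCoprime a d)
    (hE : ∀ (l : ℕ) [Fact l.Prime], ¬ (l : ℤ) ∣ d → (Wp W l).toAffine.Nonsingular
      ((a : ZMod l) / (d : ZMod l) ^ 2) ((b : ZMod l) / (d : ZMod l) ^ 3)) :
    Good W ((a : ℚ) / (d : ℚ) ^ 2) := by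
  intro l hl hn
  obtain ⟨e1, e2⟩ := num_den_sq hd h
  rw [e2] at hn
  rw [e1, e2]
  have : Fact l.Prime := ⟨hl⟩
  have hld : ¬ (l : ℤ) ∣ d := fun k => hn (k.trans (dvd_pow_self _ two_ne_zero))
  obtain ⟨q, ns⟩ := (nonsingular_iff' _ _).1 (hE l hld)
  rw [equation_iff] at q
  have d0 : (d : ZMod l) ≠ 0 := by rwa [Ne, ZMod.intCast_zmod_eq_zero_iff_dvd]
  have ea : (a : ZMod l) = (a / d ^ 2) * d ^ 2 := by field_simp
  generalize (a : ZMod l) / (d : ZMod l) ^ 2 = x at q ns ea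
  generalize (b : ZMod l) / (d : ZMod l) ^ 3 = y at q ns
  simp only [map_a₁, map_a₂, map_a₃, map_a₄, map_a₆, eq_intCast] at q ns
  rintro ⟨k1, k2⟩
  rw [← ZMod.intCast_zmod_eq_zero_iff_dvd] at k1 k2
  simp only [fh, ph, b₂, b₄, b₆, b₈] at k1 k2
  push_cast at k1 k2
  rw [ea] at k1 k2
  have d8 : (d : ZMod l) ^ 8 ≠ 0 := pow_ne_zero 8 d0
  have s0 : 2 * y + (W.a₁ : ZMod l) * x + W.a₃ = 0 := by
    apply pow_eq_zero_iff (n := 2) two_ne_zero |>.1
    apply mul_left_cancel₀ d8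
    linear_combination k1 + 4 * (d : ZMod l) ^ 8 * q
  rcases ns with ns | ns
  · apply ns
    apply pow_eq_zero_iff (n := 2) two_ne_zero |>.1
    apply mul_left_cancel₀ d8
    linear_combination k2 - (d : ZMod l) ^ 8 * (W.a₁ ^ 2 + 4 * W.a₂ + 8 * x) * q -
      (d : ZMod l) ^ 8 * (W.a₁ * (3 * x ^ 2 + 2 * W.a₂ * x + W.a₄ - W.a₁ * y) -
        (W.a₂ + 2 * x) * (2 * y + W.a₁ * x + W.a₃)) * s0
  · exact ns s0

theorem main (W : WeierstrassCurve ℤ) (a₁ b₁ d₁ : ℤ) (hd₁ : 0 < d₁) (ha₁ : IsCoprime a₁ d₁)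
    (h₁ : (WQ W).toAffine.Nonsingular ((a₁ : ℚ) / (d₁ : ℚ) ^ 2) ((b₁ : ℚ) / (d₁ : ℚ) ^ 3))
    (hP : ¬ IsOfFinAddOrder (Point.some _ _ h₁))
    (hE : ∀ (l : ℕ) [Fact l.Prime], ¬ (l : ℤ) ∣ d₁ → (Wp W l).toAffine.Nonsingular
      ((a₁ : ZMod l) / (d₁ : ZMod l) ^ 2) ((b₁ : ZMod l) / (d₁ : ZMod l) ^ 3))
    (p : ℕ) [Fact p.Prime] (hp : p ≠ 2) (hΔ : ¬ (p : ℤ) ∣ W.Δ)
    (hN : Nat.card (Wp W p).toAffine.Point = p) (a b d : ℤ) (hd : 0 < d) (ha : IsCoprime a d)
    (h : (WQ W).toAffine.Nonsingular ((a : ℚ) / (d : ℚ) ^ 2) ((b : ℚ) / (d : ℚ) ^ 3))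
    (hab : p • Point.some _ _ h₁ = Point.some _ _ h) :
    (a ^ (p - 1) ≡ 1 [ZMOD (p : ℤ) ^ 2] ↔ (p : ℤ) ^ 2 ∣ d) ∧
      (W.c₄ = 0 → p ≠ 3 → (p : ℤ) ^ 2 ∣ d) := by
  have hpp : p.Prime := Fact.out
  have hΔ' : (Wp W p).Δ ≠ 0 := by
    rwa [map_Δ, eq_intCast, Ne, ZMod.intCast_zmod_eq_zero_iff_dvd]
  generalize hPP : Point.some _ _ h₁ = P at hP hab
  have e1 : ∀ n, 1 ≤ n → ∃ x s, Pt (WQ W) (n • P) x s := fun n hn =>
    Pt.of_ne_zero fun e => hP (isOfFinAddOrder_iff_nsmul_eq_zero.2 ⟨n, hn, e⟩)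
  choose! X S hX using e1
  have p1 : Pt (WQ W) P _ _ := ⟨_, h₁, hPP.symm, rfl⟩
  have pp : Pt (WQ W) (p • P) _ _ := ⟨_, h, hab, rfl⟩
  have k1 := hX 1 le_rfl
  rw [one_nsmul] at k1
  obtain ⟨x1, -⟩ := k1.inj p1
  obtain ⟨xp, -⟩ := (hX p hpp.pos).inj pp
  have R := rec_of_pt hX (x1 ▸ good_of_nonsingular hd₁ ha₁ hE)
  obtain ⟨n1, n2⟩ := num_den_sq hd ha
  obtain ⟨n3, n4⟩ := num_den_sq hd₁ ha₁
  rw [← xp] at n1 n2
  rw [← x1] at n3 n4
  have c1 : a ^ (p - 1) ≡ 1 [ZMOD (p : ℤ) ^ 2] ↔ LL ((X p).num : ZMod (p ^ 2)) = 0 := by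
    rw [n1, LL, sub_eq_zero, ← Nat.cast_pow, ← ZMod.intCast_eq_intCast_iff]
    push_cast
    rfl
  have c2 : (p : ℤ) ^ 2 ∣ d ↔ (p : ℤ) ^ 4 ∣ ((X p).den : ℤ) := by
    rw [n2, show 4 = 2 * 2 from rfl, pow_mul, Int.pow_dvd_pow_iff two_ne_zero]
  rw [c1, c2]
  by_cases z : (p : ℤ) ∣ d₁
  · obtain ⟨r1, r2⟩ := core_zero (p := p) R
      (fun n _ e e' => not_dvd_both (X n) hpp e' e) (by
        simp only [n4]; exact pow_dvd_pow_of_dvd z 2)
    exact ⟨⟨fun _ => r2, fun _ => r1⟩, fun _ _ => r2⟩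
  · have ud : IsUnit (d₁ : ℤ_[p]) := isUnit_of_rho (by
      rwa [map_intCast, Ne, ZMod.intCast_zmod_eq_zero_iff_dvd])
    have d0 : (d₁ : ℚ_[p]) ≠ 0 := by exact_mod_cast hd₁.ne'
    obtain ⟨u, hu⟩ := exists_lift (a := (a₁ : ℤ_[p])) (ud.pow 2)
      (q := (((a₁ : ℚ) / (d₁ : ℚ) ^ 2 : ℚ) : ℚ_[p])) (by
        simp only [map_pow, map_intCast]; push_cast; field_simp)
    obtain ⟨v, hv⟩ := exists_lift (a := (b₁ : ℤ_[p])) (ud.pow 3)
      (q := (((b₁ : ℚ) / (d₁ : ℚ) ^ 3 : ℚ) : ℚ_[p])) (by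
        simp only [map_pow, map_intCast]; push_cast; field_simp)
    have hs : iq (2 * v + (W.a₁ : ℤ_[p]) * u + (W.a₃ : ℤ_[p])) =
        ((2 * ((b₁ : ℚ) / (d₁ : ℚ) ^ 3) + (WQ W).a₁ * ((a₁ : ℚ) / (d₁ : ℚ) ^ 2) + (WQ W).a₃ : ℚ) :
          ℚ_[p]) := by
      simp only [map_add, map_mul, map_ofNat, map_intCast, hu, hv, map_a₁, map_a₃, eq_intCast]
      push_cast
      rfl
    generalize 2 * v + (W.a₁ : ℤ_[p]) * u + (W.a₃ : ℤ_[p]) = s at hs
    have q : s ^ 2 = ff (W.b₂ : ℤ_[p]) W.b₄ W.b₆ u := by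
      have := congrArg (Rat.cast : ℚ → ℚ_[p]) p1.eqn
      apply coe_inj'
      rw [map_pow, map_ff, hu, hs]
      simpa [ff] using this
    obtain ⟨B, hB⟩ := Pt.mk (W := Wp W p) (two_ne hp) hΔ' (x := toZMod u) (s := toZMod s) (by
      have := congrArg toZMod q
      rw [map_pow, map_ff] at this
      simpa using this)
    have ip : IPt W P B u s := ⟨⟨_, _, p1, hu, hs⟩, hB⟩
    obtain ⟨x, s', m, c, -, -⟩ := exists_chain hp hN ip
    have two := hpp.two_le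
    have k' := (c.pt (p - 1) (by omega) (by omega)).neg
    rw [pred_nsmul hN] at k'
    have k1' := c.pt 1 le_rfl (by omega)
    rw [one_nsmul, one_nsmul] at k1'
    obtain ⟨t, ht⟩ := k1'.def hp hN k'
    obtain ⟨r1, r2⟩ := core_ne hp hΔ' hN c R (fun e e' => not_dvd_both (X p) hpp e' e)
      (fun j h1 h2 => by
        obtain ⟨⟨xq, sq, k, kx, -⟩, -⟩ := c.pt j h1 h2
        obtain ⟨rfl, -⟩ := (hX j h1).inj k
        exact num_den_of_iq kx) ht
    exact ⟨r1.trans r2.symm, fun hc h3 => r2.2 (cm_def hp h3 hc hΔ' hN c ht)⟩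

end Pool.Agent.MP_c74c64_nt

end
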